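import Pool.Agent.H66.SyL.Comp

/-! The moment map; curves in L. -/

set_option autoImplicit false

open scoped ContDiff Topology

namespace Pool.Agent.H66.SyL

variable {n : ℕ} {L : Set (Op n)} (b : OrthonormalBasis (Fin (n + 1)) ℂ (E n))

/-- The moment map P = [z] to (Hz, z). -/
noncomputable def mom (w : Fin (n + 1) → ℝ) (P : Op n) : ℝ :=
  ∑ k, w k * (inner ℂ (b k) (P (b k))).re

theorem mom_pt (w : Fin (n + 1) → ℝ) (z : E n) :
    mom b w (pt z) = ∑ k, w k * ‖inner ℂ (b k) z‖ ^ 2 := by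
  unfold mom
  apply Finset.sum_congr rfl
  intro k _
  rw [pt_apply, inner_smul_right, ← inner_conj_symm z (b k)]
  congr 1
  rw [mul_comm, Complex.mul_conj, Complex.ofReal_re, Complex.normSq_eq_norm_sq]

/-- tangent vectors of curves in L at Q = p x are in the range of the derivative of p: if g t in L for
t near t0, g t0 = Q in C.U and g has derivative X at t0 then x(t) = r (g t) has a derivative y and
X = Dp y, the derivative of Z (g t) is Dz y. -/
theorem curve_deriv (C : LChart L) {g : ℝ → Op n} {t0 : ℝ} {X : Op n}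
    (hg : ∀ᶠ t in 𝓝 t0, g t ∈ L) (hU : g t0 ∈ C.U) (hX : HasDerivAt g X t0) :
    ∃ y : R n, HasDerivAt (fun t => C.r (g t)) y t0 ∧ X = fderiv ℝ C.p (C.r (g t0)) y ∧
      HasDerivAt (fun t => C.Z (g t)) (fderiv ℝ C.z (C.r (g t0)) y) t0 := by
  have hL : g t0 ∈ L := hg.self_of_nhds
  have hmem : g t0 ∈ L ∩ C.U := ⟨hL, hU⟩
  have hball : C.r (g t0) ∈ Metric.ball C.x0 C.δ := C.r_mem _ hmem
  have hr : DifferentiableAt ℝ C.r (g t0) :=
    (C.smooth_r.contDiffAt (C.openU.mem_nhds hU)).differentiableAt (by norm_num)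
  have hp : DifferentiableAt ℝ C.p (C.r (g t0)) :=
    (C.smooth_p.contDiffAt (Metric.isOpen_ball.mem_nhds hball)).differentiableAt (by norm_num)
  have hz : DifferentiableAt ℝ C.z (C.r (g t0)) :=
    (C.smooth_z.contDiffAt (Metric.isOpen_ball.mem_nhds hball)).differentiableAt (by norm_num)
  have hrg : HasDerivAt (fun t => C.r (g t)) (fderiv ℝ C.r (g t0) X) t0 :=
    hr.hasFDerivAt.comp_hasDerivAt t0 hX
  have hU' : ∀ᶠ t in 𝓝 t0, g t ∈ C.U := hX.continuousAt.eventually_mem (C.openU.mem_nhds hU)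
  have hpg : HasDerivAt (fun t => C.p (C.r (g t)))
      (fderiv ℝ C.p (C.r (g t0)) (fderiv ℝ C.r (g t0) X)) t0 :=
    hp.hasFDerivAt.comp_hasDerivAt t0 hrg
  have heq : (fun t => C.p (C.r (g t))) =ᶠ[𝓝 t0] g := by
    filter_upwards [hg, hU'] with t h1 h2
    exact C.p_r _ ⟨h1, h2⟩
  have hpg' : HasDerivAt g (fderiv ℝ C.p (C.r (g t0)) (fderiv ℝ C.r (g t0) X)) t0 :=
    hpg.congr_of_eventuallyEq heq.symm
  refine ⟨fderiv ℝ C.r (g t0) X, hrg, hX.unique hpg', ?_⟩
  exact hz.hasFDerivAt.comp_hasDerivAt t0 hrg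

end Pool.Agent.H66.SyL
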