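import Pool.Agent.H66.SyL.Defs

/-! Algebra of pt, rot, ham, act. -/

set_option autoImplicit false

open scoped ContDiff Topology

namespace Pool.Agent.H66.SyL

variable {n : ℕ}

theorem pt_apply (z v : E n) : pt z v = inner ℂ z v • z := by
  simp [pt]

theorem pt_self {z : E n} (hz : ‖z‖ = 1) : pt z z = z := by
  rw [pt_apply, inner_self_eq_norm_sq_to_K, hz]
  simp

theorem pt_smul {z : E n} {c : ℂ} (hc : ‖c‖ = 1) : pt (c • z) = pt z := by
  refine ContinuousLinearMap.ext fun v => ?_
  rw [pt_apply, pt_apply, inner_smul_left, smul_smul]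
  have h : (starRingEnd ℂ) c * c = 1 := by
    rw [← Complex.normSq_eq_conj_mul_self, Complex.normSq_eq_norm_sq, hc]
    simp
  congr 1
  calc (starRingEnd ℂ) c * inner ℂ z v * c = ((starRingEnd ℂ) c * c) * inner ℂ z v := by ring
    _ = inner ℂ z v := by rw [h, one_mul]

/-- two unit vectors with the same projection differ by a phase -/
theorem exists_phase {z y : E n} (hz : ‖z‖ = 1) (hy : ‖y‖ = 1) (h : pt y = pt z) :
    ‖inner ℂ z y‖ = 1 ∧ y = inner ℂ z y • z := by
  have h1 : y = inner ℂ z y • z := by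
    have h2 : pt y y = pt z y := by rw [h]
    rw [pt_self hy, pt_apply] at h2
    exact h2
  refine ⟨?_, h1⟩
  have h3 : ‖y‖ = ‖inner ℂ z y • z‖ := congrArg norm h1
  rw [norm_smul, hy, hz, mul_one] at h3
  exact h3.symm

/-- a vector fixed by the projection `pt z` is a multiple of z -/
theorem fixed_of_pt {z y : E n} (h : pt z y = y) : y = inner ℂ z y • z := by
  rw [pt_apply] at h
  exact h.symm

variable (b : OrthonormalBasis (Fin (n + 1)) ℂ (E n))

private theorem ext_coord {v w : E n} (h : ∀ k, inner ℂ (b k) v = inner ℂ (b k) w) : v = w := by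
  apply b.repr.injective
  ext k
  rw [b.repr_apply_apply, b.repr_apply_apply]
  exact h k

private theorem rot_apply (θ : Fin (n + 1) → ℝ) (v : E n) :
    rot b θ v = ∑ k, (Complex.exp ((θ k : ℂ) * Complex.I) * inner ℂ (b k) v) • b k := by
  rw [rot, sum_apply]
  refine Finset.sum_congr rfl fun k _ => ?_
  rw [ContinuousLinearMap.smul_apply, pt_apply, smul_smul]

private theorem ham_apply (w : Fin (n + 1) → ℝ) (v : E n) :
    ham b w v = ∑ k, (((w k : ℝ) : ℂ) * inner ℂ (b k) v) • b k := by
  rw [ham, sum_apply]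
  refine Finset.sum_congr rfl fun k _ => ?_
  rw [ContinuousLinearMap.smul_apply, pt_apply, smul_smul]

private theorem coord_sum (c : Fin (n + 1) → ℂ) (k : Fin (n + 1)) :
    inner ℂ (b k) (∑ j, c j • b j) = c k := by
  rw [inner_sum]
  rw [Finset.sum_eq_single k]
  · rw [inner_smul_right, inner_self_eq_norm_sq_to_K, b.orthonormal.1 k]
    simp
  · intro j _ hj
    rw [inner_smul_right, b.orthonormal.2 (Ne.symm hj), mul_zero]
  · intro h
    exact absurd (Finset.mem_univ k) h

theorem coord_rot (θ : Fin (n + 1) → ℝ) (v : E n) (k : Fin (n + 1)) :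
    inner ℂ (b k) (rot b θ v) = Complex.exp ((θ k : ℂ) * Complex.I) * inner ℂ (b k) v := by
  rw [rot_apply, coord_sum]

theorem coord_ham (w : Fin (n + 1) → ℝ) (v : E n) (k : Fin (n + 1)) :
    inner ℂ (b k) (ham b w v) = ((w k : ℝ) : ℂ) * inner ℂ (b k) v := by
  rw [ham_apply, coord_sum]

theorem rot_zero : rot b 0 = ContinuousLinearMap.id ℂ (E n) := by
  refine ContinuousLinearMap.ext fun v => ext_coord b fun k => ?_
  rw [coord_rot]
  simp

theorem rot_add (θ θ' : Fin (n + 1) → ℝ) (v : E n) :
    rot b (θ + θ') v = rot b θ (rot b θ' v) := by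
  refine ext_coord b fun k => ?_
  rw [coord_rot, coord_rot, coord_rot, ← mul_assoc, ← Complex.exp_add]
  congr 2
  rw [Pi.add_apply, Complex.ofReal_add]
  ring

theorem inner_rot (θ : Fin (n + 1) → ℝ) (v w : E n) :
    inner ℂ (rot b θ v) (rot b θ w) = inner ℂ v w := by
  rw [← b.sum_inner_mul_inner, ← b.sum_inner_mul_inner]
  refine Finset.sum_congr rfl fun k _ => ?_
  rw [← inner_conj_symm (rot b θ v) (b k), ← inner_conj_symm v (b k), coord_rot, coord_rot,
    map_mul]
  have h : (starRingEnd ℂ) (Complex.exp ((θ k : ℂ) * Complex.I))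
      * Complex.exp ((θ k : ℂ) * Complex.I) = 1 := by
    rw [← Complex.normSq_eq_conj_mul_self, Complex.normSq_eq_norm_sq,
      Complex.norm_exp_ofReal_mul_I]
    simp
  calc (starRingEnd ℂ) (Complex.exp ((θ k : ℂ) * Complex.I)) * (starRingEnd ℂ) (inner ℂ (b k) v)
        * (Complex.exp ((θ k : ℂ) * Complex.I) * inner ℂ (b k) w)
      = ((starRingEnd ℂ) (Complex.exp ((θ k : ℂ) * Complex.I))
        * Complex.exp ((θ k : ℂ) * Complex.I))
        * ((starRingEnd ℂ) (inner ℂ (b k) v) * inner ℂ (b k) w) := by ring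
    _ = (starRingEnd ℂ) (inner ℂ (b k) v) * inner ℂ (b k) w := by rw [h, one_mul]

theorem norm_rot (θ : Fin (n + 1) → ℝ) (v : E n) : ‖rot b θ v‖ = ‖v‖ := by
  have h := inner_rot b θ v v
  rw [inner_self_eq_norm_sq_to_K, inner_self_eq_norm_sq_to_K] at h
  have h2 : ‖rot b θ v‖ ^ 2 = ‖v‖ ^ 2 := by exact_mod_cast h
  exact (sq_eq_sq₀ (norm_nonneg _) (norm_nonneg _)).1 h2

theorem inner_ham (w : Fin (n + 1) → ℝ) (u v : E n) :
    inner ℂ (ham b w u) v = inner ℂ u (ham b w v) := by
  rw [← b.sum_inner_mul_inner, ← b.sum_inner_mul_inner]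
  refine Finset.sum_congr rfl fun k _ => ?_
  rw [← inner_conj_symm (ham b w u) (b k), ← inner_conj_symm u (b k), coord_ham, coord_ham,
    map_mul, Complex.conj_ofReal]
  ring

theorem ham_rot (w θ : Fin (n + 1) → ℝ) (v : E n) :
    ham b w (rot b θ v) = rot b θ (ham b w v) := by
  refine ext_coord b fun k => ?_
  rw [coord_ham, coord_rot, coord_rot, coord_ham]
  ring

private theorem rot_rot_neg (θ : Fin (n + 1) → ℝ) (v : E n) : rot b θ (rot b (-θ) v) = v := by
  rw [← rot_add, add_neg_cancel, rot_zero]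
  rfl

theorem act_pt (θ : Fin (n + 1) → ℝ) (z : E n) : act b θ (pt z) = pt (rot b θ z) := by
  refine ContinuousLinearMap.ext fun v => ?_
  rw [act, ContinuousLinearMap.comp_apply, ContinuousLinearMap.comp_apply, pt_apply, pt_apply,
    map_smul, ← inner_rot b θ z (rot b (-θ) v), rot_rot_neg]

theorem act_zero (P : Op n) : act b 0 P = P := by
  rw [act, neg_zero, rot_zero]
  rfl

theorem act_add (θ θ' : Fin (n + 1) → ℝ) (P : Op n) :
    act b (θ + θ') P = act b θ (act b θ' P) := by
  refine ContinuousLinearMap.ext fun v => ?_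
  simp only [act, ContinuousLinearMap.comp_apply]
  rw [rot_add, neg_add, add_comm (-θ) (-θ'), rot_add]

private theorem continuous_rot (w : Fin (n + 1) → ℝ) :
    Continuous fun t : ℝ => rot b (t • w) := by
  unfold rot
  refine continuous_finsetSum _ fun k _ => ?_
  have h1 : Continuous fun t : ℝ => (((t • w) k : ℝ) : ℂ) := by
    refine Complex.continuous_ofReal.comp ?_
    simp only [Pi.smul_apply, smul_eq_mul]
    fun_prop
  have h2 : Continuous fun t : ℝ => Complex.exp ((((t • w) k : ℝ) : ℂ) * Complex.I) :=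
    Complex.continuous_exp.comp (h1.mul continuous_const)
  exact h2.smul (continuous_const (y := pt (b k)))

theorem continuous_act (w : Fin (n + 1) → ℝ) :
    Continuous fun q : ℝ × Op n => act b (q.1 • w) q.2 := by
  unfold act
  have h1 : Continuous fun q : ℝ × Op n => rot b (q.1 • w) :=
    (continuous_rot b w).comp continuous_fst
  have h2 : Continuous fun q : ℝ × Op n => rot b (-(q.1 • w)) := by
    have : (fun q : ℝ × Op n => rot b (-(q.1 • w))) = fun q : ℝ × Op n => rot b ((-q.1) • w) := by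
      funext q
      rw [neg_smul]
    rw [this]
    exact (continuous_rot b w).comp continuous_fst.neg
  exact h1.clm_comp (continuous_snd.clm_comp h2)

private theorem hasDerivAt_rotOp (w : Fin (n + 1) → ℝ) (t : ℝ) :
    HasDerivAt (fun t : ℝ => rot b (t • w)) (Complex.I • (ham b w ∘L rot b (t • w))) t := by
  have h : HasDerivAt (fun t : ℝ => rot b (t • w))
      (∑ k, (Complex.exp ((((t • w) k : ℝ) : ℂ) * Complex.I) * ((w k : ℂ) * Complex.I)) •
        pt (b k)) t := by
    unfold rot
    refine HasDerivAt.fun_sum fun k _ => ?_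
    have h1 : HasDerivAt (fun t : ℝ => (t • w) k) (w k) t := by
      simp only [Pi.smul_apply, smul_eq_mul]
      simpa using (hasDerivAt_id t).mul_const (w k)
    have h3 : HasDerivAt (fun t : ℝ => Complex.exp ((((t • w) k : ℝ) : ℂ) * Complex.I))
        (Complex.exp ((((t • w) k : ℝ) : ℂ) * Complex.I) * ((w k : ℂ) * Complex.I)) t :=
      (h1.ofReal_comp.mul_const Complex.I).cexp
    exact h3.smul_const (pt (b k))
  convert h using 1
  refine ContinuousLinearMap.ext fun v => ext_coord b fun k => ?_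
  rw [ContinuousLinearMap.smul_apply, inner_smul_right, ContinuousLinearMap.comp_apply,
    coord_ham, coord_rot, sum_apply]
  have h2 : (∑ j, ((Complex.exp ((((t • w) j : ℝ) : ℂ) * Complex.I) * ((w j : ℂ) * Complex.I)) •
        pt (b j)) v) = ∑ j, ((Complex.exp ((((t • w) j : ℝ) : ℂ) * Complex.I)
          * ((w j : ℂ) * Complex.I)) * inner ℂ (b j) v) • b j := by
    refine Finset.sum_congr rfl fun j _ => ?_
    rw [ContinuousLinearMap.smul_apply, pt_apply, smul_smul]
  rw [h2, coord_sum]
  ring

theorem hasDerivAt_rot (w : Fin (n + 1) → ℝ) (v : E n) (t : ℝ) :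
    HasDerivAt (fun t : ℝ => rot b (t • w) v) (Complex.I • ham b w (rot b (t • w) v)) t := by
  have h := hasDerivAt_rotOp b w t
  have h2 := (((ContinuousLinearMap.apply ℂ (E n) v).restrictScalars ℝ).hasFDerivAt
    (x := rot b (t • w))).comp_hasDerivAt t h
  exact h2

/-- the infinitesimal action: the derivative of act at t is i [H, act_t P] -/
theorem hasDerivAt_act (w : Fin (n + 1) → ℝ) (P : Op n) (t : ℝ) :
    HasDerivAt (fun t : ℝ => act b (t • w) P)
      (Complex.I • (ham b w ∘L act b (t • w) P - act b (t • w) P ∘L ham b w)) t := by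
  have hA := hasDerivAt_rotOp b w t
  have hB : HasDerivAt (fun t : ℝ => rot b (-(t • w)))
      (-(Complex.I • (ham b w ∘L rot b (-(t • w))))) t := by
    have h1 := (hasDerivAt_rotOp b w (-t)).scomp t (hasDerivAt_neg t)
    have h2 : (fun t : ℝ => rot b (-(t • w))) = (fun t : ℝ => rot b (t • w)) ∘ Neg.neg := by
      funext s
      simp only [Function.comp_apply, neg_smul]
    rw [h2]
    have h3 : -(Complex.I • (ham b w ∘L rot b (-(t • w)))) =
        (-1 : ℝ) • (Complex.I • (ham b w ∘L rot b (-t • w))) := by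
      rw [neg_smul t w]
      exact (neg_one_smul ℝ _).symm
    rw [h3]
    exact h1
  have h := (hA.mul_const P).mul hB
  have h4 : Complex.I • (ham b w ∘L act b (t • w) P - act b (t • w) P ∘L ham b w) =
      (Complex.I • (ham b w ∘L rot b (t • w))) * P * rot b (-(t • w)) +
      rot b (t • w) * P * (-(Complex.I • (ham b w ∘L rot b (-(t • w))))) := by
    refine ContinuousLinearMap.ext fun v => ?_
    simp only [act, ContinuousLinearMap.smul_apply, ContinuousLinearMap.sub_apply,
      ContinuousLinearMap.comp_apply, ContinuousLinearMap.add_apply,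
      ContinuousLinearMap.mul_apply, ContinuousLinearMap.neg_apply, map_neg, map_smul]
    rw [ham_rot b w (-(t • w)) v]
    rw [smul_sub, sub_eq_add_neg]
  rw [h4]
  exact h

theorem inner_ham_self (w : Fin (n + 1) → ℝ) (z : E n) :
    inner ℂ z (ham b w z) = ((∑ k, w k * ‖inner ℂ (b k) z‖ ^ 2 : ℝ) : ℂ) := by
  rw [← b.sum_inner_mul_inner, Complex.ofReal_sum]
  refine Finset.sum_congr rfl fun k _ => ?_
  rw [coord_ham, ← inner_conj_symm z (b k), Complex.ofReal_mul, Complex.ofReal_pow,
    ← Complex.conj_mul']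
  ring

end Pool.Agent.H66.SyL
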