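import Pool.Agent.H66.SyL.Defs

/-! Charts with a C^1 inverse defined near L (inverse function theorem). -/

set_option autoImplicit false

open scoped ContDiff Topology

namespace Pool.Agent.H66.SyL

variable {n : ℕ}

private theorem exists_left_inv (A : R n →L[ℝ] Op n) (hA : Function.Injective A) :
    ∃ π : Op n →L[ℝ] R n, ∀ x, π (A x) = x := by
  haveI : FiniteDimensional ℝ (Op n) := FiniteDimensional.complexToReal (Op n)
  obtain ⟨g, hg⟩ := LinearMap.exists_leftInverse_of_injective (A : R n →ₗ[ℝ] Op n)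
    (LinearMap.ker_eq_bot.2 hA)
  refine ⟨LinearMap.toContinuousLinearMap g, fun x => ?_⟩
  have h := congrArg (fun f : R n →ₗ[ℝ] R n => f x) hg
  simpa using h

/-- Proof. Take V, U, p, r0 from hL; P = p x0, x0 in V. A = fderiv p x0 is injective; a continuous linear
left inverse pi of A (Op n is finite dimensional over R). pi o p has derivative id at x0, so it is a
local diffeomorphism e; r = e.symm o pi is C^1 near P. For Q in L near P: Q = p x with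
x = r0 Q near x0 (continuity of r0), so r Q = x. Shrink. -/
theorem exists_chart {L : Set (Op n)} (hL : IsLagrangian L) {P : Op n} (hP : P ∈ L) :
    ∃ (p : R n → Op n) (r : Op n → R n) (x0 : R n) (δ : ℝ) (U : Set (Op n)),
      0 < δ ∧ IsOpen U ∧ P ∈ U ∧ ContDiffOn ℝ ∞ p (Metric.ball x0 δ) ∧ ContDiffOn ℝ 1 r U ∧
      p x0 = P ∧
      (∀ x ∈ Metric.ball x0 δ, p x ∈ L ∩ U ∧ r (p x) = x ∧ Function.Injective (fderiv ℝ p x) ∧
        ∀ (u v : R n) (z : E n), p x z = z →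
          (inner ℂ (fderiv ℝ p x u z) (fderiv ℝ p x v z)).im = 0) ∧
      (∀ Q ∈ L ∩ U, r Q ∈ Metric.ball x0 δ ∧ p (r Q) = Q) := by
  obtain ⟨-, V, U0, p, r0, hV, hU0, hPU0, hp, himg, hr0, hloc⟩ := hL P hP
  have hPimg : P ∈ p '' V := by
    rw [himg]
    exact ⟨hP, hPU0⟩
  obtain ⟨x0, hx0, hpx0⟩ := hPimg
  obtain ⟨π, hπ⟩ := exists_left_inv (fderiv ℝ p x0) (hloc x0 hx0).2.1
  have hpx : ContDiffAt ℝ ∞ p x0 := hp.contDiffAt (hV.mem_nhds hx0)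
  -- the local diffeomorphism q = π o p
  have hq : ContDiffAt ℝ ∞ (fun x => π (p x)) x0 := π.contDiff.contDiffAt.comp x0 hpx
  have hpd : HasFDerivAt p (fderiv ℝ p x0) x0 :=
    (hpx.differentiableAt (by simp)).hasFDerivAt
  have hqd : HasFDerivAt (fun x => π (p x)) ((ContinuousLinearEquiv.refl ℝ (R n) :
      R n ≃L[ℝ] R n) : R n →L[ℝ] R n) x0 := by
    have h := π.hasFDerivAt.comp x0 hpd
    have he : π ∘L fderiv ℝ p x0 = ((ContinuousLinearEquiv.refl ℝ (R n) :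
      R n ≃L[ℝ] R n) : R n →L[ℝ] R n) := by
      ext1 x
      exact hπ x
    rw [he] at h
    exact h
  set e := hq.toOpenPartialHomeomorph (fun x => π (p x)) hqd (by simp) with he
  have hecoe : ∀ x, e x = π (p x) := fun x => rfl
  have hxs : x0 ∈ e.source := hq.mem_toOpenPartialHomeomorph_source hqd (by simp)
  have hsymm : ContDiffAt ℝ 1 e.symm (e x0) := by
    have h := hq.to_localInverse hqd (by simp)
    exact h.of_le (by exact_mod_cast le_top)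
  have hrP : ContDiffAt ℝ 1 (fun Q : Op n => e.symm (π Q)) P := by
    have h2 : ContDiffAt ℝ 1 e.symm (π P) := by
      rw [← hpx0]
      exact hsymm
    exact h2.comp P (π.contDiff.contDiffAt)
  obtain ⟨U1, hU1o, hPU1, hrU1⟩ : ∃ U1 : Set (Op n), IsOpen U1 ∧ P ∈ U1 ∧
      ContDiffOn ℝ 1 (fun Q : Op n => e.symm (π Q)) U1 := by
    obtain ⟨u, hu, hcu⟩ := hrP.contDiffOn (m := 1) le_rfl (by simp)
    obtain ⟨U1, h1, h2, h3⟩ := mem_nhds_iff.1 hu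
    exact ⟨U1, h2, h3, hcu.mono h1⟩
  obtain ⟨δ0, hδ0, hball⟩ := Metric.isOpen_iff.1 (hV.inter e.open_source) x0 ⟨hx0, hxs⟩
  have hr0P : r0 P = x0 := by rw [← hpx0]; exact (hloc x0 hx0).1
  obtain ⟨U2, hU2o, hPU2, hU2⟩ : ∃ U2 : Set (Op n), IsOpen U2 ∧ P ∈ U2 ∧
      ∀ Q ∈ L ∩ U0, Q ∈ U2 → r0 Q ∈ Metric.ball x0 δ0 := by
    have h := hr0 P ⟨hP, hPU0⟩
    have h2 : r0 ⁻¹' Metric.ball x0 δ0 ∈ 𝓝[L ∩ U0] P :=
      h (by rw [hr0P]; exact Metric.ball_mem_nhds x0 hδ0)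
    obtain ⟨U2, h3, h4, h5⟩ := mem_nhdsWithin.1 h2
    exact ⟨U2, h3, h4, fun Q hQ hQ2 => h5 ⟨hQ2, hQ⟩⟩
  set U3 : Set (Op n) := U0 ∩ U1 ∩ U2 with hU3
  have hU3o : IsOpen U3 := (hU0.inter hU1o).inter hU2o
  have hPU3 : P ∈ U3 := ⟨⟨hPU0, hPU1⟩, hPU2⟩
  have hrp : ∀ x ∈ Metric.ball x0 δ0, e.symm (π (p x)) = x := by
    intro x hx
    have := e.left_inv (hball hx).2
    rwa [hecoe] at this
  have hinv : ∀ Q ∈ L ∩ U3, e.symm (π Q) = r0 Q ∧ p (r0 Q) = Q ∧ r0 Q ∈ Metric.ball x0 δ0 := by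
    rintro Q ⟨hQL, ⟨hQ0, hQ1⟩, hQ2⟩
    have h1 := hU2 Q ⟨hQL, hQ0⟩ hQ2
    have h2 : Q ∈ p '' V := by rw [himg]; exact ⟨hQL, hQ0⟩
    obtain ⟨x, hx, rfl⟩ := h2
    rw [(hloc x hx).1] at h1 ⊢
    exact ⟨hrp x h1, rfl, h1⟩
  have hpc : ContinuousAt p x0 := hpx.continuousAt
  have hpU3 : p ⁻¹' U3 ∈ 𝓝 x0 := hpc (by rw [hpx0]; exact hU3o.mem_nhds hPU3)
  obtain ⟨δ1, hδ1, hb1⟩ := Metric.mem_nhds_iff.1 hpU3
  refine ⟨p, fun Q => e.symm (π Q), x0, min δ0 δ1,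
    U3 ∩ (fun Q => e.symm (π Q)) ⁻¹' Metric.ball x0 (min δ0 δ1), lt_min hδ0 hδ1, ?_, ?_, ?_, ?_,
    hpx0, ?_, ?_⟩
  · exact (hrU1.continuousOn.mono (fun Q hQ => hQ.1.2)).isOpen_inter_preimage hU3o
      Metric.isOpen_ball
  · refine ⟨hPU3, ?_⟩
    have : e.symm (π P) = x0 := by
      rw [← hpx0]
      exact hrp x0 (Metric.mem_ball_self hδ0)
    simp only [Set.mem_preimage, this]
    exact Metric.mem_ball_self (lt_min hδ0 hδ1)
  · exact hp.mono fun x hx => (hball (Metric.ball_subset_ball (min_le_left _ _) hx)).1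
  · exact hrU1.mono fun Q hQ => hQ.1.1.2
  · intro x hx
    have hx0' : x ∈ Metric.ball x0 δ0 := Metric.ball_subset_ball (min_le_left _ _) hx
    have hx1' : x ∈ Metric.ball x0 δ1 := Metric.ball_subset_ball (min_le_right _ _) hx
    have hxV : x ∈ V := (hball hx0').1
    have h1 : p x ∈ L ∩ U0 := by rw [← himg]; exact ⟨x, hxV, rfl⟩
    have h2 := hrp x hx0'
    refine ⟨⟨h1.1, hb1 hx1', ?_⟩, h2, (hloc x hxV).2.1, (hloc x hxV).2.2⟩
    rw [Set.mem_preimage, h2]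
    exact hx
  · rintro Q ⟨hQL, hQ3, hQb⟩
    obtain ⟨h1, h2, -⟩ := hinv Q ⟨hQL, hQ3⟩
    refine ⟨hQb, ?_⟩
    show p (e.symm (π Q)) = Q
    rw [h1, h2]

end Pool.Agent.H66.SyL
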