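import Pool.Agent.H66.SyL.Defs

/-! The horizontal lift (Poincare lemma). -/

set_option autoImplicit false

open scoped ContDiff Topology

namespace Pool.Agent.H66.SyL

variable {n : ℕ}

private noncomputable def ipB (n : ℕ) : E n →L[ℝ] E n →L[ℝ] ℂ :=
  (isBoundedBilinearMap_inner (𝕜 := ℂ) (E := E n)).toContinuousLinearMap

private theorem ipB_apply (a b : E n) : ipB n a b = inner ℂ a b := rfl

private noncomputable def form (σ : R n → E n) (x : R n) : R n →L[ℝ] ℝ :=
  Complex.imCLM ∘L ((ipB n (σ x)) ∘L (fderiv ℝ σ x))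

private theorem form_apply (σ : R n → E n) (x u : R n) :
    form σ x u = (inner ℂ (σ x) (fderiv ℝ σ x u)).im := rfl

private theorem two_le_inf' : (2 : WithTop ℕ∞) ≤ ∞ :=
  WithTop.coe_le_coe.2 (le_top : (2 : ℕ∞) ≤ ⊤)

private theorem two_le_inf : (1 : WithTop ℕ∞) + 1 ≤ ∞ := by
  rw [one_add_one_eq_two]
  exact two_le_inf'

private theorem form_contDiffOn {σ : R n → E n} {s : Set (R n)} (hs : IsOpen s)
    (hσ : ContDiffOn ℝ ∞ σ s) : ContDiffOn ℝ 1 (form σ) s := by
  have h1 : ContDiffOn ℝ 1 σ s := hσ.of_le (by exact_mod_cast le_top)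
  have h2 : ContDiffOn ℝ 1 (fderiv ℝ σ) s :=
    hσ.fderiv_of_isOpen hs two_le_inf
  have h3 : ContDiffOn ℝ 1 (fun x => ipB n (σ x)) s := (ipB n).contDiff.comp_contDiffOn h1
  exact contDiffOn_const.clm_comp (h3.clm_comp h2)

private theorem form_hasFDerivAt {σ : R n → E n} {s : Set (R n)} (hs : IsOpen s)
    (hσ : ContDiffOn ℝ ∞ σ s) {x : R n} (hx : x ∈ s) (u v : R n) :
    fderiv ℝ (form σ) x v u = (inner ℂ (fderiv ℝ σ x v) (fderiv ℝ σ x u)).im +
      (inner ℂ (σ x) (fderiv ℝ (fderiv ℝ σ) x v u)).im := by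
  have hx' := hs.mem_nhds hx
  have h1 : DifferentiableAt ℝ σ x :=
    (hσ.differentiableOn (by simp)).differentiableAt hx'
  have h2 : DifferentiableAt ℝ (fderiv ℝ σ) x :=
    ((hσ.fderiv_of_isOpen (m := 1) hs two_le_inf).differentiableOn (by simp)).differentiableAt hx'
  have h3 : HasFDerivAt (fun x => ipB n (σ x)) ((ipB n) ∘L (fderiv ℝ σ x)) x :=
    (ipB n).hasFDerivAt.comp x h1.hasFDerivAt
  have h4 := h3.clm_comp h2.hasFDerivAt
  have h5 := (hasFDerivAt_const (Complex.imCLM) x).clm_comp h4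
  have h6 : fderiv ℝ (form σ) x = _ := h5.fderiv
  rw [h6]
  simp [ipB_apply]
  ring

private theorem inner_re_zero {σ : R n → E n} {s : Set (R n)} (hs : IsOpen s)
    (hσ : ContDiffOn ℝ ∞ σ s) (hn : ∀ x ∈ s, ‖σ x‖ = 1) {x : R n} (hx : x ∈ s) (u : R n) :
    (inner ℂ (σ x) (fderiv ℝ σ x u)).re = 0 := by
  have hx' := hs.mem_nhds hx
  have h1 : HasFDerivAt σ (fderiv ℝ σ x) x :=
    ((hσ.differentiableOn (by simp)).differentiableAt hx').hasFDerivAt
  have h3 : HasFDerivAt (fun y => ipB n (σ y)) ((ipB n) ∘L (fderiv ℝ σ x)) x :=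
    (ipB n).hasFDerivAt.comp x h1
  have h4 : HasFDerivAt (fun y => ipB n (σ y) (σ y)) _ x := h3.clm_apply h1
  have h5 : (fun y => ipB n (σ y) (σ y)) =ᶠ[𝓝 x] fun _ => (1 : ℂ) := by
    filter_upwards [hx'] with y hy
    rw [ipB_apply, inner_self_eq_norm_sq_to_K, hn y hy]; simp
  have h6 := (h4.congr_of_eventuallyEq h5.symm).unique (hasFDerivAt_const (1 : ℂ) x)
  have h7 := congrArg (fun L => (L u).re) h6
  simp only [add_apply, ContinuousLinearMap.flip_apply,
    ContinuousLinearMap.comp_apply, ipB_apply, zero_apply, Complex.add_re,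
    Complex.zero_re] at h7
  have h8 : (inner ℂ (fderiv ℝ σ x u) (σ x)).re = (inner ℂ (σ x) (fderiv ℝ σ x u)).re := by
    rw [← inner_conj_symm, Complex.conj_re]
  linarith

/-- If Im (D sigma u, D sigma v) = 0, the form a = Im (sigma, D sigma) is closed; with a primitive f
(Poincare lemma, `Convex.exists_forall_hasFDerivAt_of_fderiv_symmetric`) z = exp(-i f) sigma is horizontal. -/
theorem exists_leg {σ : R n → E n} {x0 : R n} {δ : ℝ}
    (hσ : ContDiffOn ℝ ∞ σ (Metric.ball x0 δ)) (hn : ∀ x ∈ Metric.ball x0 δ, ‖σ x‖ = 1)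
    (hlag : ∀ x ∈ Metric.ball x0 δ, ∀ u v,
      (inner ℂ (fderiv ℝ σ x u) (fderiv ℝ σ x v)).im = 0) :
    ∃ f : R n → ℝ, ContDiffOn ℝ 1 f (Metric.ball x0 δ) ∧
      ∀ x ∈ Metric.ball x0 δ, ∀ u, inner ℂ (σ x)
        (fderiv ℝ (fun y => Complex.exp (-(f y : ℂ) * Complex.I) • σ y) x u) = 0 := by
  have hs : IsOpen (Metric.ball x0 δ) := Metric.isOpen_ball
  have hform := form_contDiffOn hs hσ
  obtain ⟨f, hf⟩ := (convex_ball x0 δ).exists_forall_hasFDerivAt_of_fderiv_symmetric hs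
    (hform.differentiableOn (by simp)) (by
      intro a ha x y
      rw [form_hasFDerivAt hs hσ ha, form_hasFDerivAt hs hσ ha, hlag a ha, hlag a ha]
      have hsym : IsSymmSndFDerivAt ℝ σ a :=
        (hσ.contDiffAt (hs.mem_nhds ha)).isSymmSndFDerivAt (by
          simpa using two_le_inf')
      rw [hsym x y])
  refine ⟨f, ?_, ?_⟩
  · rw [← zero_add (1 : WithTop ℕ∞), contDiffOn_succ_iff_fderiv_of_isOpen hs]
    refine ⟨fun x hx => (hf x hx).differentiableAt.differentiableWithinAt, by simp, ?_⟩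
    rw [contDiffOn_zero]
    exact hform.continuousOn.congr (fun x hx => (hf x hx).fderiv)
  · intro x hx u
    have hx' := hs.mem_nhds hx
    have h1 : HasFDerivAt σ (fderiv ℝ σ x) x :=
      ((hσ.differentiableOn (by simp)).differentiableAt hx').hasFDerivAt
    have h2 := hf x hx
    have h3 : HasFDerivAt (fun y => (f y : ℂ)) (Complex.ofRealCLM ∘L (form σ x)) x :=
      Complex.ofRealCLM.hasFDerivAt.comp x h2
    have h4 : HasFDerivAt (fun y => Complex.exp (-(f y : ℂ) * Complex.I)) _ x :=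
      (h3.neg.mul_const Complex.I).cexp
    have h5 : HasFDerivAt (fun y => Complex.exp (-(f y : ℂ) * Complex.I) • σ y) _ x :=
      h4.smul h1
    rw [h5.fderiv]
    have hre : (inner ℂ (σ x) (fderiv ℝ σ x u)).re = 0 := inner_re_zero hs hσ hn hx u
    have hss : inner ℂ (σ x) (σ x) = (1 : ℂ) := by
      rw [inner_self_eq_norm_sq_to_K, hn x hx]; simp
    have hval : inner ℂ (σ x) (fderiv ℝ σ x u) = ((form σ x u : ℝ) : ℂ) * Complex.I := by
      apply Complex.ext <;> simp [hre, form_apply]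
    have hneg : (-fun y => (f y : ℂ)) x = -(f x : ℂ) := rfl
    simp only [add_apply, smul_apply, ContinuousLinearMap.smulRight_apply, neg_apply,
      ContinuousLinearMap.comp_apply, inner_add_right, inner_smul_right, hss, hval,
      Complex.ofRealCLM_apply, smul_eq_mul, hneg]
    ring

end Pool.Agent.H66.SyL
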