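import Pool.Agent.H66.SyL.LgA
import Pool.Agent.H66.SyL.LgB
import Pool.Agent.H66.SyL.Ch

/-! Charts with horizontal (Legendrian) lifts. -/

set_option autoImplicit false

open scoped ContDiff Topology

namespace Pool.Agent.H66.SyL

variable {n : ℕ}

/-- A chart of L with a horizontal lift z to the unit sphere. -/
structure LChart (L : Set (Op n)) where
  p : R n → Op n
  z : R n → E n
  r : Op n → R n
  x0 : R n
  δ : ℝ
  U : Set (Op n)
  δ_pos : 0 < δ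
  openU : IsOpen U
  p_mem : ∀ x ∈ Metric.ball x0 δ, p x ∈ L ∩ U
  r_p : ∀ x ∈ Metric.ball x0 δ, r (p x) = x
  r_mem : ∀ Q ∈ L ∩ U, r Q ∈ Metric.ball x0 δ
  p_r : ∀ Q ∈ L ∩ U, p (r Q) = Q
  smooth_p : ContDiffOn ℝ 1 p (Metric.ball x0 δ)
  smooth_z : ContDiffOn ℝ 1 z (Metric.ball x0 δ)
  smooth_r : ContDiffOn ℝ 1 r U
  norm_z : ∀ x ∈ Metric.ball x0 δ, ‖z x‖ = 1
  pt_z : ∀ x ∈ Metric.ball x0 δ, pt (z x) = p x
  leg : ∀ x ∈ Metric.ball x0 δ, ∀ u, inner ℂ (z x) (fderiv ℝ z x u) = 0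
  lag : ∀ x ∈ Metric.ball x0 δ, ∀ u v, (inner ℂ (fderiv ℝ z x u) (fderiv ℝ z x v)).im = 0
  imm : ∀ x ∈ Metric.ball x0 δ, Function.Injective (fderiv ℝ z x)

/-- Proof: exists_chart, then exists_lift on a smaller ball, exists_leg for this sigma (its hypothesis by
lift_deriv and the chart), z = exp(-i f) sigma, lift_deriv for z (pt_smul) gives lag and imm; shrink U to
U cap r^(-1)(ball x0 delta'). -/
theorem exists_lchart {L : Set (Op n)} (hL : IsLagrangian L) {P : Op n} (hP : P ∈ L) :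
    ∃ C : LChart L, P ∈ C.U := by
  obtain ⟨p, r, x0, δ, U, hδ, hU, hPU, hp, hr, hpx0, hx, hQ⟩ := exists_chart hL hP
  have hpt : ∀ x ∈ Metric.ball x0 δ, ∃ y : E n, ‖y‖ = 1 ∧ pt y = p x := fun x hxb =>
    (hL (p x) (hx x hxb).1.1).1
  obtain ⟨δ', σ, hδ', hle, hσ, hσn⟩ := exists_lift hδ hp hpt
  have hsub : Metric.ball x0 δ' ⊆ Metric.ball x0 δ := Metric.ball_subset_ball hle
  have hinf : (1 : WithTop ℕ∞) ≤ ∞ := by exact_mod_cast le_top
  have hp1 : ContDiffOn ℝ 1 p (Metric.ball x0 δ') := (hp.of_le hinf).mono hsub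
  have hσ1 : ContDiffOn ℝ 1 σ (Metric.ball x0 δ') := hσ.of_le hinf
  have hlagp : ∀ x ∈ Metric.ball x0 δ', ∀ (u v : R n) (y : E n), ‖y‖ = 1 → pt y = p x →
      (inner ℂ (fderiv ℝ p x u y) (fderiv ℝ p x v y)).im = 0 := by
    intro x hxb u v y hy hpy
    refine (hx x (hsub hxb)).2.2.2 u v y ?_
    rw [← hpy]
    exact pt_self hy
  obtain ⟨f, hf, hleg⟩ := exists_leg hσ (fun x hxb => (hσn x hxb).1) (by
    intro x hxb u v
    rw [(lift_deriv hp1 hσ1 hσn hxb).2.2.2.1 u v]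
    exact hlagp x hxb u v (σ x) (hσn x hxb).1 (hσn x hxb).2)
  have hnorm : ∀ t : ℝ, ‖Complex.exp (-(t : ℂ) * Complex.I)‖ = 1 := by
    intro t
    have h := Complex.norm_exp_ofReal_mul_I (-t)
    rwa [Complex.ofReal_neg] at h
  have hz1 : ContDiffOn ℝ 1 (fun y => Complex.exp (-(f y : ℂ) * Complex.I) • σ y)
      (Metric.ball x0 δ') := by
    have h1 : ContDiffOn ℝ 1 (fun y => (f y : ℂ)) (Metric.ball x0 δ') :=
      Complex.ofRealCLM.contDiff.comp_contDiffOn hf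
    exact ((h1.neg.mul contDiffOn_const).cexp).smul hσ1
  have hzn : ∀ x ∈ Metric.ball x0 δ', ‖Complex.exp (-(f x : ℂ) * Complex.I) • σ x‖ = 1 ∧
      pt (Complex.exp (-(f x : ℂ) * Complex.I) • σ x) = p x := by
    intro x hxb
    refine ⟨?_, ?_⟩
    · rw [norm_smul, hnorm, (hσn x hxb).1, one_mul]
    · rw [pt_smul (hnorm _), (hσn x hxb).2]
  have hlegz : ∀ x ∈ Metric.ball x0 δ', ∀ u,
      inner ℂ (Complex.exp (-(f x : ℂ) * Complex.I) • σ x)
        (fderiv ℝ (fun y => Complex.exp (-(f y : ℂ) * Complex.I) • σ y) x u) = 0 := by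
    intro x hxb u
    rw [inner_smul_left, hleg x hxb u, mul_zero]
  refine ⟨{
    p := p
    z := fun y => Complex.exp (-(f y : ℂ) * Complex.I) • σ y
    r := r
    x0 := x0
    δ := δ'
    U := U ∩ r ⁻¹' Metric.ball x0 δ'
    δ_pos := hδ'
    openU := hr.continuousOn.isOpen_inter_preimage hU Metric.isOpen_ball
    p_mem := ?_
    r_p := fun x hxb => (hx x (hsub hxb)).2.1
    r_mem := fun Q hQ' => hQ'.2.2
    p_r := fun Q hQ' => (hQ Q ⟨hQ'.1, hQ'.2.1⟩).2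
    smooth_p := hp1
    smooth_z := hz1
    smooth_r := hr.mono Set.inter_subset_left
    norm_z := fun x hxb => (hzn x hxb).1
    pt_z := fun x hxb => (hzn x hxb).2
    leg := hlegz
    lag := ?_
    imm := ?_ }, ?_⟩
  · intro x hxb
    refine ⟨(hx x (hsub hxb)).1.1, (hx x (hsub hxb)).1.2, ?_⟩
    show r (p x) ∈ Metric.ball x0 δ'
    rw [(hx x (hsub hxb)).2.1]
    exact hxb
  · intro x hxb u v
    rw [(lift_deriv hp1 hz1 hzn hxb).2.2.2.1 u v]
    exact hlagp x hxb u v _ (hzn x hxb).1 (hzn x hxb).2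
  · intro x hxb
    have hl := lift_deriv hp1 hz1 hzn hxb
    rw [injective_iff_map_eq_zero]
    intro w hw
    have h1 := hl.2.2.1 w
    rw [hw, inner_zero_right, zero_smul, add_zero] at h1
    have h2 := hl.2.2.2.2 w h1.symm
    exact (hx x (hsub hxb)).2.2.1 (by rw [h2, map_zero])
  · refine ⟨hPU, ?_⟩
    show r P ∈ Metric.ball x0 δ'
    rw [← hpx0, (hx x0 (Metric.mem_ball_self hδ)).2.1]
    exact Metric.mem_ball_self hδ'

end Pool.Agent.H66.SyL
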