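import Pool.Agent.H66.SyL.Tori

/-! Assembly. -/

set_option autoImplicit false

open scoped ContDiff Topology

namespace Pool.Agent.H66.SyL

private theorem five_fin (i j k l m : Fin (3 + 1)) (a1 : i ≠ j) (a2 : k ≠ l) (h1 : i ≠ k) (h2 : i ≠ l)
    (h3 : j ≠ k) (h4 : j ≠ l) (h5 : m ≠ i) (h6 : m ≠ j) (h7 : m ≠ k) (h8 : m ≠ l) : False := by
  simp only [ne_eq, Fin.ext_iff] at *
  have := i.isLt; have := j.isLt; have := k.isLt; have := l.isLt; have := m.isLt
  omega

theorem no_fix {L : Set (Op 3)} (b : OrthonormalBasis (Fin (3 + 1)) ℂ (E 3))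
    (hL : IsLagrangian L) (hc : IsCompact L) (hconn : IsConnected L) (h1 : H1Zero L)
    {w : Fin (3 + 1) → ℝ} (hs : Sym b L w)
    (ha : ∃ i j, i ≠ j ∧ mean w < w i ∧ mean w < w j)
    (hb : ∃ i j, i ≠ j ∧ w i < mean w ∧ w j < mean w) :
    ∀ P ∈ L, ∃ t : ℝ, act b (t • w) P ≠ P := by
  intro P hP
  by_contra hcon
  push Not at hcon
  obtain ⟨z, hz, rfl⟩ := (hL P hP).1
  have h := (fixed_iff b (w := w) hz).1 hcon
  have hm := mom_mean b hL hc hconn h1 hs hz hP
  rw [hm] at h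
  -- all four eigenvalues differ from the mean
  have hall : ∀ k, w k ≠ mean w := by
    obtain ⟨i, j, hij, hi, hj⟩ := ha
    obtain ⟨k, l, hkl, hk, hl⟩ := hb
    intro m hm'
    have h1 : i ≠ k := by rintro rfl; linarith
    have h2 : i ≠ l := by rintro rfl; linarith
    have h3 : j ≠ k := by rintro rfl; linarith
    have h4 : j ≠ l := by rintro rfl; linarith
    have h5 : m ≠ i := by rintro rfl; linarith
    have h6 : m ≠ j := by rintro rfl; linarith
    have h7 : m ≠ k := by rintro rfl; linarith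
    have h8 : m ≠ l := by rintro rfl; linarith
    exact five_fin i j k l m hij hkl h1 h2 h3 h4 h5 h6 h7 h8
  have hz0 : ∀ k, ‖inner ℂ (b k) z‖ = 0 := fun k =>
    (mul_eq_zero.1 (h k)).resolve_left (sub_ne_zero.2 (hall k))
  have : z = 0 := by
    have := b.sum_repr' z
    rw [← this]
    refine Finset.sum_eq_zero fun k _ => ?_
    rw [norm_eq_zero.1 (hz0 k), zero_smul]
  rw [this, norm_zero] at hz
  exact zero_ne_one hz

private theorem sum_ite2 {n : ℕ} {i j : Fin (n + 1)} (hij : i ≠ j) (g : Fin (n + 1) → ℝ) :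
    ∑ k, (if k = i then (1 : ℝ) else if k = j then -1 else 0) * g k = g i - g j := by
  have : ∀ k, (if k = i then (1 : ℝ) else if k = j then -1 else 0) * g k =
      (if k = i then g k else 0) - (if k = j then g k else 0) := by
    intro k
    by_cases h : k = i
    · subst h; simp [hij]
    · by_cases h' : k = j
      · subst h'; simp [h]
      · simp [h, h']
  simp only [this, Finset.sum_sub_distrib, Finset.sum_ite_eq', Finset.mem_univ, if_true]

theorem pair_norm {L : Set (Op 3)} (b : OrthonormalBasis (Fin (3 + 1)) ℂ (E 3))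
    (hL : IsLagrangian L) (hc : IsCompact L) (hconn : IsConnected L) (h1 : H1Zero L)
    {i j : Fin (3 + 1)} (hij : i ≠ j)
    (hs : Sym b L (fun k => if k = i then 1 else if k = j then -1 else 0))
    {z : E 3} (hz : ‖z‖ = 1) (hzL : pt z ∈ L) :
    ‖inner ℂ (b i) z‖ = ‖inner ℂ (b j) z‖ := by
  have h := mom_mean b hL hc hconn h1 hs hz hzL
  have hmean : mean (n := 3) (fun k => if k = i then 1 else if k = j then -1 else 0) = 0 := by
    unfold mean
    have := sum_ite2 hij (fun _ => (1 : ℝ))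
    simp only [mul_one, sub_self] at this
    rw [this, zero_div]
  rw [hmean, sum_ite2 hij (fun k => ‖inner ℂ (b k) z‖ ^ 2), sub_eq_zero] at h
  exact (pow_left_inj₀ (norm_nonneg _) (norm_nonneg _) two_ne_zero).1 h

theorem main (L : Set (Op 3)) (hL : IsLagrangian L) (hc : IsCompact L) (hconn : IsConnected L)
    (h1 : H1Zero L) (b : OrthonormalBasis (Fin 4) ℂ (E 3)) :
    (∀ w, Sym b L w →
      (∀ z : E 3, ‖z‖ = 1 → pt z ∈ L → ∑ k, w k * ‖inner ℂ (b k) z‖ ^ 2 = mean (n := 3) w) ∧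
      (∀ (f : E 3 → ℂ) (d : ℤ) (e : ℝ), Continuous f →
        (∀ (c : ℂ) (z : E 3), ‖c‖ = 1 → f (c • z) = c ^ d * f z) →
        (∀ (t : ℝ) (z : E 3),
          f (rot b (t • w) z) = Complex.exp ((e * t : ℝ) * Complex.I) * f z) →
        e ≠ d * mean (n := 3) w → ∃ z : E 3, ‖z‖ = 1 ∧ pt z ∈ L ∧ f z = 0) ∧
      ((∀ k, w k = mean (n := 3) w) ∨
        (∃ i j, i ≠ j ∧ mean (n := 3) w < w i ∧
          mean (n := 3) w - w j = w i - mean (n := 3) w ∧
          (∀ k, k ≠ i → k ≠ j → w k = mean (n := 3) w) ∧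
          ∃ P ∈ L, ∀ t : ℝ, act b (t • w) P = P) ∨
        ((∃ i j, i ≠ j ∧ mean (n := 3) w < w i ∧ mean (n := 3) w < w j) ∧
          (∃ i j, i ≠ j ∧ w i < mean (n := 3) w ∧ w j < mean (n := 3) w) ∧
          ∀ P ∈ L, ∃ t : ℝ, act b (t • w) P ≠ P))) ∧
    ((∃ w0, ∀ w, Sym b L w → ∃ s t : ℝ, w = s • (fun _ => (1 : ℝ)) + t • w0) ∨
      ∃ i j k l : Fin 4, [i, j, k, l].Nodup ∧
        (∀ w : Fin 4 → ℝ, Sym b L w ↔ w i + w j = w k + w l) ∧
        ∀ z : E 3, ‖z‖ = 1 → pt z ∈ L →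
          ‖inner ℂ (b i) z‖ = ‖inner ℂ (b j) z‖ ∧ ‖inner ℂ (b k) z‖ = ‖inner ℂ (b l) z‖) := by
  have hdich : ∀ w, Sym b L w → (∀ k, w k = mean (n := 3) w) ∨
        (∃ i j, i ≠ j ∧ mean (n := 3) w < w i ∧
          mean (n := 3) w - w j = w i - mean (n := 3) w ∧
          (∀ k, k ≠ i → k ≠ j → w k = mean (n := 3) w) ∧
          ∃ P ∈ L, ∀ t : ℝ, act b (t • w) P = P) ∨
        ((∃ i j, i ≠ j ∧ mean (n := 3) w < w i ∧ mean (n := 3) w < w j) ∧
          ∃ i j, i ≠ j ∧ w i < mean (n := 3) w ∧ w j < mean (n := 3) w) := fun w hw =>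
    dichotomy b hL hc hconn h1 hw
  refine ⟨fun w hw => ⟨fun z hz hzL => mom_mean b hL hc hconn h1 hw hz hzL,
    fun f d e hf hhom heq hne => semi_zero b hL hc hconn h1 hw f hf d e hhom heq hne, ?_⟩, ?_⟩
  · rcases hdich w hw with h | h | h
    · exact Or.inl h
    · exact Or.inr (Or.inl h)
    · exact Or.inr (Or.inr ⟨h.1, h.2, no_fix b hL hc hconn h1 hw h.1 h.2⟩)
  · rcases tori_algebra {w | Sym b L w} (fun w hw w' hw' s t => sym_add b hw hw' s t)
      (fun c => sym_const b c) (fun w hw => by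
        rcases hdich w hw with h | ⟨i, j, h1, h2, h3, h4, _⟩ | h
        · exact Or.inl h
        · exact Or.inr (Or.inl ⟨i, j, h1, h2, h3, h4⟩)
        · exact Or.inr (Or.inr h)) with h | ⟨i, j, k, l, hnd, hS⟩
    · exact Or.inl h
    · refine Or.inr ⟨i, j, k, l, hnd, hS, fun z hz hzL => ?_⟩
      simp only [List.nodup_cons, List.mem_cons, List.not_mem_nil, or_false, not_or,
        not_false_eq_true, List.nodup_nil, and_true] at hnd
      obtain ⟨⟨hij, hik, hil⟩, ⟨hjk, hjl⟩, hkl⟩ := hnd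
      constructor
      · refine pair_norm b hL hc hconn h1 hij ?_ hz hzL
        refine (hS _).2 ?_
        simp [Ne.symm hij, Ne.symm hik, Ne.symm hil, Ne.symm hjk, Ne.symm hjl]
      · refine pair_norm b hL hc hconn h1 hkl ?_ hz hzL
        refine (hS _).2 ?_
        simp [Ne.symm hkl, hik, hil, hjk, hjl]

end Pool.Agent.H66.SyL
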