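import Pool.Agent.H66.SyL.Comp

/-! The determinant phase is nonzero and continuous. -/

set_option autoImplicit false

open scoped ContDiff Topology

namespace Pool.Agent.H66.SyL

variable {n : ℕ} {L : Set (Op n)}

private theorem inner_I_smul_self_im {n : ℕ} (u v : E n) (h : u + Complex.I • v = 0)
    (him : (inner ℂ u v).im = 0) : v = 0 := by
  have hu : u = -(Complex.I • v) := by
    exact eq_neg_of_add_eq_zero_left h
  rw [hu, inner_neg_left, inner_smul_left] at him
  have h2 : (inner ℂ v v : ℂ) = ((‖v‖ ^ 2 : ℝ) : ℂ) := by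
    rw [inner_self_eq_norm_sq_to_K]; push_cast; rfl
  rw [h2] at him
  have h3 : ‖v‖ ^ 2 = 0 := by
    have e : -((starRingEnd ℂ) Complex.I * ((‖v‖ ^ 2 : ℝ) : ℂ)) =
        ((‖v‖ ^ 2 : ℝ) : ℂ) * Complex.I := by
      rw [Complex.conj_I]; ring
    rw [e] at him
    simpa only [Complex.mul_im, Complex.ofReal_re, Complex.I_im, Complex.ofReal_im, Complex.I_re,
      mul_one, zero_mul, mul_zero, add_zero] using him
  have h4 : ‖v‖ = 0 := by
    exact pow_eq_zero_iff (two_ne_zero) |>.1 h3
  exact norm_eq_zero.1 h4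

/-- z, D_1 z, .., D_n z are linearly independent over C. Proof: if c0 z + sum c_j D_j z = 0 then
c0 = 0 (horizontality); with c_j = a_j + i b_j, u = D_a z, v = D_b z: u + i v = 0, and
0 = Im (u, v) = Im (-i v, v) = |v|^2, so v = u = 0 and a = b = 0 by injectivity. -/
theorem LChart.linInd (C : LChart L) {x : R n} (hx : x ∈ Metric.ball C.x0 C.δ) :
    LinearIndependent ℂ (Fin.cons (C.z x) fun k : Fin n =>
      fderiv ℝ C.z x (EuclideanSpace.single k 1) : Fin (n + 1) → E n) := by
  rw [Fintype.linearIndependent_iff]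
  intro g hg
  rw [Fin.sum_univ_succ] at hg
  simp only [Fin.cons_zero, Fin.cons_succ] at hg
  -- the coefficient of z
  have h0 : g 0 = 0 := by
    have h1 := congrArg (fun y => inner ℂ (C.z x) y) hg
    simp only [inner_add_right, inner_smul_right, inner_sum, inner_zero_right] at h1
    have h2 : (inner ℂ (C.z x) (C.z x) : ℂ) = 1 := by
      rw [inner_self_eq_norm_sq_to_K, C.norm_z x hx]; norm_num
    have h3 : ∑ k : Fin n, g k.succ * inner ℂ (C.z x)
        (fderiv ℝ C.z x (EuclideanSpace.single k (1 : ℝ))) = 0 := by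
      apply Finset.sum_eq_zero
      intro k _
      rw [C.leg x hx, mul_zero]
    rw [h2, h3] at h1
    simpa using h1
  rw [h0, zero_smul, zero_add] at hg
  -- real and imaginary parts
  set a : R n := ∑ k : Fin n, (g k.succ).re • EuclideanSpace.single k (1 : ℝ) with ha
  set b : R n := ∑ k : Fin n, (g k.succ).im • EuclideanSpace.single k (1 : ℝ) with hb
  have hua : fderiv ℝ C.z x a = ∑ k : Fin n, (g k.succ).re •
      fderiv ℝ C.z x (EuclideanSpace.single k (1 : ℝ)) := by
    rw [ha, map_sum]
    exact Finset.sum_congr rfl fun k _ => by rw [map_smul]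
  have hvb : fderiv ℝ C.z x b = ∑ k : Fin n, (g k.succ).im •
      fderiv ℝ C.z x (EuclideanSpace.single k (1 : ℝ)) := by
    rw [hb, map_sum]
    exact Finset.sum_congr rfl fun k _ => by rw [map_smul]
  have hsum : fderiv ℝ C.z x a + Complex.I • fderiv ℝ C.z x b = 0 := by
    rw [hua, hvb, Finset.smul_sum, ← Finset.sum_add_distrib, ← hg]
    refine Finset.sum_congr rfl fun k _ => ?_
    have e : (g k.succ) = ((g k.succ).re : ℂ) + Complex.I * ((g k.succ).im : ℂ) := by
      rw [mul_comm]; exact (Complex.re_add_im _).symm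
    conv_rhs => rw [e]
    rw [add_smul, mul_smul]
    rfl
  have hv : fderiv ℝ C.z x b = 0 := inner_I_smul_self_im _ _ hsum (C.lag x hx a b)
  have hu : fderiv ℝ C.z x a = 0 := by rw [hv, smul_zero, add_zero] at hsum; exact hsum
  have ha0 : a = 0 := C.imm x hx (by rw [hu, map_zero])
  have hb0 : b = 0 := C.imm x hx (by rw [hv, map_zero])
  have hcoord : ∀ (c : Fin n → ℝ) (k : Fin n),
      (∑ j : Fin n, c j • EuclideanSpace.single j (1 : ℝ) : R n) k = c k := by
    intro c k
    simp [Finset.sum_apply, Pi.single_apply]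
  intro i
  refine Fin.cases h0 (fun k => ?_) i
  apply Complex.ext
  · have := hcoord (fun k => (g k.succ).re) k
    rw [← ha, ha0] at this
    simpa using this.symm
  · have := hcoord (fun k => (g k.succ).im) k
    rw [← hb, hb0] at this
    simpa using this.symm

theorem LChart.D_ne_zero (C : LChart L) {Q : Op n} (hQ : Q ∈ L ∩ C.U) : C.D Q ≠ 0 := by
  have hx := C.r_mem Q hQ
  have hli := C.linInd hx
  have hli2 : LinearIndependent ℂ ((WithLp.linearEquiv 2 ℂ (Fin (n + 1) → ℂ)) ∘
      (Fin.cons (C.z (C.r Q)) fun k : Fin n =>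
        fderiv ℝ C.z (C.r Q) (EuclideanSpace.single k 1) : Fin (n + 1) → E n)) :=
    hli.map' (WithLp.linearEquiv 2 ℂ (Fin (n + 1) → ℂ)).toLinearMap
      (LinearEquiv.ker _)
  have hcol : LinearIndependent ℂ (fun j => (C.M (C.r Q)).transpose j) := by
    have e : (fun j => (C.M (C.r Q)).transpose j) = ((WithLp.linearEquiv 2 ℂ (Fin (n + 1) → ℂ)) ∘
      (Fin.cons (C.z (C.r Q)) fun k : Fin n =>
        fderiv ℝ C.z (C.r Q) (EuclideanSpace.single k 1) : Fin (n + 1) → E n)) := by
      funext j i
      refine Fin.cases ?_ (fun k => ?_) j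
      · rfl
      · rfl
    rw [e]; exact hli2
  have hunit : IsUnit (C.M (C.r Q)).transpose :=
    Matrix.linearIndependent_rows_iff_isUnit.1 hcol
  have hdet := (Matrix.isUnit_iff_isUnit_det _).1 hunit
  rw [Matrix.det_transpose] at hdet
  exact hdet.ne_zero

theorem LChart.continuousAt_D (C : LChart L) {Q : Op n} (hQ : Q ∈ L ∩ C.U) :
    ContinuousAt C.D Q := by
  have hx := C.r_mem Q hQ
  have hr : ContinuousAt C.r Q :=
    C.smooth_r.continuousOn.continuousAt (C.openU.mem_nhds hQ.2)
  have hnh : Metric.ball C.x0 C.δ ∈ 𝓝 (C.r Q) := Metric.isOpen_ball.mem_nhds hx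
  have hz : ContinuousAt C.z (C.r Q) := C.smooth_z.continuousOn.continuousAt hnh
  have hd : ContinuousAt (fderiv ℝ C.z) (C.r Q) :=
    (C.smooth_z.continuousOn_fderiv_of_isOpen Metric.isOpen_ball le_rfl).continuousAt hnh
  have hM : ContinuousAt C.M (C.r Q) := by
    refine continuousAt_pi.2 fun i => continuousAt_pi.2 fun j => ?_
    refine Fin.cases ?_ (fun k => ?_) j
    · have h1 : Continuous fun y : E n => y i := by fun_prop
      exact h1.continuousAt.comp hz
    · have h1 : Continuous fun A : R n →L[ℝ] E n => (A (EuclideanSpace.single k (1 : ℝ))) i := by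
        have h2 : Continuous fun y : E n => y i := by fun_prop
        exact h2.comp (ContinuousLinearMap.apply ℝ (E n) (EuclideanSpace.single k (1 : ℝ))).continuous
      exact h1.continuousAt.comp hd
  have hdet : Continuous fun A : Matrix (Fin (n + 1)) (Fin (n + 1)) ℂ => A.det :=
    continuous_id.matrix_det
  have := hdet.continuousAt.comp (hM.comp hr)
  exact this

end Pool.Agent.H66.SyL
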