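import Pool.Agent.H66.SyL.Lg

/-! Two charts with horizontal lifts: the lifts differ by a locally constant phase. -/

set_option autoImplicit false

open scoped ContDiff Topology

namespace Pool.Agent.H66.SyL

variable {n : ℕ} {L : Set (Op n)}

/-- the horizontal lift as a function of the point of L -/
noncomputable def LChart.Z (C : LChart L) (Q : Op n) : E n := C.z (C.r Q)

/-- the matrix with columns z, D_1 z, ..., D_n z -/
noncomputable def LChart.M (C : LChart L) (x : R n) : Matrix (Fin (n + 1)) (Fin (n + 1)) ℂ :=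
  fun i j => Fin.cases (C.z x i) (fun k => fderiv ℝ C.z x (EuclideanSpace.single k 1) i) j

/-- the determinant phase -/
noncomputable def LChart.D (C : LChart L) (Q : Op n) : ℂ := (C.M (C.r Q)).det

theorem LChart.Z_props (C : LChart L) {Q : Op n} (hQ : Q ∈ L ∩ C.U) :
    ‖C.Z Q‖ = 1 ∧ pt (C.Z Q) = Q := by
  have h1 := C.r_mem Q hQ
  refine ⟨C.norm_z _ h1, ?_⟩
  have h2 := C.pt_z _ h1
  rw [C.p_r Q hQ] at h2
  exact h2

theorem LChart.continuousAt_Z (C : LChart L) {Q : Op n} (hQ : Q ∈ L ∩ C.U) :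
    ContinuousAt C.Z Q := by
  have h1 : ContinuousAt C.r Q := C.smooth_r.continuousOn.continuousAt (C.openU.mem_nhds hQ.2)
  have h2 : ContinuousAt C.z (C.r Q) :=
    C.smooth_z.continuousOn.continuousAt (Metric.isOpen_ball.mem_nhds (C.r_mem Q hQ))
  exact ContinuousAt.comp (g := C.z) (f := C.r) h2 h1

/-- the transition tau = r' o p is C^1 near r Q, with p' (tau x) = p x -/
theorem trans_props (C C' : LChart L) {Q : Op n} (hQ : Q ∈ L ∩ C.U) (hQ' : Q ∈ L ∩ C'.U) :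
    ContDiffAt ℝ 1 (fun x => C'.r (C.p x)) (C.r Q) ∧
      ∀ᶠ x in 𝓝 (C.r Q), x ∈ Metric.ball C.x0 C.δ ∧ C'.r (C.p x) ∈ Metric.ball C'.x0 C'.δ ∧
        C'.p (C'.r (C.p x)) = C.p x ∧ ContDiffAt ℝ 1 (fun x => C'.r (C.p x)) x := by
  have hb := C.r_mem Q hQ
  have hcd : ∀ x ∈ Metric.ball C.x0 C.δ, C.p x ∈ C'.U →
      ContDiffAt ℝ 1 (fun x => C'.r (C.p x)) x := by
    intro x hx hxU
    have h1 : ContDiffAt ℝ 1 C.p x := C.smooth_p.contDiffAt (Metric.isOpen_ball.mem_nhds hx)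
    have h2 : ContDiffAt ℝ 1 C'.r (C.p x) := C'.smooth_r.contDiffAt (C'.openU.mem_nhds hxU)
    exact ContDiffAt.comp x h2 h1
  have hpc : ContinuousAt C.p (C.r Q) :=
    C.smooth_p.continuousOn.continuousAt (Metric.isOpen_ball.mem_nhds hb)
  have hpQ : C.p (C.r Q) = Q := C.p_r Q hQ
  have hU : ∀ᶠ x in 𝓝 (C.r Q), C.p x ∈ C'.U := by
    refine hpc.eventually (C'.openU.mem_nhds ?_)
    rw [hpQ]
    exact hQ'.2
  refine ⟨hcd _ hb (by rw [hpQ]; exact hQ'.2), ?_⟩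
  filter_upwards [hU, Metric.isOpen_ball.mem_nhds hb] with x hx1 hx2
  have h1 : C.p x ∈ L ∩ C'.U := ⟨(C.p_mem x hx2).1, hx1⟩
  exact ⟨hx2, C'.r_mem _ h1, C'.p_r _ h1, hcd x hx2 hx1⟩

/-- z' (tau x) = kappa z x near r Q. Proof: kappa(x) = (z x, z' (tau x)) has norm one and derivative 0
(horizontality of z and z'). -/
theorem comp_z (C C' : LChart L) {Q : Op n} (hQ : Q ∈ L ∩ C.U) (hQ' : Q ∈ L ∩ C'.U) :
    ∃ κ : ℂ, ‖κ‖ = 1 ∧ ∀ᶠ x in 𝓝 (C.r Q), C'.z (C'.r (C.p x)) = κ • C.z x := by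
  obtain ⟨-, hev⟩ := trans_props C C' hQ hQ'
  obtain ⟨ε, hε, hball⟩ := Metric.eventually_nhds_iff_ball.1 hev
  set τ : R n → R n := fun x => C'.r (C.p x) with hτ
  set k : R n → ℂ := fun x => inner ℂ (C.z x) (C'.z (τ x)) with hk
  have hph : ∀ x ∈ Metric.ball (C.r Q) ε, ‖k x‖ = 1 ∧ C'.z (τ x) = k x • C.z x := by
    intro x hx
    obtain ⟨h1, h2, h3, -⟩ := hball x hx
    refine exists_phase (C.norm_z x h1) (C'.norm_z _ h2) ?_
    rw [C'.pt_z _ h2, C.pt_z x h1]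
    exact h3
  have hder : ∀ x ∈ Metric.ball (C.r Q) ε, HasFDerivAt k (0 : R n →L[ℝ] ℂ) x := by
    intro x hx
    obtain ⟨h1, h2, h3, h4⟩ := hball x hx
    obtain ⟨h5, h6⟩ := hph x hx
    have hz : HasFDerivAt C.z (fderiv ℝ C.z x) x :=
      ((C.smooth_z.contDiffAt (Metric.isOpen_ball.mem_nhds h1)).differentiableAt
        one_ne_zero).hasFDerivAt
    have hz' : HasFDerivAt C'.z (fderiv ℝ C'.z (τ x)) (τ x) :=
      ((C'.smooth_z.contDiffAt (Metric.isOpen_ball.mem_nhds h2)).differentiableAt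
        one_ne_zero).hasFDerivAt
    have hτd : HasFDerivAt τ (fderiv ℝ τ x) x := (h4.differentiableAt one_ne_zero).hasFDerivAt
    have hc : HasFDerivAt (fun y => C'.z (τ y)) ((fderiv ℝ C'.z (τ x)).comp (fderiv ℝ τ x)) x :=
      HasFDerivAt.comp x hz' hτd
    have hin := hz.inner ℂ hc
    refine hin.congr_fderiv ?_
    refine ContinuousLinearMap.ext fun u => ?_
    have e1 : inner ℂ (C.z x) (fderiv ℝ C'.z (τ x) (fderiv ℝ τ x u)) = 0 := by
      have h7 := C'.leg (τ x) h2 (fderiv ℝ τ x u)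
      rw [h6, inner_smul_left] at h7
      have h8 : (starRingEnd ℂ) (k x) ≠ 0 := by
        intro h
        rw [map_eq_zero] at h
        rw [h, norm_zero] at h5
        exact zero_ne_one h5
      exact (mul_eq_zero.1 h7).resolve_left h8
    have e2 : inner ℂ (fderiv ℝ C.z x u) (C'.z (τ x)) = 0 := by
      rw [h6, inner_smul_right]
      have h7 := C.leg x h1 u
      rw [← inner_conj_symm, h7, map_zero, mul_zero]
    simp [fderivInnerCLM_apply, e1, e2]
  have hconst : ∀ x ∈ Metric.ball (C.r Q) ε, k x = k (C.r Q) := by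
    intro x hx
    have hc : Convex ℝ (Metric.ball (C.r Q) ε) := convex_ball _ _
    refine hc.is_const_of_fderivWithin_eq_zero (𝕜 := ℝ) (f := k) ?_ ?_ hx
      (Metric.mem_ball_self hε)
    · intro y hy
      exact (hder y hy).differentiableAt.differentiableWithinAt
    · intro y hy
      rw [fderivWithin_of_isOpen Metric.isOpen_ball hy]
      exact (hder y hy).fderiv
  refine ⟨k (C.r Q), (hph _ (Metric.mem_ball_self hε)).1, ?_⟩
  filter_upwards [Metric.ball_mem_nhds (C.r Q) hε] with x hx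
  rw [← hconst x hx]
  exact (hph x hx).2

theorem comp_Z (C C' : LChart L) {Q : Op n} (hQ : Q ∈ L ∩ C.U) (hQ' : Q ∈ L ∩ C'.U) :
    ∃ κ : ℂ, ‖κ‖ = 1 ∧ ∀ᶠ S in 𝓝[L] Q, C'.Z S = κ • C.Z S := by
  obtain ⟨κ, hκ, hz⟩ := comp_z C C' hQ hQ'
  refine ⟨κ, hκ, ?_⟩
  have hrc : Filter.Tendsto C.r (𝓝[L] Q) (𝓝 (C.r Q)) := by
    have h1 : ContinuousAt C.r Q :=
      C.smooth_r.continuousOn.continuousAt (C.openU.mem_nhds hQ.2)
    exact h1.tendsto.mono_left nhdsWithin_le_nhds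
  have hU : ∀ᶠ S in 𝓝[L] Q, S ∈ C.U := nhdsWithin_le_nhds (C.openU.mem_nhds hQ.2)
  filter_upwards [hrc.eventually hz, hU, self_mem_nhdsWithin] with S h1 h2 h3
  rw [C.p_r S ⟨h3, h2⟩] at h1
  exact h1

end Pool.Agent.H66.SyL
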