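import Pool.Agent.H66.SyL.Spec

/-! Tori of symmetries in CP^3. -/

set_option autoImplicit false

open scoped ContDiff Topology

namespace Pool.Agent.H66.SyL

theorem sym_add {n : ℕ} {L : Set (Op n)} (b : OrthonormalBasis (Fin (n + 1)) ℂ (E n))
    {w w' : Fin (n + 1) → ℝ} (h : Sym b L w) (h' : Sym b L w') (s t : ℝ) :
    Sym b L (s • w + t • w') := by
  intro r P hP
  have e : r • (s • w + t • w') = (r * s) • w + (r * t) • w' := by
    rw [smul_add, smul_smul, smul_smul]
  rw [e, act_add]
  exact h _ _ (h' _ _ hP)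

theorem sym_const {n : ℕ} {L : Set (Op n)} (b : OrthonormalBasis (Fin (n + 1)) ℂ (E n)) (c : ℝ) :
    Sym b L (fun _ => c) := by
  intro t P hP
  have hrot : ∀ (r : ℝ) (v : E n), rot b (fun _ => r) v = Complex.exp ((r : ℂ) * Complex.I) • v := by
    intro r v
    apply b.repr.injective
    ext k
    rw [b.repr_apply_apply, b.repr_apply_apply, coord_rot, inner_smul_right]
  have e : act b (t • fun _ => c) P = P := by
    have e1 : (t • fun _ : Fin (n + 1) => c) = fun _ => t * c := by
      funext k
      simp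
    rw [e1]
    ext1 v
    have e2 : (-(fun _ : Fin (n + 1) => t * c)) = fun _ => -(t * c) := by
      funext k
      simp
    unfold act
    rw [e2]
    simp only [ContinuousLinearMap.comp_apply]
    rw [hrot, hrot, map_smul, smul_smul, ← Complex.exp_add]
    have e3 : ((t * c : ℝ) : ℂ) * Complex.I + ((-(t * c) : ℝ) : ℂ) * Complex.I = 0 := by
      push_cast
      ring
    rw [e3, Complex.exp_zero, one_smul]
  rw [e]
  exact hP

/-- e_p - e_q -/
private noncomputable def ed (p q : Fin 4) : Fin 4 → ℝ := fun k => if k = p then 1 else if k = q then -1 else 0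

private theorem sum_four {i j k l : Fin 4} (hij : i ≠ j) (hik : i ≠ k) (hil : i ≠ l) (hjk : j ≠ k)
    (hjl : j ≠ l) (hkl : k ≠ l) (w : Fin 4 → ℝ) : ∑ m, w m = w i + w j + w k + w l := by
  have h : ∀ i j k l : Fin 4, i ≠ j → i ≠ k → i ≠ l → j ≠ k → j ≠ l → k ≠ l →
      (Finset.univ : Finset (Fin 4)) = {i, j, k, l} := by decide
  rw [h i j k l hij hik hil hjk hjl hkl, Finset.sum_insert, Finset.sum_insert, Finset.sum_insert,
    Finset.sum_singleton]
  · ring
  · simpa using hkl
  · simp [hjk, hjl]
  · simp [hij, hik, hil]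

private theorem cover {i j k l : Fin 4} (hij : i ≠ j) (hik : i ≠ k) (hil : i ≠ l) (hjk : j ≠ k)
    (hjl : j ≠ l) (hkl : k ≠ l) (m : Fin 4) : m = i ∨ m = j ∨ m = k ∨ m = l := by
  have h : ∀ i j k l : Fin 4, i ≠ j → i ≠ k → i ≠ l → j ≠ k → j ≠ l → k ≠ l →
      ∀ m, m = i ∨ m = j ∨ m = k ∨ m = l := by decide
  exact h i j k l hij hik hil hjk hjl hkl m

private theorem fourth (i j k : Fin 4) : ∃ l : Fin 4, l ≠ i ∧ l ≠ j ∧ l ≠ k := by
  revert i j k
  decide

private theorem two_others (m l : Fin 4) (h : l ≠ m) :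
    ∃ p q : Fin 4, p ≠ q ∧ p ≠ m ∧ q ≠ m ∧ p ≠ l ∧ q ≠ l := by
  revert m l
  decide

private theorem mean_zero {v : Fin 4 → ℝ} (h : ∑ k, v k = 0) : mean (n := 3) v = 0 := by
  unfold mean
  have h' : ∑ k : Fin (3 + 1), v k = 0 := h
  rw [h', zero_div]

/-- w minus its mean -/
private noncomputable def ctr (w : Fin 4 → ℝ) : Fin 4 → ℝ := fun k => w k - mean (n := 3) w

/-- Pure linear algebra. S is a set of vectors of R^4 closed under linear combinations, containing the
constants, and every w in S is constant, or of the form mean + a (e_i - e_j), a > 0, or has two entries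
above and two below its mean. Then S is contained in the span of 1 and one vector, or
S = {w : w i + w j = w k + w l} for a pairing {i, j}, {k, l} of the four indices.
Proof: V = {w in S : mean w = 0}. If V has two independent elements then for every index m there is
0 <> c in V with c m = 0, so c = a (e_p - e_q), m not in {p, q} (two above and two below need four
nonzero entries). m = 0: e_i - e_j in V, i, j <> 0, l the fourth index. m = i: e_p - e_q in V, p, q <> i; if
{p, q} = {0, l}: V contains span (e_i - e_j, e_0 - e_l). Otherwise V contains e_i - e_j and e_j - e_q up to sign,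
hence a vector with entries 2, -1, -1, 0: excluded. If V is bigger than this span it contains also
beta (e_j - e_l), beta <> 0, and again a vector with entries 2, -1, -1, 0. -/
theorem tori_algebra (S : Set (Fin 4 → ℝ))
    (hadd : ∀ w ∈ S, ∀ w' ∈ S, ∀ s t : ℝ, s • w + t • w' ∈ S) (hone : ∀ c : ℝ, (fun _ => c) ∈ S)
    (hdich : ∀ w ∈ S, (∀ k, w k = mean (n := 3) w) ∨
      (∃ i j, i ≠ j ∧ mean (n := 3) w < w i ∧ mean (n := 3) w - w j = w i - mean (n := 3) w ∧
        ∀ k, k ≠ i → k ≠ j → w k = mean (n := 3) w) ∨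
      ((∃ i j, i ≠ j ∧ mean (n := 3) w < w i ∧ mean (n := 3) w < w j) ∧
        ∃ i j, i ≠ j ∧ w i < mean (n := 3) w ∧ w j < mean (n := 3) w)) :
    (∃ w0, ∀ w ∈ S, ∃ s t : ℝ, w = s • (fun _ => (1 : ℝ)) + t • w0) ∨
    (∃ i j k l : Fin 4, [i, j, k, l].Nodup ∧ ∀ w, w ∈ S ↔ w i + w j = w k + w l) := by
  classical
  have hsmul : ∀ w ∈ S, ∀ s : ℝ, s • w ∈ S := by
    intro w hw s
    have h := hadd w hw w hw s 0
    rwa [zero_smul, add_zero] at h
  have hsub : ∀ w ∈ S, ∀ w' ∈ S, w - w' ∈ S := by
    intro w hw w' hw'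
    have h := hadd w hw w' hw' 1 (-1)
    rwa [one_smul, neg_one_smul, ← sub_eq_add_neg] at h
  have hplus : ∀ w ∈ S, ∀ w' ∈ S, w + w' ∈ S := by
    intro w hw w' hw'
    have h := hadd w hw w' hw' 1 1
    rwa [one_smul, one_smul] at h
  -- zero entries come in pairs
  have hZ : ∀ v ∈ S, ∑ k, v k = 0 → ∀ m, v m = 0 → ∃ l, l ≠ m ∧ v l = 0 := by
    intro v hv hs m hm
    have hmean := mean_zero hs
    have hd := hdich v hv
    rw [hmean] at hd
    rcases hd with h | ⟨i, j, hij, hi, hj, hk⟩ | ⟨⟨i, j, hij, hi, hj⟩, ⟨k, l, hkl, hk, hl⟩⟩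
    · obtain ⟨l, h1, -, -⟩ := fourth m m m
      exact ⟨l, h1, h l⟩
    · obtain ⟨l, h1, h2, h3⟩ := fourth m i j
      exact ⟨l, h1, hk l h2 h3⟩
    · exfalso
      have hik : i ≠ k := by
        rintro rfl
        exact lt_asymm hi hk
      have hil : i ≠ l := by
        rintro rfl
        exact lt_asymm hi hl
      have hjk : j ≠ k := by
        rintro rfl
        exact lt_asymm hj hk
      have hjl : j ≠ l := by
        rintro rfl
        exact lt_asymm hj hl
      rcases cover hij hik hil hjk hjl hkl m with rfl | rfl | rfl | rfl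
      · exact hi.ne' hm
      · exact hj.ne' hm
      · exact hk.ne hm
      · exact hl.ne hm
  -- no adjacent edges
  have hN : ∀ p q r : Fin 4, p ≠ q → q ≠ r → p ≠ r → ed p q ∈ S → ed q r ∈ S → False := by
    intro p q r hpq hqr hpr h1 h2
    obtain ⟨s, hsp, hsq, hsr⟩ := fourth p q r
    have h3 := hsub _ h1 _ h2
    have vp : (ed p q - ed q r) p = 1 := by
      simp [ed, hpq, hpr]
    have vq : (ed p q - ed q r) q = -2 := by
      simp only [ed, Pi.sub_apply, if_neg hpq.symm, if_true]
      norm_num
    have vr : (ed p q - ed q r) r = 1 := by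
      simp [ed, hqr.symm, hpr.symm]
    have vs : (ed p q - ed q r) s = 0 := by
      simp [ed, hsp, hsq, hsr]
    have hsum : ∑ k, (ed p q - ed q r) k = 0 := by
      rw [sum_four hpq hpr hsp.symm hqr hsq.symm hsr.symm, vp, vq, vr, vs]
      norm_num
    obtain ⟨l, hl, hl0⟩ := hZ _ h3 hsum s vs
    rcases cover hpq hpr hsp.symm hqr hsq.symm hsr.symm l with rfl | rfl | rfl | rfl
    · rw [vp] at hl0
      norm_num at hl0
    · rw [vq] at hl0
      norm_num at hl0
    · rw [vr] at hl0
      norm_num at hl0
    · exact hl rfl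
  -- a zero sum vector of S
  have hcent : ∀ w ∈ S, ctr w ∈ S ∧ ∑ k, ctr w k = 0 := by
    intro w hw
    refine ⟨hsub _ hw _ (hone _), ?_⟩
    simp only [ctr, Finset.sum_sub_distrib, Finset.sum_const, Finset.card_univ, Fintype.card_fin]
    unfold mean
    rw [nsmul_eq_mul]
    push_cast
    ring
  by_cases hfirst : ∃ w0, ∀ w ∈ S, ∃ s t : ℝ, w = s • (fun _ => (1 : ℝ)) + t • w0
  · exact Or.inl hfirst
  right
  push Not at hfirst
  obtain ⟨w1, hw1, h1⟩ := hfirst 0
  obtain ⟨hv, hvs⟩ := hcent w1 hw1
  have hv0 : ctr w1 ≠ 0 := by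
    intro h
    apply h1 (mean (n := 3) w1) 0
    funext k
    have hk := congrFun h k
    simp only [ctr, Pi.zero_apply] at hk
    simp only [smul_zero, add_zero, Pi.smul_apply, smul_eq_mul, mul_one]
    linarith
  generalize ctr w1 = v at hv hvs hv0
  obtain ⟨w2, hw2, h2⟩ := hfirst v
  obtain ⟨hu, hus⟩ := hcent w2 hw2
  have hu0 : ∀ t : ℝ, ctr w2 ≠ t • v := by
    intro t h
    apply h2 (mean (n := 3) w2) t
    rw [← h]
    funext k
    simp only [ctr, Pi.add_apply, Pi.smul_apply, smul_eq_mul, mul_one]
    ring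
  generalize ctr w2 = u at hu hus hu0
  -- edges avoiding an index
  have hC : ∀ m : Fin 4, ∃ p q : Fin 4, p ≠ q ∧ p ≠ m ∧ q ≠ m ∧ ed p q ∈ S := by
    intro m
    obtain ⟨c, hc, hcs, hcm, hc0⟩ : ∃ c ∈ S, ∑ k, c k = 0 ∧ c m = 0 ∧ c ≠ 0 := by
      by_cases hvm : v m = 0
      · exact ⟨v, hv, hvs, hvm, hv0⟩
      · refine ⟨u - (u m / v m) • v, hsub _ hu _ (hsmul _ hv _), ?_, ?_, ?_⟩
        · simp only [Pi.sub_apply, Pi.smul_apply, smul_eq_mul, Finset.sum_sub_distrib]
          rw [← Finset.mul_sum, hus, hvs]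
          ring
        · simp only [Pi.sub_apply, Pi.smul_apply, smul_eq_mul]
          field_simp
          ring
        · intro h
          exact hu0 _ (sub_eq_zero.1 h)
    obtain ⟨l, hl, hl0⟩ := hZ c hc hcs m hcm
    obtain ⟨p, q, hpq, hpm, hqm, hpl, hql⟩ := two_others m l hl
    have hsum := hcs
    rw [sum_four hl.symm hpm.symm hqm.symm hpl.symm hql.symm hpq, hcm, hl0] at hsum
    have hcq : c q = - c p := by linarith
    have hcp : c p ≠ 0 := by
      intro h
      apply hc0
      funext k
      rcases cover hl.symm hpm.symm hqm.symm hpl.symm hql.symm hpq k with rfl | rfl | rfl | rfl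
      · exact hcm
      · exact hl0
      · exact h
      · rw [hcq, h]
        simp
    refine ⟨p, q, hpq, hpm, hqm, ?_⟩
    have e : ed p q = (1 / c p) • c := by
      funext k
      simp only [Pi.smul_apply, smul_eq_mul]
      rcases cover hl.symm hpm.symm hqm.symm hpl.symm hql.symm hpq k with rfl | rfl | rfl | rfl
      · rw [hcm]
        simp [ed, hpm.symm, hqm.symm]
      · rw [hl0]
        simp [ed, hpl.symm, hql.symm]
      · simp only [ed, if_true]
        field_simp
      · rw [hcq]
        simp only [ed, if_neg hpq.symm, if_true]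
        field_simp
    rw [e]
    exact hsmul _ hc _
  have hsymm : ∀ p q : Fin 4, p ≠ q → ed p q ∈ S → ed q p ∈ S := by
    intro p q hpq h
    have e : ed q p = (-1 : ℝ) • ed p q := by
      funext k
      simp only [ed, Pi.smul_apply, smul_eq_mul]
      by_cases hq : k = q
      · subst hq
        simp [hpq.symm]
      · by_cases hp : k = p
        · subst hp
          simp [hpq]
        · simp [hq, hp]
    rw [e]
    exact hsmul _ h _
  obtain ⟨i, j, hij, -, -, hAij⟩ := hC 0
  obtain ⟨k, l, hkl, hki, hli, hAkl⟩ := hC i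
  have hkj : k ≠ j := by
    rintro rfl
    exact hN i k l hij hkl hli.symm hAij hAkl
  have hlj : l ≠ j := by
    rintro rfl
    exact hN i l k hij hkl.symm hki.symm hAij (hsymm _ _ hkl hAkl)
  refine ⟨i, j, k, l, ?_, fun w => ⟨fun hw => ?_, fun hw => ?_⟩⟩
  · simp [hij, hki.symm, hli.symm, hkj.symm, hlj.symm, hkl]
  · obtain ⟨hx, hxs⟩ := hcent w hw
    set x : Fin 4 → ℝ := ctr w with hxdef
    have hs4 := hxs
    rw [sum_four hij hki.symm hli.symm hkj.symm hlj.symm hkl] at hs4
    have hkey : x i + x j = 0 := by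
      by_contra hne
      have hy : x - x i • ed i j - x k • ed k l ∈ S :=
        hsub _ (hsub _ hx _ (hsmul _ hAij _)) _ (hsmul _ hAkl _)
      have e : ed j l = (1 / (x i + x j)) • (x - x i • ed i j - x k • ed k l) := by
        funext m
        simp only [Pi.smul_apply, Pi.sub_apply, smul_eq_mul]
        rcases cover hij hki.symm hli.symm hkj.symm hlj.symm hkl m with h | h | h | h
        · subst h
          simp [ed, hij, hli.symm, hki.symm]
        · subst h
          simp only [ed, if_true, if_neg hij.symm, if_neg hkj.symm, if_neg hlj.symm]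
          field_simp
          ring
        · subst h
          simp [ed, hki, hkj, hkl]
        · subst h
          simp only [ed, if_true, if_neg hlj, if_neg hli, if_neg hkl.symm]
          have : x m = - (x i + x j) - x k := by linarith
          rw [this]
          field_simp
          ring
      refine hN i j l hij hlj.symm hli.symm hAij ?_
      rw [e]
      exact hsmul _ hy _
    have e1 : x i = w i - mean (n := 3) w := rfl
    have e2 : x j = w j - mean (n := 3) w := rfl
    have e3 : x k = w k - mean (n := 3) w := rfl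
    have e4 : x l = w l - mean (n := 3) w := rfl
    rw [e1, e2] at hkey
    rw [e1, e2, e3, e4] at hs4
    linarith
  · have e : w = (fun _ => (w i + w j) / 2) + (((w i - w j) / 2) • ed i j + ((w k - w l) / 2) • ed k l) := by
      funext m
      simp only [Pi.add_apply, Pi.smul_apply, smul_eq_mul]
      rcases cover hij hki.symm hli.symm hkj.symm hlj.symm hkl m with h | h | h | h
      · subst h
        simp only [ed, if_true, if_neg hki.symm, if_neg hli.symm]
        ring
      · subst h
        simp only [ed, if_true, if_neg hij.symm, if_neg hkj.symm, if_neg hlj.symm]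
        ring
      · subst h
        simp only [ed, if_true, if_neg hki, if_neg hkj]
        linarith
      · subst h
        simp only [ed, if_true, if_neg hli, if_neg hlj, if_neg hkl.symm]
        linarith
    rw [e]
    exact hplus _ (hone _) _ (hadd _ hAij _ hAkl _ _)

end Pool.Agent.H66.SyL
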