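import Pool.Agent.H66.SyL.Defs

/-! The determinant under a change of the parameter. -/

set_option autoImplicit false

open scoped ContDiff Topology

namespace Pool.Agent.H66.SyL

variable {n : ℕ}

/-- The block matrix (1, A). -/
private def blk (A : Matrix (Fin n) (Fin n) ℝ) : Matrix (Fin (n + 1)) (Fin (n + 1)) ℂ :=
  fun i j => Fin.cases (Fin.cases (1 : ℂ) (fun _ => 0) i)
    (fun k => Fin.cases (0 : ℂ) (fun l => ((A l k : ℝ) : ℂ)) i) j

private theorem det_blk (A : Matrix (Fin n) (Fin n) ℝ) : (blk A).det = ((A.det : ℝ) : ℂ) := by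
  rw [Matrix.det_succ_column_zero, Fin.sum_univ_succ]
  have h0 : ∀ i : Fin n, blk A i.succ 0 = 0 := fun i => rfl
  simp only [h0, mul_zero, zero_mul, Finset.sum_const_zero, add_zero]
  have h1 : blk A 0 0 = 1 := rfl
  rw [h1]
  have h2 : (blk A).submatrix (Fin.succAbove 0) Fin.succ = A.map (fun x : ℝ => (x : ℂ)) := by
    ext i j
    simp [blk, Matrix.submatrix]
  rw [h2]
  have h3 : (A.map (fun x : ℝ => (x : ℂ))).det = ((A.det : ℝ) : ℂ) := by
    exact (RingHom.map_det Complex.ofRealHom A).symm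
  rw [h3]
  simp

/-- Change of the parameter: if z1 (tau x) = T (z x) near x0 (T complex linear, tau differentiable at x0,
z1 differentiable at tau x0, z differentiable at x0) then
det (z1, D z1)(tau x0) * det (D tau x0) = det T * det (z, D z)(x0). -/
theorem det_change {z z1 : R n → E n} {τ : R n → R n} {x0 : R n} (T : Op n)
    (hz : DifferentiableAt ℝ z x0) (hz1 : DifferentiableAt ℝ z1 (τ x0))
    (hτ : DifferentiableAt ℝ τ x0) (h : ∀ᶠ x in 𝓝 x0, z1 (τ x) = T (z x)) :
    Matrix.det (fun i j => Fin.cases (z1 (τ x0) i)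
        (fun k => fderiv ℝ z1 (τ x0) (EuclideanSpace.single k 1) i) j :
        Matrix (Fin (n + 1)) (Fin (n + 1)) ℂ) *
      (((fderiv ℝ τ x0).det : ℝ) : ℂ) =
    LinearMap.det (T : E n →ₗ[ℂ] E n) *
      Matrix.det (fun i j => Fin.cases (z x0 i)
        (fun k => fderiv ℝ z x0 (EuclideanSpace.single k 1) i) j :
        Matrix (Fin (n + 1)) (Fin (n + 1)) ℂ) := by
  classical
  set bR := (EuclideanSpace.basisFun (Fin n) ℝ).toBasis with hbR
  set bC := (EuclideanSpace.basisFun (Fin (n + 1)) ℂ).toBasis with hbC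
  -- the derivative identity
  have hder : ∀ v : R n, fderiv ℝ z1 (τ x0) (fderiv ℝ τ x0 v) = T (fderiv ℝ z x0 v) := by
    intro v
    have e1 : fderiv ℝ (fun x => z1 (τ x)) x0 = (fderiv ℝ z1 (τ x0)).comp (fderiv ℝ τ x0) :=
      fderiv_fun_comp x0 hz1 hτ
    have e2 : fderiv ℝ (fun x => z1 (τ x)) x0 = fderiv ℝ (fun x => T (z x)) x0 :=
      Filter.EventuallyEq.fderiv_eq h
    have e3 : HasFDerivAt (fun x => T (z x)) ((T.restrictScalars ℝ).comp (fderiv ℝ z x0)) x0 :=
      ((T.restrictScalars ℝ).hasFDerivAt).comp x0 hz.hasFDerivAt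
    rw [e3.fderiv] at e2
    rw [e1] at e2
    have := congrArg (fun L => L v) e2
    simpa using this
  have hpt : z1 (τ x0) = T (z x0) := h.self_of_nhds
  set A : Matrix (Fin n) (Fin n) ℝ := LinearMap.toMatrix bR bR (fderiv ℝ τ x0 : R n →ₗ[ℝ] R n) with hA
  set TM : Matrix (Fin (n + 1)) (Fin (n + 1)) ℂ := LinearMap.toMatrix bC bC (T : E n →ₗ[ℂ] E n) with hTM
  have hdA : (fderiv ℝ τ x0).det = A.det := by
    rw [hA, LinearMap.det_toMatrix]
  have hdT : LinearMap.det (T : E n →ₗ[ℂ] E n) = TM.det := by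
    rw [hTM, LinearMap.det_toMatrix]
  rw [hdA, hdT, ← det_blk A, ← Matrix.det_mul, ← Matrix.det_mul]
  congr 1
  -- action of TM
  have hTMv : ∀ (w : E n) (i : Fin (n + 1)), ∑ m, TM i m * w m = (T w) i := by
    intro w i
    have hw : w = ∑ m, w m • bC m := by
      have := bC.sum_repr w
      conv_lhs => rw [← this]
      apply Finset.sum_congr rfl
      intro m _
      simp [hbC]
    have h1 : ∀ m, TM i m = (T (bC m)) i := by
      intro m
      rw [hTM, LinearMap.toMatrix_apply]
      simp [hbC]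
    have h2 : T w = ∑ m, w m • T (bC m) := by
      conv_lhs => rw [hw]
      rw [map_sum]
      apply Finset.sum_congr rfl
      intro m _
      rw [map_smul]
    rw [h2]
    simp only [h1]
    rw [WithLp.ofLp_sum, Finset.sum_apply]
    apply Finset.sum_congr rfl
    intro m _
    simp [mul_comm]
  have hAv : ∀ (k l : Fin n), A l k = (fderiv ℝ τ x0 (EuclideanSpace.single k 1)) l := by
    intro k l
    rw [hA, LinearMap.toMatrix_apply]
    simp [hbR]
  have hsum : ∀ (v : R n), v = ∑ l, v l • (EuclideanSpace.single l (1 : ℝ) : R n) := by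
    intro v
    have := bR.sum_repr v
    conv_lhs => rw [← this]
    apply Finset.sum_congr rfl
    intro m _
    simp [hbR]
  ext i j
  rw [Matrix.mul_apply, Matrix.mul_apply]
  refine Fin.cases ?_ (fun k => ?_) j
  · rw [Fin.sum_univ_succ]
    have e1 : blk A 0 0 = 1 := rfl
    have e2 : ∀ l : Fin n, blk A l.succ 0 = 0 := fun l => rfl
    simp only [e1, e2, mul_one, mul_zero, Finset.sum_const_zero, add_zero, Fin.cases_zero]
    rw [hTMv (z x0) i, ← hpt]
  · rw [Fin.sum_univ_succ]
    have e1 : blk A 0 k.succ = 0 := rfl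
    have e2 : ∀ l : Fin n, blk A l.succ k.succ = ((A l k : ℝ) : ℂ) := fun l => rfl
    simp only [e1, e2, mul_zero, zero_add, Fin.cases_succ]
    rw [hTMv (fderiv ℝ z x0 (EuclideanSpace.single k 1)) i, ← hder]
    conv_rhs => rw [hsum (fderiv ℝ τ x0 (EuclideanSpace.single k 1)), map_sum]
    rw [WithLp.ofLp_sum, Finset.sum_apply]
    apply Finset.sum_congr rfl
    intro l _
    rw [map_smul, hAv]
    simp [mul_comm]

end Pool.Agent.H66.SyL
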