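import Pool.Agent.H66.SyL.CDa
import Pool.Agent.H66.SyL.CDb

/-! Compatibility of the determinant phases. -/

set_option autoImplicit false

open scoped ContDiff Topology

namespace Pool.Agent.H66.SyL

variable {n : ℕ} {L : Set (Op n)}

/-- compatibility of the determinant phases of two charts. Proof: det_change with
T = kappa (comp_z), tau = r' o p at all points near r Q; det (D tau) is continuous and nonzero near r Q
(D' of the chart C' is not 0 times ..., both sides of det_change are nonzero), so it has a constant sign. -/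
theorem comp_D (C C' : LChart L) {Q : Op n} (hQ : Q ∈ L ∩ C.U) (hQ' : Q ∈ L ∩ C'.U) :
    ∃ κ : ℂ, κ ≠ 0 ∧ ∀ᶠ S in 𝓝[L] Q, ∃ ρ : ℝ, 0 < ρ ∧ C'.D S = κ * ρ * C.D S := by
  obtain ⟨κ, hκ, hz⟩ := comp_z C C' hQ hQ'
  obtain ⟨hτ, hev⟩ := trans_props C C' hQ hQ'
  set τ : R n → R n := fun x => C'.r (C.p x) with hτdef
  set T : Op n := κ • ContinuousLinearMap.id ℂ (E n) with hT
  -- the determinant of T
  have hκ0 : κ ≠ 0 := by
    intro h
    rw [h, norm_zero] at hκ
    exact zero_ne_one hκ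
  have hdetT : LinearMap.det (T : E n →ₗ[ℂ] E n) ≠ 0 := by
    have e : (T : E n →ₗ[ℂ] E n) = κ • (LinearMap.id : E n →ₗ[ℂ] E n) := by
      rw [hT]; rfl
    rw [e, LinearMap.det_smul, LinearMap.det_id, mul_one]
    exact pow_ne_zero _ hκ0
  -- the identity of determinants near r Q
  have hrQ : C.r Q ∈ Metric.ball C.x0 C.δ := C.r_mem Q hQ
  have key : ∀ᶠ x in 𝓝 (C.r Q), (C'.M (τ x)).det * (((fderiv ℝ τ x).det : ℝ) : ℂ) =
      LinearMap.det (T : E n →ₗ[ℂ] E n) * (C.M x).det := by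
    have hz2 : ∀ᶠ x in 𝓝 (C.r Q), ∀ᶠ y in 𝓝 x, C'.z (C'.r (C.p y)) = κ • C.z y :=
      hz.eventually_nhds
    filter_upwards [hz2, hev] with x hx1 hx2
    obtain ⟨hb, hb', -, hcd⟩ := hx2
    have hzd : DifferentiableAt ℝ C.z x :=
      (C.smooth_z.contDiffAt (Metric.isOpen_ball.mem_nhds hb)).differentiableAt one_ne_zero
    have hz1d : DifferentiableAt ℝ C'.z (τ x) :=
      (C'.smooth_z.contDiffAt (Metric.isOpen_ball.mem_nhds hb')).differentiableAt one_ne_zero
    have hτd : DifferentiableAt ℝ τ x := hcd.differentiableAt one_ne_zero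
    exact det_change T hzd hz1d hτd (hx1.mono fun y hy => by
      rw [hT]; exact hy)
  -- continuity of the determinant of D tau
  have hdcont : ContinuousAt (fun x => (fderiv ℝ τ x).det) (C.r Q) := by
    have h1 : ContinuousAt (fderiv ℝ τ) (C.r Q) := hτ.continuousAt_fderiv one_ne_zero
    exact ContinuousLinearMap.continuous_det.continuousAt.comp h1
  have hD0 : C.D Q ≠ 0 := C.D_ne_zero hQ
  have hd0 : (fderiv ℝ τ (C.r Q)).det ≠ 0 := by
    intro h
    have h1 := key.self_of_nhds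
    rw [h] at h1
    simp only [Complex.ofReal_zero, mul_zero] at h1
    exact mul_ne_zero hdetT hD0 h1.symm
  set d0 : ℝ := (fderiv ℝ τ (C.r Q)).det with hd0def
  have hpos : ∀ᶠ x in 𝓝 (C.r Q), 0 < d0 * (fderiv ℝ τ x).det := by
    have h1 : ContinuousAt (fun x => d0 * (fderiv ℝ τ x).det) (C.r Q) :=
      continuousAt_const.mul hdcont
    have h2 : 0 < d0 * (fderiv ℝ τ (C.r Q)).det := by
      rw [← hd0def]; exact mul_self_pos.2 hd0
    exact h1.eventually (lt_mem_nhds h2)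
  -- the points of L
  have hrc : Filter.Tendsto C.r (𝓝[L] Q) (𝓝 (C.r Q)) := by
    have h1 : ContinuousAt C.r Q :=
      C.smooth_r.continuousOn.continuousAt (C.openU.mem_nhds hQ.2)
    exact h1.tendsto.mono_left nhdsWithin_le_nhds
  refine ⟨(d0 : ℂ) * LinearMap.det (T : E n →ₗ[ℂ] E n),
    mul_ne_zero (Complex.ofReal_ne_zero.2 hd0) hdetT, ?_⟩
  have hU : ∀ᶠ S in 𝓝[L] Q, S ∈ C.U :=
    nhdsWithin_le_nhds (C.openU.mem_nhds hQ.2)
  filter_upwards [hrc.eventually key, hrc.eventually hpos, hU, self_mem_nhdsWithin]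
    with S hS1 hS2 hS3 hS4
  have hpS : C.p (C.r S) = S := C.p_r S ⟨hS4, hS3⟩
  have hτS : τ (C.r S) = C'.r S := by rw [hτdef]; simp only [hpS]
  rw [hτS] at hS1
  set d : ℝ := (fderiv ℝ τ (C.r S)).det with hd
  have hdne : (d : ℂ) ≠ 0 := by
    intro h
    rw [Complex.ofReal_eq_zero] at h
    rw [h, mul_zero] at hS2
    exact lt_irrefl _ hS2
  have hd0ne : (d0 : ℂ) ≠ 0 := Complex.ofReal_ne_zero.2 hd0
  refine ⟨(d0 * d)⁻¹, inv_pos.2 hS2, ?_⟩
  have hS5 : C'.D S * (d : ℂ) = LinearMap.det (T : E n →ₗ[ℂ] E n) * C.D S := hS1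
  push_cast
  field_simp
  exact hS5

end Pool.Agent.H66.SyL
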