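import Pool.Agent.H66.SyL.Defs

/-! The topological lemma: a phase which is locally defined up to constants and positive factors,
and which is multiplied by exp(i c t) by a flow, has c = 0 if H^1(L; R) = 0 and L is compact. -/

set_option autoImplicit false

open scoped ContDiff Topology

namespace Pool.Agent.H66.SyL

private theorem arg_div_of_re {u v : ℂ} (hu : 0 < u.re) (hv : 0 < v.re) :
    Complex.arg (v / u) = Complex.arg v - Complex.arg u := by
  have hu0 : u ≠ 0 := by rintro rfl; simp at hu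
  have hv0 : v ≠ 0 := by rintro rfl; simp at hv
  have h1 : |Complex.arg u| < Real.pi / 2 := Complex.abs_arg_lt_pi_div_two_iff.2 (Or.inl hu)
  have h2 : |Complex.arg v| < Real.pi / 2 := Complex.abs_arg_lt_pi_div_two_iff.2 (Or.inl hv)
  rw [abs_lt] at h1 h2
  have h3 : Complex.arg u⁻¹ = -Complex.arg u := by
    rw [Complex.arg_inv, if_neg]
    intro h; rw [h] at h1; linarith [h1.2, Real.pi_pos]
  rw [div_eq_mul_inv, Complex.arg_mul hv0 (inv_ne_zero hu0), h3]
  · ring
  · rw [h3]; constructor <;> linarith [h1.1, h1.2, h2.1, h2.2]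

/-- Proof. psi P Q = arg (Theta P Q / Theta P P). For Q near P and S near Q: the quotients
Theta P Q / Theta P P, Theta P S / Theta P P have positive real part, so
the principal arguments add up; Theta Q S / Theta Q Q is a positive multiple of
Theta P S / Theta P Q. So H1Zero gives g. g is continuous on L (psi P is continuous at P), so bounded.
g (phi t P) = g P + c t for small t (arg of a positive multiple of exp(i c t)), so
t -> g (phi t P) has derivative c everywhere (group law), so it is g P + c t for all t: c = 0. -/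
theorem core {X : Type*} [TopologicalSpace X] (L : Set X) (hL : IsCompact L) (hne : L.Nonempty)
    (h1 : H1Zero L) (φ : ℝ → X → X) (hφL : ∀ t, ∀ P ∈ L, φ t P ∈ L)
    (hφ0 : ∀ P ∈ L, φ 0 P = P) (hφa : ∀ s t, ∀ P ∈ L, φ (s + t) P = φ s (φ t P))
    (hφc : ∀ P ∈ L, Continuous fun t => φ t P)
    (Θ : X → X → ℂ) (c : ℝ)
    (hcont : ∀ P ∈ L, ∀ᶠ Q in 𝓝[L] P, Θ P Q ≠ 0 ∧ ContinuousWithinAt (Θ P) L Q)
    (hcomp : ∀ P ∈ L, ∀ᶠ Q in 𝓝[L] P, ∃ κ : ℂ, κ ≠ 0 ∧
      ∀ᶠ S in 𝓝[L] Q, ∃ ρ : ℝ, 0 < ρ ∧ Θ Q S = κ * ρ * Θ P S)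
    (hflow : ∀ P ∈ L, ∀ᶠ t in 𝓝 (0 : ℝ), ∃ ρ : ℝ, 0 < ρ ∧
      Θ P (φ t P) = ρ * Complex.exp ((c * t : ℝ) * Complex.I) * Θ P P) :
    c = 0 := by
  have hPP : ∀ P ∈ L, Θ P P ≠ 0 := fun P hP => ((hcont P hP).self_of_nhdsWithin hP).1
  have hPc : ∀ P ∈ L, ContinuousWithinAt (Θ P) L P :=
    fun P hP => ((hcont P hP).self_of_nhdsWithin hP).2
  -- the quotient has positive real part near P
  have hpos : ∀ P ∈ L, ∀ᶠ Q in 𝓝[L] P, 0 < (Θ P Q / Θ P P).re := by
    intro P hP
    have hc : ContinuousWithinAt (fun Q => (Θ P Q / Θ P P).re) L P :=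
      Complex.continuous_re.continuousAt.comp_continuousWithinAt ((hPc P hP).div_const _)
    have h : (0 : ℝ) < (Θ P P / Θ P P).re := by rw [div_self (hPP P hP)]; simp
    exact hc.tendsto.eventually (lt_mem_nhds h)
  obtain ⟨g, hg⟩ := h1 (fun P Q => Complex.arg (Θ P Q / Θ P P)) (by
    intro P hP
    filter_upwards [hcont P hP, hcomp P hP, hpos P hP, self_mem_nhdsWithin] with Q hQ1 hQ2 hQ3 hQL
    obtain ⟨κ, hκ, hS⟩ := hQ2
    have hposS : ∀ᶠ S in 𝓝[L] Q, 0 < (Θ P S / Θ P P).re := by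
      have hc : ContinuousWithinAt (fun Q => (Θ P Q / Θ P P).re) L Q :=
        Complex.continuous_re.continuousAt.comp_continuousWithinAt (hQ1.2.div_const _)
      exact hc.tendsto.eventually (lt_mem_nhds hQ3)
    obtain ⟨ρ0, hρ0, hQQ⟩ := hS.self_of_nhdsWithin hQL
    filter_upwards [hS, hposS] with S hS1 hS2
    obtain ⟨ρ, hρ, hQS⟩ := hS1
    have hq : Θ Q S / Θ Q Q = ((ρ / ρ0 : ℝ) : ℂ) * ((Θ P S / Θ P P) / (Θ P Q / Θ P P)) := by
      rw [hQS, hQQ]
      have a1 : (ρ0 : ℂ) ≠ 0 := by exact_mod_cast hρ0.ne'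
      have a2 := hPP P hP
      have a3 := hQ1.1
      push_cast
      field_simp
    show Complex.arg (Θ Q S / Θ Q Q) - Complex.arg (Θ Q Q / Θ Q Q) =
      Complex.arg (Θ P S / Θ P P) - Complex.arg (Θ P Q / Θ P P)
    rw [hq, Complex.arg_real_mul _ (div_pos hρ hρ0), arg_div_of_re hQ3 hS2,
      div_self (hPP Q hQL), Complex.arg_one]
    ring)
  have hg' : ∀ P ∈ L, ∀ᶠ Q in 𝓝[L] P, g Q = g P + Complex.arg (Θ P Q / Θ P P) := by
    intro P hP
    filter_upwards [hg P hP] with Q hQ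
    have h : g Q - g P = Complex.arg (Θ P Q / Θ P P) - Complex.arg (Θ P P / Θ P P) := hQ
    rw [div_self (hPP P hP), Complex.arg_one] at h
    linarith
  have hgc : ContinuousOn g L := by
    intro P hP
    have hc : ContinuousWithinAt (fun Q => g P + Complex.arg (Θ P Q / Θ P P)) L P := by
      have h2 : ContinuousAt Complex.arg (Θ P P / Θ P P) := by
        rw [div_self (hPP P hP)]
        exact Complex.continuousAt_arg Complex.one_mem_slitPlane
      have h3 : ContinuousWithinAt (fun Q => Θ P Q / Θ P P) L P := (hPc P hP).div_const _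
      exact continuousWithinAt_const.add
        (ContinuousAt.comp_continuousWithinAt (f := fun Q => Θ P Q / Θ P P) h2 h3)
    refine hc.congr_of_eventuallyEq (hg' P hP) ?_
    rw [div_self (hPP P hP), Complex.arg_one, add_zero]
  obtain ⟨C, hC⟩ := hL.exists_bound_of_continuousOn hgc
  -- local behaviour along the flow
  have hloc : ∀ P ∈ L, ∀ᶠ t in 𝓝 (0 : ℝ), g (φ t P) = g P + c * t := by
    intro P hP
    have ht : Filter.Tendsto (fun t => φ t P) (𝓝 0) (𝓝[L] P) := by
      rw [tendsto_nhdsWithin_iff]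
      refine ⟨?_, Filter.Eventually.of_forall fun t => hφL t P hP⟩
      have := (hφc P hP).tendsto 0
      rwa [hφ0 P hP] at this
    have hsmall : ∀ᶠ t in 𝓝 (0 : ℝ), |c * t| < Real.pi := by
      have hc : Continuous fun t : ℝ => |c * t| := by fun_prop
      have h0 : |c * 0| < Real.pi := by simpa using Real.pi_pos
      exact hc.continuousAt.eventually (gt_mem_nhds h0)
    filter_upwards [ht.eventually (hg' P hP), hflow P hP, hsmall] with t h1 h2 h3
    obtain ⟨ρ, hρ, h4⟩ := h2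
    rw [abs_lt] at h3
    have h5 : Θ P (φ t P) / Θ P P = (ρ : ℂ) * Complex.exp (((c * t : ℝ) : ℂ) * Complex.I) := by
      rw [h4, mul_div_assoc, div_self (hPP P hP), mul_one]
    rw [h1, h5, Complex.arg_real_mul _ hρ, Complex.exp_mul_I, ← Complex.ofReal_cos,
      ← Complex.ofReal_sin]
    rw [Complex.ofReal_cos, Complex.ofReal_sin,
      Complex.arg_cos_add_sin_mul_I ⟨h3.1, h3.2.le⟩]
  obtain ⟨P, hP⟩ := hne
  have hder : ∀ s : ℝ, HasDerivAt (fun s => g (φ s P) - c * s) 0 s := by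
    intro s
    have h2 := hloc (φ s P) (hφL s P hP)
    have h3 : ∀ᶠ u in 𝓝 s, g (φ u P) - c * u = g (φ s P) - c * s := by
      have h4 : Filter.Tendsto (fun u : ℝ => u - s) (𝓝 s) (𝓝 0) := by
        have : Continuous fun u : ℝ => u - s := by fun_prop
        simpa using this.tendsto s
      filter_upwards [h4.eventually h2] with u hu
      have h5 : φ (u - s) (φ s P) = φ u P := by
        rw [← hφa (u - s) s P hP, sub_add_cancel]
      rw [h5] at hu
      rw [hu]; ring
    exact (hasDerivAt_const s (g (φ s P) - c * s)).congr_of_eventuallyEq h3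
  have hconst : ∀ s : ℝ, g (φ s P) - c * s = g (φ 0 P) - c * 0 := fun s =>
    is_const_of_deriv_eq_zero (fun x => (hder x).differentiableAt) (fun x => (hder x).deriv) s 0
  by_contra hc0
  have hb : ∀ s : ℝ, |c * s| ≤ 2 * C := by
    intro s
    have e1 := hconst s
    have e2 : c * s = g (φ s P) - g (φ 0 P) := by linarith
    have b1 : |g (φ s P)| ≤ C := hC _ (hφL s P hP)
    have b2 : |g (φ 0 P)| ≤ C := hC _ (hφL 0 P hP)
    rw [e2]
    calc |g (φ s P) - g (φ 0 P)| ≤ |g (φ s P)| + |g (φ 0 P)| := abs_sub _ _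
      _ ≤ 2 * C := by linarith
  have h6 := hb ((2 * C + 1) / c)
  rw [mul_div_cancel₀ _ hc0] at h6
  have h7 := le_abs_self (2 * C + 1)
  linarith

end Pool.Agent.H66.SyL
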