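import Pool.Agent.H66.SyL.Mom
import Pool.Agent.H66.SyL.CompD

/-! The determinant phase along the flow. -/

set_option autoImplicit false

open scoped ContDiff Topology

namespace Pool.Agent.H66.SyL

variable {n : ℕ} {L : Set (Op n)} (b : OrthonormalBasis (Fin (n + 1)) ℂ (E n))

theorem det_rot (θ : Fin (n + 1) → ℝ) :
    LinearMap.det (rot b θ : E n →ₗ[ℂ] E n) = Complex.exp (((∑ k, θ k : ℝ) : ℂ) * Complex.I) := by
  rw [← LinearMap.det_toMatrix b.toBasis]
  have h : LinearMap.toMatrix b.toBasis b.toBasis (rot b θ : E n →ₗ[ℂ] E n) =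
      Matrix.diagonal (fun k => Complex.exp ((θ k : ℂ) * Complex.I)) := by
    ext i j
    rw [LinearMap.toMatrix_apply, Matrix.diagonal_apply, OrthonormalBasis.coe_toBasis_repr_apply,
      b.repr_apply_apply, OrthonormalBasis.coe_toBasis]
    show inner ℂ (b i) (rot b θ (b j)) = _
    rw [coord_rot, orthonormal_iff_ite.1 b.orthonormal i j, mul_ite, mul_one, mul_zero]
  rw [h, Matrix.det_diagonal, ← Complex.exp_sum, Complex.ofReal_sum, Finset.sum_mul]

/-- the linear map X to act X -/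
private noncomputable def actL (θ : Fin (n + 1) → ℝ) : Op n →L[ℝ] Op n :=
  ContinuousLinearMap.mulLeftRight ℝ (Op n) (rot b θ) (rot b (-θ))

private theorem actL_apply (θ : Fin (n + 1) → ℝ) (X : Op n) : actL b θ X = act b θ X := by
  rw [actL, ContinuousLinearMap.mulLeftRight_apply, mul_assoc]
  rfl

private theorem cont_act (w : Fin (n + 1) → ℝ) (P : Op n) :
    Continuous fun t : ℝ => act b (t • w) P := by
  have h2 : Continuous fun t : ℝ => ((t, P) : ℝ × Op n) := Continuous.prodMk_left P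
  exact Continuous.comp (g := fun q : ℝ × Op n => act b (q.1 • w) q.2)
    (f := fun t : ℝ => ((t, P) : ℝ × Op n)) (continuous_act b w) h2

/-- the derivative of the flow in the chart -/
private noncomputable def dt (C : LChart L) (w : Fin (n + 1) → ℝ) (P : Op n) (t : ℝ) :
    R n →L[ℝ] R n :=
  (fderiv ℝ C.r (act b (t • w) P)).comp ((actL b (t • w)).comp (fderiv ℝ C.p (C.r P)))

private theorem dt_deriv (C : LChart L) (w : Fin (n + 1) → ℝ) {P : Op n} (hP : P ∈ L ∩ C.U)
    {t : ℝ} (ht : act b (t • w) P ∈ C.U) :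
    HasFDerivAt (fun x => C.r (act b (t • w) (C.p x))) (dt b C w P t) (C.r P) := by
  have hb := C.r_mem P hP
  have hp : HasFDerivAt C.p (fderiv ℝ C.p (C.r P)) (C.r P) :=
    ((C.smooth_p.contDiffAt (Metric.isOpen_ball.mem_nhds hb)).differentiableAt
      one_ne_zero).hasFDerivAt
  have ha : HasFDerivAt (fun x => act b (t • w) (C.p x))
      ((actL b (t • w)).comp (fderiv ℝ C.p (C.r P))) (C.r P) := by
    have h1 := (actL b (t • w)).hasFDerivAt.comp (C.r P) hp
    have h2 : (fun x => act b (t • w) (C.p x)) = (actL b (t • w)) ∘ C.p := by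
      funext x
      rw [Function.comp_apply, actL_apply]
    rw [h2]
    exact h1
  have hr : HasFDerivAt C.r (fderiv ℝ C.r (act b (t • w) (C.p (C.r P))))
      (act b (t • w) (C.p (C.r P))) := by
    refine ((C.smooth_r.contDiffAt (C.openU.mem_nhds ?_)).differentiableAt
      one_ne_zero).hasFDerivAt
    rw [C.p_r P hP]
    exact ht
  have h := HasFDerivAt.comp (C.r P) hr ha
  rw [C.p_r P hP] at h
  exact h

private theorem dt_cont (C : LChart L) (w : Fin (n + 1) → ℝ) {P : Op n} (hP : P ∈ L ∩ C.U) :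
    ContinuousAt (dt b C w P) 0 := by
  refine continuousAt_clm_apply.2 fun u => ?_
  have h0 : act b ((0 : ℝ) • w) P = P := by
    rw [zero_smul, act_zero]
  have h1 : ContinuousAt (fderiv ℝ C.r) (act b ((0 : ℝ) • w) P) := by
    rw [h0]
    exact (C.smooth_r.continuousOn_fderiv_of_isOpen C.openU le_rfl).continuousAt
      (C.openU.mem_nhds hP.2)
  have h2 : ContinuousAt (fun t : ℝ => fderiv ℝ C.r (act b (t • w) P)) 0 :=
    ContinuousAt.comp (g := fderiv ℝ C.r) (f := fun t : ℝ => act b (t • w) P) h1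
      (cont_act b w P).continuousAt
  have h3 : ContinuousAt (fun t : ℝ => act b (t • w) (fderiv ℝ C.p (C.r P) u)) 0 :=
    (cont_act b w _).continuousAt
  have h4 := h2.clm_apply h3
  have h5 : (fun t => dt b C w P t u) =
      fun t : ℝ => fderiv ℝ C.r (act b (t • w) P) (act b (t • w) (fderiv ℝ C.p (C.r P) u)) := by
    funext t
    rw [← actL_apply]
    rfl
  rw [h5]
  exact h4

private theorem dt_zero (C : LChart L) (w : Fin (n + 1) → ℝ) {P : Op n} (hP : P ∈ L ∩ C.U) :
    dt b C w P 0 = ContinuousLinearMap.id ℝ (R n) := by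
  have h0 : act b ((0 : ℝ) • w) P = P := by
    rw [zero_smul, act_zero]
  have h := dt_deriv b C w hP (t := 0) (by rw [h0]; exact hP.2)
  have hb := C.r_mem P hP
  have h1 : (fun x => C.r (act b ((0 : ℝ) • w) (C.p x))) =ᶠ[𝓝 (C.r P)] fun x => x := by
    filter_upwards [Metric.isOpen_ball.mem_nhds hb] with x hx
    rw [zero_smul, act_zero, C.r_p x hx]
  exact h.unique ((hasFDerivAt_id (C.r P)).congr_of_eventuallyEq h1)

private theorem det_T (w : Fin (n + 1) → ℝ) (μ t : ℝ) :
    LinearMap.det ((Complex.exp (-((μ * t : ℝ) : ℂ) * Complex.I) • rot b (t • w) : Op n) :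
      E n →ₗ[ℂ] E n) =
    Complex.exp ((((∑ k, w k) - (n + 1) * μ) * t : ℝ) * Complex.I) := by
  have e : ((Complex.exp (-((μ * t : ℝ) : ℂ) * Complex.I) • rot b (t • w) : Op n) :
      E n →ₗ[ℂ] E n) = Complex.exp (-((μ * t : ℝ) : ℂ) * Complex.I) •
        (rot b (t • w) : E n →ₗ[ℂ] E n) := rfl
  have hf : Module.finrank ℂ (E n) = n + 1 := by simp
  rw [e, LinearMap.det_smul, det_rot, hf, ← Complex.exp_nat_mul, ← Complex.exp_add]
  have hs : ∑ k, (t • w) k = t * ∑ k, w k := by
    simp only [Pi.smul_apply, smul_eq_mul]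
    rw [Finset.mul_sum]
  rw [hs]
  push_cast
  congr 1
  ring

/-- the determinant phase along the flow: D (act (t w) P) = rho exp(i t (sum w - (n+1) mu)) D P.
Proof: flow_lift for the points p x, x near x0 = r P, gives z (tau x) = exp(-i mu t) rot (t w) (z x),
tau x = r (act (t w) (p x)), so det_change applies; det (D tau x0) is continuous in t near 0 and 1 at t = 0
(D tau x0 = Dr (act P) o act o Dp x0), so positive. -/
theorem flow_D (C : LChart L) {w : Fin (n + 1) → ℝ} (hs : Sym b L w) {μ : ℝ}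
    (hμ : ∀ P ∈ L, mom b w P = μ) {P : Op n} (hP : P ∈ L ∩ C.U) :
    ∀ᶠ t in 𝓝 (0 : ℝ), ∃ ρ : ℝ, 0 < ρ ∧ C.D (act b (t • w) P) =
      ρ * Complex.exp ((((∑ k, w k) - (n + 1) * μ) * t : ℝ) * Complex.I) * C.D P := by
  obtain ⟨ε, hε, hfl⟩ := flow_lift b C hs hμ hP
  have hb := C.r_mem P hP
  have hflP := hfl.self_of_nhdsWithin hP.1
  have hpc : Filter.Tendsto C.p (𝓝 (C.r P)) (𝓝[L] P) := by
    refine tendsto_nhdsWithin_iff.2 ⟨?_, ?_⟩
    · have h1 : ContinuousAt C.p (C.r P) :=
        C.smooth_p.continuousOn.continuousAt (Metric.isOpen_ball.mem_nhds hb)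
      have h2 := h1.tendsto
      rw [C.p_r P hP] at h2
      exact h2
    · filter_upwards [Metric.isOpen_ball.mem_nhds hb] with x hx
      exact (C.p_mem x hx).1
  have hev := hpc.eventually hfl
  have hpos : ∀ᶠ t in 𝓝 (0 : ℝ), 0 < (dt b C w P t).det := by
    have h1 : ContinuousAt (fun t => (dt b C w P t).det) 0 :=
      ContinuousLinearMap.continuous_det.continuousAt.comp (dt_cont b C w hP)
    have h2 : 0 < (dt b C w P 0).det := by
      rw [dt_zero b C w hP]
      have h3 : (ContinuousLinearMap.id ℝ (R n)).det = 1 := by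
        show LinearMap.det (LinearMap.id : R n →ₗ[ℝ] R n) = 1
        exact LinearMap.det_id
      rw [h3]
      exact one_pos
    exact h1.eventually (lt_mem_nhds h2)
  have habs : ∀ᶠ t : ℝ in 𝓝 (0 : ℝ), |t| < ε := by
    filter_upwards [Metric.ball_mem_nhds (0 : ℝ) hε] with t ht
    rwa [Metric.mem_ball, Real.dist_eq, sub_zero] at ht
  filter_upwards [hpos, habs] with t ht1 ht2
  obtain ⟨hU, -⟩ := hflP t ht2
  have hQ : act b (t • w) P ∈ L ∩ C.U := ⟨hs t P hP.1, hU⟩
  have hder := dt_deriv b C w hP hU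
  have hzd : DifferentiableAt ℝ C.z (C.r P) :=
    (C.smooth_z.contDiffAt (Metric.isOpen_ball.mem_nhds hb)).differentiableAt one_ne_zero
  have hz1d : DifferentiableAt ℝ C.z ((fun x => C.r (act b (t • w) (C.p x))) (C.r P)) := by
    show DifferentiableAt ℝ C.z (C.r (act b (t • w) (C.p (C.r P))))
    rw [C.p_r P hP]
    exact (C.smooth_z.contDiffAt (Metric.isOpen_ball.mem_nhds (C.r_mem _ hQ))).differentiableAt
      one_ne_zero
  have hT : ∀ᶠ x in 𝓝 (C.r P), C.z ((fun x => C.r (act b (t • w) (C.p x))) x) =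
      (Complex.exp (-((μ * t : ℝ) : ℂ) * Complex.I) • rot b (t • w) : Op n) (C.z x) := by
    filter_upwards [hev, Metric.isOpen_ball.mem_nhds hb] with x hx hxb
    have h1 := (hx t ht2).2
    have h2 : C.Z (C.p x) = C.z x := by
      show C.z (C.r (C.p x)) = C.z x
      rw [C.r_p x hxb]
    rw [h2] at h1
    exact h1
  have hdet := det_change (τ := fun x => C.r (act b (t • w) (C.p x)))
    (Complex.exp (-((μ * t : ℝ) : ℂ) * Complex.I) • rot b (t • w) : Op n)
    hzd hz1d hder.differentiableAt hT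
  rw [hder.fderiv, det_T] at hdet
  have hτP : C.r (act b (t • w) (C.p (C.r P))) = C.r (act b (t • w) P) := by
    rw [C.p_r P hP]
  have hdet2 : C.D (act b (t • w) P) * (((dt b C w P t).det : ℝ) : ℂ) =
      Complex.exp ((((∑ k, w k) - (n + 1) * μ) * t : ℝ) * Complex.I) * C.D P := by
    have h1 : (C.M (C.r (act b (t • w) (C.p (C.r P))))).det * (((dt b C w P t).det : ℝ) : ℂ) =
      Complex.exp ((((∑ k, w k) - (n + 1) * μ) * t : ℝ) * Complex.I) * C.D P := hdet
    rw [hτP] at h1
    exact h1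
  have hd0 : (((dt b C w P t).det : ℝ) : ℂ) ≠ 0 := Complex.ofReal_ne_zero.2 ht1.ne'
  refine ⟨((dt b C w P t).det)⁻¹, inv_pos.2 ht1, ?_⟩
  rw [mul_assoc, ← hdet2, Complex.ofReal_inv, mul_comm (C.D _), ← mul_assoc,
    inv_mul_cancel₀ hd0, one_mul]

end Pool.Agent.H66.SyL
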