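import Mathlib

/-!
MP_b8283b_gt, symmetric Lagrangian rational homology spheres in CP^n.
Definitions. A point of CP^n is the orthogonal projection `pt z` onto a complex line of C^(n+1).
-/

set_option autoImplicit false

open scoped ContDiff Topology

namespace Pool.Agent.H66.SyL

/-- C^(n+1) with its Hermitian inner product. -/
abbrev E (n : ℕ) := EuclideanSpace ℂ (Fin (n + 1))

/-- The linear operators of C^(n+1). -/
abbrev Op (n : ℕ) := E n →L[ℂ] E n

/-- R^n. -/
abbrev R (n : ℕ) := EuclideanSpace ℝ (Fin n)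

/-- For a unit vector z the orthogonal projection onto the line of z: the point [z] of CP^n. -/
noncomputable def pt {n : ℕ} (z : E n) : Op n := (innerSL ℂ z).smulRight z

/-- L is an embedded Lagrangian submanifold (of dimension n, without boundary) of CP^n:
all its elements are points of CP^n, and near each of them L is parametrised by a smooth immersion p
of an open set V of R^n, a homeomorphism onto L cap U with inverse r, U open, with
omega(dp u, dp v) = 0, where omega(X, Y) = Im (Xz, Yz) at [z] is the Fubini-Study form. -/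
def IsLagrangian {n : ℕ} (L : Set (Op n)) : Prop :=
  ∀ P ∈ L, (∃ z : E n, ‖z‖ = 1 ∧ pt z = P) ∧
    ∃ (V : Set (R n)) (U : Set (Op n)) (p : R n → Op n) (r : Op n → R n),
      IsOpen V ∧ IsOpen U ∧ P ∈ U ∧ ContDiffOn ℝ ∞ p V ∧ p '' V = L ∩ U ∧
      ContinuousOn r (L ∩ U) ∧
      ∀ x ∈ V, r (p x) = x ∧ Function.Injective (fderiv ℝ p x) ∧
        ∀ (u v : R n) (z : E n), p x z = z →
          (inner ℂ (fderiv ℝ p x u z) (fderiv ℝ p x v z)).im = 0

/-- H^1(L; R) = 0 (cohomology of the constant sheaf R): functions which are given locally up to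
additive constants come from one function. -/
def H1Zero {X : Type*} [TopologicalSpace X] (L : Set X) : Prop :=
  ∀ ψ : X → X → ℝ,
    (∀ P ∈ L, ∀ᶠ Q in 𝓝[L] P, ∀ᶠ S in 𝓝[L] Q, ψ Q S - ψ Q Q = ψ P S - ψ P Q) →
    ∃ g : X → ℝ, ∀ P ∈ L, ∀ᶠ Q in 𝓝[L] P, g Q - g P = ψ P Q - ψ P P

/-- The unitary operator with eigenvalues exp(i θ_k) in the orthonormal basis b. -/
noncomputable def rot {n : ℕ} (b : OrthonormalBasis (Fin (n + 1)) ℂ (E n))
    (θ : Fin (n + 1) → ℝ) : Op n :=
  ∑ k, Complex.exp ((θ k : ℂ) * Complex.I) • pt (b k)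

/-- The operator with eigenvalues w_k in the orthonormal basis b. -/
noncomputable def ham {n : ℕ} (b : OrthonormalBasis (Fin (n + 1)) ℂ (E n))
    (w : Fin (n + 1) → ℝ) : Op n :=
  ∑ k, ((w k : ℝ) : ℂ) • pt (b k)

/-- The action of the unitary operator rot b θ on operators, P to U P U^(-1). -/
noncomputable def act {n : ℕ} (b : OrthonormalBasis (Fin (n + 1)) ℂ (E n))
    (θ : Fin (n + 1) → ℝ) (P : Op n) : Op n :=
  rot b θ ∘L P ∘L rot b (-θ)

/-- The Hermitian operator with eigenvalues w_k in the basis b is a symmetry of L: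
L is invariant under the isometries exp(i t H) of CP^n. -/
def Sym {n : ℕ} (b : OrthonormalBasis (Fin (n + 1)) ℂ (E n)) (L : Set (Op n))
    (w : Fin (n + 1) → ℝ) : Prop :=
  ∀ t : ℝ, ∀ P ∈ L, act b (t • w) P ∈ L

/-- The mean of the w_k. -/
noncomputable def mean {n : ℕ} (w : Fin (n + 1) → ℝ) : ℝ := (∑ k, w k) / (n + 1)

end Pool.Agent.H66.SyL
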