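import Pool.Agent.H66.SyL.DPa
import Pool.Agent.H66.SyL.Core

/-! The value of the moment map on L is the mean of the eigenvalues. -/

set_option autoImplicit false

open scoped ContDiff Topology

namespace Pool.Agent.H66.SyL

variable {n : ℕ} {L : Set (Op n)} (b : OrthonormalBasis (Fin (n + 1)) ℂ (E n))

private theorem cont_flow (w : Fin (n + 1) → ℝ) (P : Op n) :
    Continuous fun t : ℝ => act b (t • w) P := by
  have h2 : Continuous fun t : ℝ => ((t, P) : ℝ × Op n) := Continuous.prodMk_left P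
  exact Continuous.comp (g := fun q : ℝ × Op n => act b (q.1 • w) q.2)
    (f := fun t : ℝ => ((t, P) : ℝ × Op n)) (continuous_act b w) h2

/-- Proof: a chart C_P for each P in L (exists_lchart), Theta P Q = C_P.D Q, phi t = act (t w); core gives
sum w - (n+1) mu = 0 (CDa: nonzero, continuous; comp_D; flow_D). -/
theorem mom_eq_mean (hL : IsLagrangian L) (hc : IsCompact L) (hne : L.Nonempty) (h1 : H1Zero L)
    {w : Fin (n + 1) → ℝ} (hs : Sym b L w) {μ : ℝ} (hμ : ∀ P ∈ L, mom b w P = μ) :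
    μ = mean w := by
  classical
  have hch : ∀ P : L, ∃ C : LChart L, (P : Op n) ∈ C.U := fun P => exists_lchart hL P.2
  choose C hC using hch
  let Θ : Op n → Op n → ℂ := fun P Q => if h : P ∈ L then (C ⟨P, h⟩).D Q else 1
  have hΘ : ∀ (P : Op n) (h : P ∈ L), Θ P = (C ⟨P, h⟩).D := by
    intro P h
    funext Q
    exact dif_pos h
  have hev : ∀ (P : Op n) (h : P ∈ L), ∀ᶠ Q in 𝓝[L] P, Q ∈ L ∩ (C ⟨P, h⟩).U := by
    intro P h
    have a1 : ∀ᶠ Q in 𝓝[L] P, Q ∈ L := eventually_mem_nhdsWithin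
    have a2 : ∀ᶠ Q in 𝓝[L] P, Q ∈ (C ⟨P, h⟩).U :=
      mem_nhdsWithin_of_mem_nhds ((C ⟨P, h⟩).openU.mem_nhds (hC ⟨P, h⟩))
    exact a1.and a2
  have key : (∑ k, w k) - ((n : ℝ) + 1) * μ = 0 := by
    refine core L hc hne h1 (fun t P => act b (t • w) P) (fun t P hP => hs t P hP) ?_ ?_ ?_ Θ _ ?_ ?_ ?_
    · intro P _
      simp only [zero_smul]
      exact act_zero b P
    · intro s t P _
      simp only [add_smul]
      exact act_add b _ _ P
    · intro P _
      exact cont_flow b w P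
    · intro P hP
      filter_upwards [hev P hP] with Q hQ
      rw [hΘ P hP]
      exact ⟨(C ⟨P, hP⟩).D_ne_zero hQ, ((C ⟨P, hP⟩).continuousAt_D hQ).continuousWithinAt⟩
    · intro P hP
      filter_upwards [hev P hP] with Q hQ
      rw [hΘ P hP, hΘ Q hQ.1]
      exact comp_D (C ⟨P, hP⟩) (C ⟨Q, hQ.1⟩) hQ ⟨hQ.1, hC ⟨Q, hQ.1⟩⟩
    · intro P hP
      rw [hΘ P hP]
      exact flow_D b (C ⟨P, hP⟩) hs hμ ⟨hP, hC ⟨P, hP⟩⟩
  unfold mean
  have hn : ((n : ℝ) + 1) ≠ 0 := by positivity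
  rw [eq_div_iff hn]
  linarith

end Pool.Agent.H66.SyL
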