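import Pool.Agent.H66.SyL.Alg

/-! Linear algebra for fixed points. -/

set_option autoImplicit false

open scoped ContDiff Topology

namespace Pool.Agent.H66.SyL

variable {n : ℕ} (b : OrthonormalBasis (Fin (n + 1)) ℂ (E n))

private theorem fixA_ham_basis (a : Fin (n + 1) → ℝ) (k : Fin (n + 1)) :
    ham b a (b k) = ((a k : ℝ) : ℂ) • b k := by
  have h : ∀ j : Fin (n + 1), (((a j : ℝ) : ℂ) • pt (b j)) (b k) =
      if j = k then ((a k : ℝ) : ℂ) • b k else 0 := by
    intro j
    have h1 : (pt (b j)) (b k) = (inner ℂ (b j) (b k) : ℂ) • b j := by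
      simp [pt]
    rw [smul_apply, h1]
    by_cases hjk : j = k
    · subst hjk
      simp
    · rw [if_neg hjk, b.inner_eq_zero hjk]
      simp
  unfold ham
  rw [sum_apply, Finset.sum_congr rfl fun j _ => h j]
  simp

private theorem fixA_matrix_b (a : Fin (n + 1) → ℝ) :
    LinearMap.toMatrix b.toBasis b.toBasis (ham b a : E n →ₗ[ℂ] E n) =
      Matrix.diagonal fun k => ((a k : ℝ) : ℂ) := by
  ext i j
  rw [LinearMap.toMatrix_apply]
  have h : (ham b a : E n →ₗ[ℂ] E n) (b.toBasis j) = ((a j : ℝ) : ℂ) • b.toBasis j := by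
    rw [OrthonormalBasis.coe_toBasis]
    exact fixA_ham_basis b a j
  rw [h, map_smul, Module.Basis.repr_self]
  by_cases hij : i = j
  · subst hij
    simp
  · rw [Matrix.diagonal_apply_ne _ hij]
    simp [Ne.symm hij]

private theorem fixA_trace_map (X : Matrix (Fin (n + 1)) (Fin (n + 1)) ℝ) :
    Matrix.trace (Complex.ofRealHom.mapMatrix X) = ((Matrix.trace X : ℝ) : ℂ) := by
  simp [Matrix.trace]

/-- Linear algebra: A self-adjoint with eigenvalues a_k in the basis b, A z = 0, v : Fin n -> E n such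
that (z, v) is a basis of E n over C and i A v_j is a real linear combination of the v_k: then
sum a_k = 0 and sum a_k^3 = 0. Proof: the matrix of A in the basis (z, v) is -i B with B real,
so the traces of A and A^3 are purely imaginary; they are the real numbers sum a_k, sum a_k^3. -/
theorem trace_lemma (a : Fin (n + 1) → ℝ) (z : E n) (v : Fin n → E n) (hz : ham b a z = 0)
    (hli : LinearIndependent ℂ (Fin.cons z v : Fin (n + 1) → E n))
    (B : Matrix (Fin n) (Fin n) ℝ)
    (hB : ∀ j, Complex.I • ham b a (v j) = ∑ k, ((B k j : ℝ) : ℂ) • v k) :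
    ∑ k, a k = 0 ∧ ∑ k, a k ^ 3 = 0 := by
  set A : E n →ₗ[ℂ] E n := (ham b a : E n →ₗ[ℂ] E n) with hA
  let c := basisOfLinearIndependentOfCardEqFinrank hli (by simp)
  have hc : ∀ i, c i = (Fin.cons z v : Fin (n + 1) → E n) i := fun i => by
    rw [coe_basisOfLinearIndependentOfCardEqFinrank]
  let N : Matrix (Fin (n + 1)) (Fin (n + 1)) ℝ := fun i j =>
    Fin.cases 0 (fun i' => Fin.cases 0 (fun j' => B i' j') j) i
  have hAv : ∀ j, A (v j) = ∑ k, (-Complex.I * ((B k j : ℝ) : ℂ)) • v k := by
    intro j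
    have h1 : A (v j) = (-Complex.I) • (Complex.I • ham b a (v j)) := by
      rw [smul_smul]
      have : -Complex.I * Complex.I = 1 := by
        rw [neg_mul, Complex.I_mul_I, neg_neg]
      rw [this, one_smul]
      rfl
    rw [h1, hB, Finset.smul_sum]
    refine Finset.sum_congr rfl fun k _ => ?_
    rw [smul_smul]
  have hN : ∀ i j, (Complex.ofRealHom.mapMatrix N) i j = ((N i j : ℝ) : ℂ) := fun _ _ => rfl
  have hN00 : N 0 0 = 0 := rfl
  have hNs0 : ∀ i' : Fin n, N i'.succ 0 = 0 := fun _ => rfl
  have hN0s : ∀ j' : Fin n, N 0 j'.succ = 0 := fun _ => rfl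
  have hNss : ∀ i' j' : Fin n, N i'.succ j'.succ = B i' j' := fun _ _ => rfl
  have hM : LinearMap.toMatrix c c A = (-Complex.I) • Complex.ofRealHom.mapMatrix N := by
    ext i j
    rw [LinearMap.toMatrix_apply, hc]
    refine Fin.cases ?_ (fun j' => ?_) j
    · have h0 : A ((Fin.cons z v : Fin (n + 1) → E n) 0) = 0 := by
        rw [Fin.cons_zero]
        exact hz
      rw [h0, map_zero]
      refine Fin.cases ?_ (fun i' => ?_) i
      · rw [Matrix.smul_apply, hN, hN00]
        simp
      · rw [Matrix.smul_apply, hN, hNs0]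
        simp
    · rw [Fin.cons_succ, hAv, map_sum]
      have h2 : ∀ k : Fin n, c.repr ((-Complex.I * ((B k j' : ℝ) : ℂ)) • v k) =
          (-Complex.I * ((B k j' : ℝ) : ℂ)) • Finsupp.single k.succ 1 := by
        intro k
        have h3 : v k = c k.succ := by rw [hc, Fin.cons_succ]
        rw [map_smul, h3, Module.Basis.repr_self]
      rw [Finset.sum_congr rfl fun k _ => h2 k, Finsupp.finsetSum_apply]
      refine Fin.cases ?_ (fun i' => ?_) i
      · rw [Matrix.smul_apply, hN, hN0s]
        simp
      · rw [Finset.sum_eq_single i', Matrix.smul_apply, hN, hNss]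
        · simp
        · intro k _ hk
          have : k.succ ≠ i'.succ := fun h => hk (Fin.succ_injective _ h)
          simp [this]
        · intro h
          exact absurd (Finset.mem_univ _) h
  have ht1 : ((∑ k, a k : ℝ) : ℂ) = -Complex.I * ((Matrix.trace N : ℝ) : ℂ) := by
    have h1 := LinearMap.trace_eq_matrix_trace ℂ b.toBasis A
    have h2 := LinearMap.trace_eq_matrix_trace ℂ c A
    rw [h1, hA, fixA_matrix_b, Matrix.trace_diagonal] at h2
    rw [← hA, hM, Matrix.trace_smul, fixA_trace_map, smul_eq_mul] at h2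
    rw [← h2]
    push_cast
    rfl
  have ht3 : ((∑ k, a k ^ 3 : ℝ) : ℂ) = Complex.I * ((Matrix.trace (N ^ 3) : ℝ) : ℂ) := by
    have h1 := LinearMap.trace_eq_matrix_trace ℂ b.toBasis (A ^ 3)
    have h2 := LinearMap.trace_eq_matrix_trace ℂ c (A ^ 3)
    rw [h1, ← LinearMap.toMatrix_pow, ← LinearMap.toMatrix_pow] at h2
    rw [hA, fixA_matrix_b, Matrix.diagonal_pow, Matrix.trace_diagonal] at h2
    rw [← hA, hM, smul_pow, ← map_pow, Matrix.trace_smul, fixA_trace_map, smul_eq_mul] at h2
    have hI : (-Complex.I) ^ 3 = Complex.I := by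
      have : (-Complex.I) ^ 3 = -(Complex.I * Complex.I) * Complex.I := by ring
      rw [this, Complex.I_mul_I, neg_neg, one_mul]
    rw [hI] at h2
    rw [← h2]
    push_cast
    rfl
  constructor
  · have := congrArg Complex.re ht1
    simpa using this
  · have := congrArg Complex.re ht3
    rw [Complex.ofReal_re] at this
    simpa using this

end Pool.Agent.H66.SyL
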