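import Pool.Agent.H66.SyL.MomA
import Pool.Agent.H66.SyL.CDa
import Pool.Agent.H66.SyL.FixA

/-! Fixed points of the flow on L. -/

set_option autoImplicit false

open scoped ContDiff Topology

namespace Pool.Agent.H66.SyL

variable {n : ℕ} {L : Set (Op n)} (b : OrthonormalBasis (Fin (n + 1)) ℂ (E n))

private theorem ham_shift (w : Fin (n + 1) → ℝ) (μ : ℝ) (v : E n) :
    ham b (fun k => w k - μ) v = ham b w v - (μ : ℂ) • v := by
  apply b.repr.injective
  ext k
  rw [b.repr_apply_apply, b.repr_apply_apply, coord_ham, inner_sub_right, coord_ham,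
    inner_smul_right]
  push_cast
  ring

private theorem act_clm (θ : Fin (n + 1) → ℝ) :
    ∃ A : Op n →L[ℝ] Op n, ∀ P, A P = act b θ P := by
  let A1 : Op n →L[ℂ] Op n := (ContinuousLinearMap.compL ℂ (E n) (E n) (E n)) (rot b θ)
  let A2 : Op n →L[ℂ] Op n :=
    ((ContinuousLinearMap.compL ℂ (E n) (E n) (E n)).flip) (rot b (-θ))
  refine ⟨(A1.comp A2).restrictScalars ℝ, fun P => ?_⟩
  rfl

private theorem single_sum (y : R n) :
    y = ∑ k : Fin n, y k • (EuclideanSpace.single k (1 : ℝ) : R n) := by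
  ext i
  simp [Finset.sum_apply, Pi.single_apply]

/-- the derivative of a curve in a closed subspace lies in the subspace -/
private theorem deriv_mem {F : Type*} [NormedAddCommGroup F] [NormedSpace ℝ F]
    (S : Submodule ℝ F) (hS : IsClosed (S : Set F)) {f : ℝ → F} {f' : F} {t : ℝ}
    (hf : HasDerivAt f f' t) (hm : ∀ s, f s ∈ S) : f' ∈ S := by
  have h1 := hasDerivAt_iff_tendsto_slope.1 hf
  refine hS.mem_of_tendsto h1 (Filter.Eventually.of_forall fun s => ?_)
  show slope f t s ∈ S
  rw [slope_def_module]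
  exact S.smul_mem _ (S.sub_mem (hm s) (hm t))

/-- P in L fixed by all act (t w): with z a unit vector of P, H z = mu z, and the tangent space
T = range Dz is invariant under i (H - mu). Proof: for X = Dp u in the tangent space of L at P the
curve s -> act (t w) (p (x0 + s u)) lies in L and passes P, so act (t w) X is in range (Dp) (curve_deriv);
derivative in t (range Dp is a closed subspace): i [H, X] = Dp y; apply to z: i (H - mu) X z = Dp y z. -/
theorem fixed_sum (hL : IsLagrangian L) {w : Fin (n + 1) → ℝ} (hs : Sym b L w) {μ : ℝ}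
    {P : Op n} (hP : P ∈ L) (hμ : mom b w P = μ) (hfix : ∀ t : ℝ, act b (t • w) P = P) :
    ∑ k, (w k - μ) = 0 ∧ ∑ k, (w k - μ) ^ 3 = 0 := by
  obtain ⟨C, hC⟩ := exists_lchart hL hP
  have hPU : P ∈ L ∩ C.U := ⟨hP, hC⟩
  set x := C.r P with hxdef
  have hx : x ∈ Metric.ball C.x0 C.δ := C.r_mem P hPU
  have hpx : C.p x = P := C.p_r P hPU
  have hz1 : ‖C.z x‖ = 1 := C.norm_z x hx
  have hptz : pt (C.z x) = P := by rw [C.pt_z x hx, hpx]
  have hzz : P (C.z x) = C.z x := by rw [← hptz]; exact pt_self hz1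
  -- H z = mu z
  have hHz : ham b w (C.z x) = (μ : ℂ) • C.z x := by
    have h0 : act b ((0 : ℝ) • w) P = P := hfix 0
    have hd := hasDerivAt_act b w P 0
    rw [h0] at hd
    have hc : (fun t : ℝ => act b (t • w) P) = fun _ => P := funext hfix
    rw [hc] at hd
    have h1 := hd.unique (hasDerivAt_const (0 : ℝ) P)
    have h2 := congrArg (fun A : Op n => A (C.z x)) h1
    have h3 : Complex.I • (ham b w (P (C.z x)) - P (ham b w (C.z x))) = 0 := h2
    have h4 : ham b w (C.z x) - P (ham b w (C.z x)) = 0 := by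
      rw [hzz] at h3
      exact (smul_eq_zero.1 h3).resolve_left Complex.I_ne_zero
    have h5 : ham b w (C.z x) = inner ℂ (C.z x) (ham b w (C.z x)) • C.z x := by
      have h6 := sub_eq_zero.1 h4
      rw [← hptz, pt_apply] at h6
      exact h6
    have h7 : inner ℂ (C.z x) (ham b w (C.z x)) = (μ : ℂ) := by
      rw [inner_ham_self, ← mom_pt, hptz, hμ]
    rw [h5, h7]
  obtain ⟨-, -, h3, -, -⟩ := lift_deriv C.smooth_p C.smooth_z
    (fun x hx => ⟨C.norm_z x hx, C.pt_z x hx⟩) hx
  have hDp : ∀ u, fderiv ℝ C.p x u (C.z x) = fderiv ℝ C.z x u := by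
    intro u
    have := h3 u
    rw [C.leg x hx u, zero_smul, add_zero] at this
    exact this.symm
  -- the tangent space is invariant
  have hrange : ∀ (u : R n) (t : ℝ), act b (t • w) (fderiv ℝ C.p x u) ∈
      LinearMap.range (fderiv ℝ C.p x : R n →ₗ[ℝ] Op n) := by
    intro u t
    obtain ⟨A, hA⟩ := act_clm b (t • w)
    have hp : HasFDerivAt C.p (fderiv ℝ C.p x) x :=
      ((C.smooth_p.contDiffAt (Metric.isOpen_ball.mem_nhds hx)).differentiableAt
        (by norm_num)).hasFDerivAt
    have hline : HasDerivAt (fun s : ℝ => x + s • u) u 0 := by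
      have := ((hasDerivAt_id (0 : ℝ)).smul_const u).const_add x
      simpa using this
    have hp0 : HasFDerivAt C.p (fderiv ℝ C.p x) (x + (0 : ℝ) • u) := by
      rw [zero_smul, add_zero]; exact hp
    have hcurve : HasDerivAt (fun s : ℝ => C.p (x + s • u)) (fderiv ℝ C.p x u) 0 :=
      hp0.comp_hasDerivAt (0 : ℝ) hline
    have hg : HasDerivAt (fun s : ℝ => act b (t • w) (C.p (x + s • u)))
        (act b (t • w) (fderiv ℝ C.p x u)) 0 := by
      have h := A.hasFDerivAt.comp_hasDerivAt (0 : ℝ) hcurve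
      rw [← hA]
      refine h.congr_of_eventuallyEq (Filter.Eventually.of_forall fun s => ?_)
      exact (hA _).symm
    have hev : ∀ᶠ s in 𝓝 (0 : ℝ), x + s • u ∈ Metric.ball C.x0 C.δ := by
      have hcont : ContinuousAt (fun s : ℝ => x + s • u) 0 := hline.continuousAt
      refine hcont.eventually_mem (Metric.isOpen_ball.mem_nhds ?_)
      rw [zero_smul, add_zero]; exact hx
    have hgL : ∀ᶠ s in 𝓝 (0 : ℝ), act b (t • w) (C.p (x + s • u)) ∈ L := by
      filter_upwards [hev] with s hs'
      exact hs t _ (C.p_mem _ hs').1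
    have hg0 : act b (t • w) (C.p (x + (0 : ℝ) • u)) = P := by
      rw [zero_smul, add_zero, hpx, hfix]
    obtain ⟨y, -, hy, -⟩ := curve_deriv C
      (g := fun s : ℝ => act b (t • w) (C.p (x + s • u))) (t0 := 0) hgL (by
        show act b (t • w) (C.p (x + (0 : ℝ) • u)) ∈ C.U
        rw [hg0]; exact hC) hg
    refine ⟨y, ?_⟩
    show fderiv ℝ C.p x y = _
    rw [hy]
    show _ = fderiv ℝ C.p (C.r (act b (t • w) (C.p (x + (0 : ℝ) • u)))) y
    rw [hg0]
  have hbr : ∀ u : R n, ∃ y : R n, Complex.I • (ham b (fun k => w k - μ) (fderiv ℝ C.z x u)) =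
      fderiv ℝ C.z x y := by
    intro u
    have hd := hasDerivAt_act b w (fderiv ℝ C.p x u) 0
    have h0 : act b ((0 : ℝ) • w) (fderiv ℝ C.p x u) = fderiv ℝ C.p x u := by
      rw [zero_smul, act_zero]
    rw [h0] at hd
    have hcl : IsClosed ((LinearMap.range (fderiv ℝ C.p x : R n →ₗ[ℝ] Op n) :
        Submodule ℝ (Op n)) : Set (Op n)) := Submodule.closed_of_finiteDimensional _
    obtain ⟨y, hy⟩ := deriv_mem _ hcl hd (fun s => hrange u s)
    refine ⟨y, ?_⟩
    have hy2 : fderiv ℝ C.p x y =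
      Complex.I • (ham b w ∘L fderiv ℝ C.p x u - fderiv ℝ C.p x u ∘L ham b w) := hy
    rw [← hDp y, hy2]
    show _ = Complex.I • (ham b w (fderiv ℝ C.p x u (C.z x)) -
      fderiv ℝ C.p x u (ham b w (C.z x)))
    rw [hHz, map_smul, hDp, ham_shift]
  choose Y hY using hbr
  refine trace_lemma b (fun k => w k - μ) (C.z x)
    (fun k : Fin n => fderiv ℝ C.z x (EuclideanSpace.single k 1)) ?_ (C.linInd hx)
    (Matrix.of fun k j => Y (EuclideanSpace.single j 1) k) ?_
  · rw [ham_shift, hHz, sub_self]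
  · intro j
    rw [hY]
    conv_lhs => rw [single_sum (Y (EuclideanSpace.single j 1)), map_sum]
    refine Finset.sum_congr rfl fun k _ => ?_
    rw [map_smul]
    rfl

end Pool.Agent.H66.SyL
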