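import Pool.Agent.H66.SyL.Alg

/-! Unit lifts of a chart and their derivatives. -/

set_option autoImplicit false

open scoped ContDiff Topology

namespace Pool.Agent.H66.SyL

variable {n : ℕ}

private theorem along {G : Type*} [NormedAddCommGroup G] [NormedSpace ℝ G] {f : R n → G} {x u : R n}
    (hf : DifferentiableAt ℝ f x) : HasDerivAt (fun t : ℝ => f (x + t • u)) (fderiv ℝ f x u) 0 := by
  have h1 : HasDerivAt (fun t : ℝ => x + t • u) u 0 := by
    simpa using ((hasDerivAt_id (0 : ℝ)).smul_const u).const_add x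
  have hf' : HasFDerivAt f (fderiv ℝ f x) (x + (0 : ℝ) • u) := by simpa using hf.hasFDerivAt
  exact hf'.comp_hasDerivAt 0 h1

private theorem ev_ball {x0 : R n} {δ : ℝ} {x : R n} (hx : x ∈ Metric.ball x0 δ) (u : R n) :
    ∀ᶠ t : ℝ in 𝓝 0, x + t • u ∈ Metric.ball x0 δ := by
  have h1 : ContinuousAt (fun t : ℝ => x + t • u) 0 := by fun_prop
  have h2 : Metric.ball x0 δ ∈ 𝓝 (x + (0 : ℝ) • u) := by
    rw [zero_smul, add_zero]
    exact Metric.isOpen_ball.mem_nhds hx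
  exact h1.eventually h2

/-- A smooth unit lift near x0: sigma x = p x z0 / |p x z0|, where P z0 = z0. -/
theorem exists_lift {p : R n → Op n} {x0 : R n} {δ : ℝ} (hδ : 0 < δ)
    (hp : ContDiffOn ℝ ∞ p (Metric.ball x0 δ))
    (hpt : ∀ x ∈ Metric.ball x0 δ, ∃ y : E n, ‖y‖ = 1 ∧ pt y = p x) :
    ∃ (δ' : ℝ) (σ : R n → E n), 0 < δ' ∧ δ' ≤ δ ∧ ContDiffOn ℝ ∞ σ (Metric.ball x0 δ') ∧
      ∀ x ∈ Metric.ball x0 δ', ‖σ x‖ = 1 ∧ pt (σ x) = p x := by
  obtain ⟨z0, hz0, hP0⟩ := hpt x0 (Metric.mem_ball_self hδ)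
  obtain ⟨g, hg⟩ : ∃ g : R n → E n, g = fun x => p x z0 := ⟨_, rfl⟩
  have hgs : ContDiffOn ℝ ∞ g (Metric.ball x0 δ) := by
    rw [hg]
    exact ((ContinuousLinearMap.apply ℂ (E n) z0).restrictScalars ℝ).contDiff.comp_contDiffOn hp
  have hg0 : g x0 = z0 := by rw [hg]; show p x0 z0 = z0; rw [← hP0, pt_self hz0]
  have hcont : ContinuousAt g x0 := hgs.continuousOn.continuousAt (Metric.isOpen_ball.mem_nhds (Metric.mem_ball_self hδ))
  have hz0' : z0 ≠ 0 := by
    intro h; rw [h, norm_zero] at hz0; exact zero_ne_one hz0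
  have hne : ∀ᶠ x in 𝓝 x0, g x ≠ 0 := hcont.eventually_ne (by rw [hg0]; exact hz0')
  obtain ⟨ε, hε, hball⟩ := Metric.eventually_nhds_iff_ball.1 hne
  refine ⟨min δ ε, fun x => ‖g x‖⁻¹ • g x, lt_min hδ hε, min_le_left _ _, ?_, ?_⟩
  · have hgs' : ContDiffOn ℝ ∞ g (Metric.ball x0 (min δ ε)) := hgs.mono (Metric.ball_subset_ball (min_le_left _ _))
    have hne' : ∀ x ∈ Metric.ball x0 (min δ ε), g x ≠ 0 := fun x hx => hball x (Metric.ball_subset_ball (min_le_right _ _) hx)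
    exact ((hgs'.norm ℂ hne').inv (fun x hx => norm_ne_zero_iff.2 (hne' x hx))).smul hgs'
  · intro x hx
    have hgx : g x ≠ 0 := hball x (Metric.ball_subset_ball (min_le_right _ _) hx)
    obtain ⟨y, hy, hyp⟩ := hpt x (Metric.ball_subset_ball (min_le_left _ _) hx)
    have hn : ‖‖g x‖⁻¹ • g x‖ = 1 := by
      rw [norm_smul, norm_inv, norm_norm, inv_mul_cancel₀ (norm_ne_zero_iff.2 hgx)]
    refine ⟨hn, ?_⟩
    have h1 : g x = inner ℂ y z0 • y := by
      rw [hg]
      show p x z0 = _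
      rw [← hyp, pt_apply]
    have h2 : ‖g x‖⁻¹ • g x = (((‖g x‖⁻¹ : ℝ) : ℂ) * inner ℂ y z0) • y := by
      conv_lhs => rw [h1]
      rw [mul_smul, ← h1]
      exact (Complex.coe_smul _ _).symm
    have h3 : ‖((‖g x‖⁻¹ : ℝ) : ℂ) * inner ℂ y z0‖ = 1 := by
      have := hn
      rw [h2, norm_smul, hy, mul_one] at this
      exact this
    show pt (‖g x‖⁻¹ • g x) = p x
    rw [h2, pt_smul h3, hyp]

/-- For a unit lift sigma of p: D sigma u = (Dp u) sigma + i a(u) sigma, a(u) = Im (sigma, D sigma u),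
(Dp u) sigma orthogonal to sigma; so Im (D sigma u, D sigma v) = Im ((Dp u) sigma, (Dp v) sigma). -/
theorem lift_deriv {p : R n → Op n} {σ : R n → E n} {x0 : R n} {δ : ℝ}
    (hp : ContDiffOn ℝ 1 p (Metric.ball x0 δ)) (hσ : ContDiffOn ℝ 1 σ (Metric.ball x0 δ))
    (hn : ∀ x ∈ Metric.ball x0 δ, ‖σ x‖ = 1 ∧ pt (σ x) = p x)
    {x : R n} (hx : x ∈ Metric.ball x0 δ) :
    (∀ u, (inner ℂ (σ x) (fderiv ℝ σ x u)).re = 0) ∧
    (∀ u, inner ℂ (σ x) (fderiv ℝ p x u (σ x)) = 0) ∧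
    (∀ u, fderiv ℝ σ x u = fderiv ℝ p x u (σ x) + inner ℂ (σ x) (fderiv ℝ σ x u) • σ x) ∧
    (∀ u v, (inner ℂ (fderiv ℝ σ x u) (fderiv ℝ σ x v)).im =
      (inner ℂ (fderiv ℝ p x u (σ x)) (fderiv ℝ p x v (σ x))).im) ∧
    (∀ u, fderiv ℝ p x u (σ x) = 0 → fderiv ℝ p x u = 0) := by
  have hmem : Metric.ball x0 δ ∈ 𝓝 x := Metric.isOpen_ball.mem_nhds hx
  have hpd : DifferentiableAt ℝ p x := (hp.contDiffAt hmem).differentiableAt one_ne_zero
  have hσd : DifferentiableAt ℝ σ x := (hσ.contDiffAt hmem).differentiableAt one_ne_zero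
  have hss : inner ℂ (σ x) (σ x) = 1 := by
    rw [inner_self_eq_norm_sq_to_K, (hn x hx).1]
    simp
  -- the real part
  have hre : ∀ u, (inner ℂ (σ x) (fderiv ℝ σ x u)).re = 0 := by
    intro u
    have h1 := (along (u := u) hσd).inner ℂ (along (u := u) hσd)
    have h2 : (fun t : ℝ => inner ℂ (σ (x + t • u)) (σ (x + t • u))) =ᶠ[𝓝 0] fun _ => (1 : ℂ) := by
      filter_upwards [ev_ball hx u] with t ht
      rw [inner_self_eq_norm_sq_to_K, (hn _ ht).1]
      simp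
    have h3 := h1.unique ((hasDerivAt_const (0 : ℝ) (1 : ℂ)).congr_of_eventuallyEq h2)
    rw [zero_smul, add_zero] at h3
    have h4 := congrArg Complex.re h3
    rw [Complex.add_re, ← inner_conj_symm (fderiv ℝ σ x u) (σ x), Complex.conj_re, Complex.zero_re] at h4
    linarith
  have hconj : ∀ u, inner ℂ (fderiv ℝ σ x u) (σ x) = -inner ℂ (σ x) (fderiv ℝ σ x u) := by
    intro u
    rw [← inner_conj_symm (fderiv ℝ σ x u) (σ x)]
    apply Complex.ext
    · rw [Complex.conj_re, Complex.neg_re, hre u]; simp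
    · rw [Complex.conj_im, Complex.neg_im]
  -- the derivative of p
  have hP : ∀ u v, fderiv ℝ p x u v = inner ℂ (σ x) v • fderiv ℝ σ x u + inner ℂ (fderiv ℝ σ x u) v • σ x := by
    intro u v
    have h1 : HasDerivAt (fun t : ℝ => p (x + t • u) v) (fderiv ℝ p x u v) 0 :=
      ((ContinuousLinearMap.apply ℂ (E n) v).restrictScalars ℝ).hasFDerivAt.comp_hasDerivAt 0 (along (u := u) hpd)
    have h2 := (along (u := u) hσd).inner ℂ (hasDerivAt_const (0 : ℝ) v)
    have h3 := h2.smul (along (u := u) hσd)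
    have h4 : (fun t : ℝ => p (x + t • u) v) =ᶠ[𝓝 0] fun t : ℝ => inner ℂ (σ (x + t • u)) v • σ (x + t • u) := by
      filter_upwards [ev_ball hx u] with t ht
      rw [← (hn _ ht).2, pt_apply]
    have h5 := h1.unique (h3.congr_of_eventuallyEq h4)
    rw [h5]
    simp
  have h3 : ∀ u, fderiv ℝ σ x u = fderiv ℝ p x u (σ x) + inner ℂ (σ x) (fderiv ℝ σ x u) • σ x := by
    intro u
    rw [hP u (σ x), hss, one_smul, hconj u, neg_smul]
    abel
  have h2 : ∀ u, inner ℂ (σ x) (fderiv ℝ p x u (σ x)) = 0 := by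
    intro u
    rw [hP u (σ x), hss, one_smul, hconj u, inner_add_right, inner_smul_right, hss]
    ring
  refine ⟨hre, h2, h3, ?_, ?_⟩
  · intro u v
    have e1 : inner ℂ (fderiv ℝ p x u (σ x)) (σ x) = 0 := by
      rw [← inner_conj_symm, h2 u, map_zero]
    conv_lhs => rw [h3 u, h3 v]
    rw [inner_add_left, inner_add_right, inner_add_right, inner_smul_left, inner_smul_left, inner_smul_right, inner_smul_right,
      e1, h2 v, hss]
    have a1 := hre u
    have a2 := hre v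
    simp only [Complex.add_im, Complex.mul_im, Complex.mul_re, Complex.conj_re, Complex.conj_im, Complex.zero_im, Complex.zero_re,
      Complex.one_re, Complex.one_im, a1, a2]
    ring
  · intro u hu
    have e1 := h3 u
    rw [hu, zero_add] at e1
    refine ContinuousLinearMap.ext fun v => ?_
    rw [hP u v, e1, inner_smul_left]
    have e2 : (starRingEnd ℂ) (inner ℂ (σ x) (fderiv ℝ σ x u)) = -inner ℂ (σ x) (fderiv ℝ σ x u) := by
      rw [inner_conj_symm]; exact hconj u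
    rw [e2]
    simp only [ContinuousLinearMap.zero_apply, smul_smul, ← add_smul]
    have : inner ℂ (σ x) v * inner ℂ (σ x) (fderiv ℝ σ x u) + -inner ℂ (σ x) (fderiv ℝ σ x u) * inner ℂ (σ x) v = 0 := by ring
    rw [this, zero_smul]

end Pool.Agent.H66.SyL
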