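import Pool.Agent.H66.SyL.MomB

/-! The flow of the horizontal lifts. -/

set_option autoImplicit false

open scoped ContDiff Topology

namespace Pool.Agent.H66.SyL

variable {n : ℕ} {L : Set (Op n)} (b : OrthonormalBasis (Fin (n + 1)) ℂ (E n))

/-- the flow stays in the chart for a short time -/
private theorem stay (C : LChart L) (w : Fin (n + 1) → ℝ) {P : Op n} (hP : P ∈ C.U) :
    ∃ ε > 0, ∀ᶠ Q in 𝓝 P, ∀ t : ℝ, |t| < ε → act b (t • w) Q ∈ C.U := by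
  have h := (continuous_act b w).continuousAt (x := ((0 : ℝ), P))
  have h1 : act b ((0 : ℝ) • w) P ∈ C.U := by
    rw [zero_smul, act_zero]
    exact hP
  have h2 : ∀ᶠ q in 𝓝 ((0 : ℝ), P), act b (q.1 • w) q.2 ∈ C.U :=
    h.eventually_mem (C.openU.mem_nhds h1)
  rw [nhds_prod_eq, Filter.eventually_prod_iff] at h2
  obtain ⟨pa, hpa, pb, hpb, hab⟩ := h2
  obtain ⟨ε, hε, hball⟩ := Metric.eventually_nhds_iff.1 hpa
  refine ⟨ε, hε, ?_⟩
  filter_upwards [hpb] with Q hQ t ht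
  exact hab (hball (by rw [Real.dist_eq, sub_zero]; exact ht)) hQ

/-- the phase kappa(t) = (rot (t w) (Z Q), Z (act (t w) Q)) -/
private noncomputable def kap (C : LChart L) (w : Fin (n + 1) → ℝ) (Q : Op n) (t : ℝ) : ℂ :=
  inner ℂ (rot b (t • w) (C.Z Q)) (C.Z (act b (t • w) Q))

private theorem kap_props (C : LChart L) {w : Fin (n + 1) → ℝ} (hs : Sym b L w) {Q : Op n}
    (hQ : Q ∈ L ∩ C.U) {t : ℝ} (ht : act b (t • w) Q ∈ C.U) :
    ‖kap b C w Q t‖ = 1 ∧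
      C.Z (act b (t • w) Q) = kap b C w Q t • rot b (t • w) (C.Z Q) := by
  obtain ⟨hn, hp⟩ := C.Z_props hQ
  obtain ⟨hn', hp'⟩ := C.Z_props (Q := act b (t • w) Q) ⟨hs t Q hQ.1, ht⟩
  refine exists_phase (by rw [norm_rot]; exact hn) hn' ?_
  rw [hp', ← act_pt, hp]

private theorem kap_deriv (C : LChart L) {w : Fin (n + 1) → ℝ} (hs : Sym b L w) {μ : ℝ}
    (hμ : ∀ P ∈ L, mom b w P = μ) {Q : Op n} (hQ : Q ∈ L ∩ C.U) {t : ℝ}
    (ht : act b (t • w) Q ∈ C.U) :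
    HasDerivAt (kap b C w Q) (-(Complex.I * μ * kap b C w Q t)) t := by
  have hL : act b (t • w) Q ∈ L := hs t Q hQ.1
  obtain ⟨hn, hp⟩ := C.Z_props hQ
  obtain ⟨hk1, hk2⟩ := kap_props b C hs hQ ht
  obtain ⟨y, -, -, hz⟩ := curve_deriv C (g := fun t : ℝ => act b (t • w) Q) (t0 := t)
    (Filter.Eventually.of_forall fun s => hs s Q hQ.1) ht (hasDerivAt_act b w Q t)
  have hball : C.r (act b (t • w) Q) ∈ Metric.ball C.x0 C.δ := C.r_mem _ ⟨hL, ht⟩
  have hleg : inner ℂ (C.Z (act b (t • w) Q))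
      (fderiv ℝ C.z (C.r (act b (t • w) Q)) y) = 0 := C.leg _ hball y
  have hr := hasDerivAt_rot b w (C.Z Q) t
  have hd := hr.inner ℂ hz
  have hk0 : kap b C w Q t ≠ 0 := by
    intro h0
    rw [h0, norm_zero] at hk1
    exact zero_ne_one hk1
  have h1 : inner ℂ (rot b (t • w) (C.Z Q)) (fderiv ℝ C.z (C.r (act b (t • w) Q)) y) = 0 := by
    rw [hk2, inner_smul_left] at hleg
    rcases mul_eq_zero.1 hleg with h | h
    · exact absurd ((map_eq_zero _).1 h) hk0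
    · exact h
  have hm : inner ℂ (rot b (t • w) (C.Z Q)) (ham b w (rot b (t • w) (C.Z Q))) = (μ : ℂ) := by
    rw [inner_ham_self, ← mom_pt, ← act_pt, hp, hμ _ hL]
  have h2 : inner ℂ (Complex.I • ham b w (rot b (t • w) (C.Z Q))) (C.Z (act b (t • w) Q)) =
      -(Complex.I * μ * kap b C w Q t) := by
    rw [inner_smul_left, Complex.conj_I]
    conv_lhs => rw [hk2]
    rw [inner_smul_right, inner_ham, hm]
    ring
  refine HasDerivAt.congr_deriv hd ?_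
  rw [← h2]
  show inner ℂ (rot b (t • w) (C.Z Q)) (fderiv ℝ C.z (C.r (act b (t • w) Q)) y) + _ = _
  rw [h1, zero_add]

private theorem kap_eq (C : LChart L) {w : Fin (n + 1) → ℝ} (hs : Sym b L w) {μ : ℝ}
    (hμ : ∀ P ∈ L, mom b w P = μ) {Q : Op n} (hQ : Q ∈ L ∩ C.U) {ε : ℝ}
    (hε : ∀ t : ℝ, |t| < ε → act b (t • w) Q ∈ C.U) {t : ℝ} (ht : |t| < ε) :
    kap b C w Q t = Complex.exp (-((μ * t : ℝ) : ℂ) * Complex.I) := by
  obtain ⟨hn, hp⟩ := C.Z_props hQ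
  have he : ∀ s : ℝ, HasDerivAt (fun s : ℝ => Complex.exp (((μ * s : ℝ) : ℂ) * Complex.I))
      (Complex.exp (((μ * s : ℝ) : ℂ) * Complex.I) * ((μ : ℂ) * Complex.I)) s := by
    intro s
    have h1 : HasDerivAt (fun s : ℝ => μ * s) μ s := by
      simpa using (hasDerivAt_id s).const_mul μ
    exact (h1.ofReal_comp.mul_const Complex.I).cexp
  have hd : ∀ s ∈ Set.Ioo (-ε) ε, HasDerivAt
      (fun s : ℝ => kap b C w Q s * Complex.exp (((μ * s : ℝ) : ℂ) * Complex.I)) 0 s := by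
    intro s hs'
    have h1 := (kap_deriv b C hs hμ hQ (hε s (abs_lt.2 hs'))).mul (he s)
    refine HasDerivAt.congr_deriv h1 ?_
    ring
  have hpos : 0 < ε := lt_of_le_of_lt (abs_nonneg t) ht
  have hc := IsOpen.is_const_of_deriv_eq_zero (𝕜 := ℝ) (isOpen_Ioo (a := -ε) (b := ε))
    isPreconnected_Ioo
    (fun s hs' => (hd s hs').differentiableAt.differentiableWithinAt)
    (fun s hs' => (hd s hs').deriv) (abs_lt.1 ht) (show (0 : ℝ) ∈ Set.Ioo (-ε) ε from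
      ⟨neg_lt_zero.2 hpos, hpos⟩)
  have h0 : kap b C w Q 0 = 1 := by
    show inner ℂ (rot b ((0 : ℝ) • w) (C.Z Q)) (C.Z (act b ((0 : ℝ) • w) Q)) = 1
    rw [zero_smul, act_zero, rot_zero, ContinuousLinearMap.id_apply,
      inner_self_eq_norm_sq_to_K, hn]
    simp
  have h1 : kap b C w Q t * Complex.exp (((μ * t : ℝ) : ℂ) * Complex.I) = 1 := by
    have := hc
    simp only [mul_zero, Complex.ofReal_zero, zero_mul, Complex.exp_zero, mul_one, h0] at this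
    exact this
  rw [neg_mul, Complex.exp_neg]
  exact eq_inv_of_mul_eq_one_left h1

/-- Uniformly in Q near P the flow stays in the chart for |t| < eps, and the lift moves by
exp(-i mu t) exp(i t H). Proof: z(t) = Z (act (t w) Q) = kappa(t) rot (t w) (Z Q),
kappa(t) = (rot (t w) (Z Q), z(t)), kappa' = -i mu kappa (z'(t) is orthogonal to z(t) by curve_deriv and leg). -/
theorem flow_lift (C : LChart L) {w : Fin (n + 1) → ℝ} (hs : Sym b L w) {μ : ℝ}
    (hμ : ∀ P ∈ L, mom b w P = μ) {P : Op n} (hP : P ∈ L ∩ C.U) :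
    ∃ ε > 0, ∀ᶠ Q in 𝓝[L] P, ∀ t : ℝ, |t| < ε → act b (t • w) Q ∈ C.U ∧
      C.Z (act b (t • w) Q) = Complex.exp (-((μ * t : ℝ) : ℂ) * Complex.I) •
        rot b (t • w) (C.Z Q) := by
  obtain ⟨ε, hε, hst⟩ := stay b C w hP.2
  refine ⟨ε, hε, ?_⟩
  filter_upwards [self_mem_nhdsWithin, mem_nhdsWithin_of_mem_nhds (C.openU.mem_nhds hP.2),
    mem_nhdsWithin_of_mem_nhds hst] with Q h1 h2 h3 t ht
  refine ⟨h3 t ht, ?_⟩
  rw [(kap_props b C hs ⟨h1, h2⟩ (h3 t ht)).2, kap_eq b C hs hμ ⟨h1, h2⟩ h3 ht]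

end Pool.Agent.H66.SyL
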