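import Pool.Agent.H66.SyL.MomA

/-! The moment map is constant on L. -/

set_option autoImplicit false

open scoped ContDiff Topology

namespace Pool.Agent.H66.SyL

variable {n : ℕ} {L : Set (Op n)} (b : OrthonormalBasis (Fin (n + 1)) ℂ (E n))

/-- the tangent vector i (H z - (z, H z) z) -/
private theorem tangent (C : LChart L) {w : Fin (n + 1) → ℝ} (hs : Sym b L w)
    {x : R n} (hx : x ∈ Metric.ball C.x0 C.δ) :
    ∃ y : R n, fderiv ℝ C.z x y =
      Complex.I • (ham b w (C.z x) - inner ℂ (C.z x) (ham b w (C.z x)) • C.z x) := by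
  have hQ : C.p x ∈ L ∩ C.U := C.p_mem x hx
  have hrx : C.r (C.p x) = x := C.r_p x hx
  have h0 : act b ((0 : ℝ) • w) (C.p x) = C.p x := by
    rw [zero_smul, act_zero]
  have hd := hasDerivAt_act b w (C.p x) 0
  rw [h0] at hd
  obtain ⟨y, -, hy, -⟩ := curve_deriv C (g := fun t : ℝ => act b (t • w) (C.p x)) (t0 := 0)
    (Filter.Eventually.of_forall fun t => hs t _ hQ.1) (by
      show act b ((0 : ℝ) • w) (C.p x) ∈ C.U
      rw [h0]
      exact hQ.2) hd
  refine ⟨y, ?_⟩
  have hy' : Complex.I • (ham b w ∘L C.p x - C.p x ∘L ham b w) = fderiv ℝ C.p x y := by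
    rw [hy]
    show fderiv ℝ C.p (C.r (act b ((0 : ℝ) • w) (C.p x))) y = _
    rw [h0, hrx]
  obtain ⟨-, -, h3, -, -⟩ := lift_deriv C.smooth_p C.smooth_z
    (fun x hx => ⟨C.norm_z x hx, C.pt_z x hx⟩) hx
  rw [h3 y, C.leg x hx y, zero_smul, add_zero, ← hy', ← C.pt_z x hx]
  have hz : pt (C.z x) (C.z x) = C.z x := pt_self (C.norm_z x hx)
  show Complex.I • (ham b w (pt (C.z x) (C.z x)) - pt (C.z x) (ham b w (C.z x))) = _
  rw [hz, pt_apply]

/-- the real part of (D_u z, H z) vanishes -/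
private theorem re_zero (C : LChart L) {w : Fin (n + 1) → ℝ} (hs : Sym b L w)
    {x : R n} (hx : x ∈ Metric.ball C.x0 C.δ) (u : R n) :
    (inner ℂ (fderiv ℝ C.z x u) (ham b w (C.z x))).re = 0 := by
  obtain ⟨y, hy⟩ := tangent b C hs hx
  have h1 := C.lag x hx u y
  have h2 : inner ℂ (fderiv ℝ C.z x u) (C.z x) = 0 := by
    rw [← inner_conj_symm, C.leg x hx u, map_zero]
  rw [hy, inner_smul_right, inner_sub_right, inner_smul_right, h2, mul_zero, sub_zero] at h1
  simpa using h1

/-- the moment map in the chart -/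
private noncomputable def mz (w : Fin (n + 1) → ℝ) (z : E n) : ℝ :=
  (inner ℂ z (ham b w z)).re

private theorem mz_mom (C : LChart L) (w : Fin (n + 1) → ℝ) {x : R n}
    (hx : x ∈ Metric.ball C.x0 C.δ) : mom b w (C.p x) = mz b w (C.z x) := by
  rw [← C.pt_z x hx, mom_pt]
  show _ = (inner ℂ (C.z x) (ham b w (C.z x))).re
  rw [inner_ham_self, Complex.ofReal_re]

private theorem mz_deriv (C : LChart L) {w : Fin (n + 1) → ℝ} (hs : Sym b L w)
    {x : R n} (hx : x ∈ Metric.ball C.x0 C.δ) :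
    HasFDerivAt (fun x => mz b w (C.z x)) (0 : R n →L[ℝ] ℝ) x := by
  have hz : HasFDerivAt C.z (fderiv ℝ C.z x) x :=
    ((C.smooth_z.contDiffAt (Metric.isOpen_ball.mem_nhds hx)).differentiableAt
      (by norm_num)).hasFDerivAt
  have hH : HasFDerivAt (fun x => ham b w (C.z x))
      (((ham b w).restrictScalars ℝ) ∘L (fderiv ℝ C.z x)) x :=
    ((ham b w).restrictScalars ℝ).hasFDerivAt.comp x hz
  have hi := hz.inner ℂ hH
  have hr := Complex.reCLM.hasFDerivAt.comp x hi
  refine HasFDerivAt.congr_fderiv hr ?_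
  ext u
  have h1 := re_zero b C hs hx u
  have h2 : inner ℂ (C.z x) (ham b w (fderiv ℝ C.z x u)) =
      inner ℂ (ham b w (C.z x)) (fderiv ℝ C.z x u) := by
    rw [inner_ham]
  have h3 : (inner ℂ (ham b w (C.z x)) (fderiv ℝ C.z x u)).re = 0 := by
    rw [← inner_conj_symm, Complex.conj_re]
    exact h1
  simp [fderivInnerCLM_apply, h2, h1, h3]

/-- Proof: in a chart, z unit horizontal lift, D_u (Hz,z) = 2 Re (D_u z, Hz). The vector field
i [H, P] is tangent to L (curve_deriv for t -> act (t w) P), so i [H, P] = Dp y and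
i (Hz - (Hz,z) z) = (Dp y) z = D_y z up to a multiple of z (lift_deriv), and lag gives
0 = Im (D_u z, i (Hz - m z)) = Re (D_u z, Hz). So the derivative of mom o p is 0 on the ball;
mom is locally constant on L, and L is connected. -/
theorem mom_const (hL : IsLagrangian L) (hconn : IsPreconnected L) {w : Fin (n + 1) → ℝ}
    (hs : Sym b L w) {P Q : Op n} (hP : P ∈ L) (hQ : Q ∈ L) : mom b w P = mom b w Q := by
  have hloc : ∀ P ∈ L, ∀ᶠ Q in 𝓝[L] P, mom b w Q = mom b w P := by
    intro P hP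
    obtain ⟨C, hC⟩ := exists_lchart hL hP
    have hev : ∀ᶠ Q in 𝓝[L] P, Q ∈ L ∩ C.U := by
      filter_upwards [self_mem_nhdsWithin, mem_nhdsWithin_of_mem_nhds (C.openU.mem_nhds hC)]
        with Q h1 h2 using ⟨h1, h2⟩
    filter_upwards [hev] with Q hQ
    have hq := C.r_mem Q hQ
    have hp := C.r_mem P ⟨hP, hC⟩
    rw [← C.p_r Q hQ, ← C.p_r P ⟨hP, hC⟩, mz_mom b C w hq, mz_mom b C w hp]
    exact (convex_ball C.x0 C.δ).is_const_of_fderivWithin_eq_zero
      (fun x hx => (mz_deriv b C hs hx).differentiableAt.differentiableWithinAt)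
      (fun x hx => by
        rw [fderivWithin_of_isOpen Metric.isOpen_ball hx]
        exact (mz_deriv b C hs hx).fderiv) hq hp
  have : PreconnectedSpace L := isPreconnected_iff_preconnectedSpace.1 hconn
  have hlc : IsLocallyConstant (fun Q : L => mom b w (Q : Op n)) := by
    rw [IsLocallyConstant.iff_eventually_eq]
    intro P
    exact (eventually_nhds_subtype_iff L P (fun Q => mom b w Q = mom b w (P : Op n))).2
      (hloc P P.2)
  exact hlc.apply_eq_of_preconnectedSpace ⟨P, hP⟩ ⟨Q, hQ⟩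

end Pool.Agent.H66.SyL
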