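import Pool.Agent.H66.SyL.Mom
import Pool.Agent.H66.SyL.Core

/-! Semi-invariant functions of the wrong weight vanish somewhere on L. -/

set_option autoImplicit false

open scoped ContDiff Topology

namespace Pool.Agent.H66.SyL

variable {n : ℕ} {L : Set (Op n)} (b : OrthonormalBasis (Fin (n + 1)) ℂ (E n))

/-- Proof: choose a chart C_P for every P in L (exists_lchart), Theta P Q = f (C_P.Z Q),
phi t = act (t w), c = e - d mu; compatibility by comp_Z (factor kappa^d), flow by flow_lift. -/
theorem phase (hL : IsLagrangian L) (hc : IsCompact L) (hne : L.Nonempty) (h1 : H1Zero L)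
    {w : Fin (n + 1) → ℝ} (hs : Sym b L w) {μ : ℝ} (hμ : ∀ P ∈ L, mom b w P = μ)
    (f : E n → ℂ) (hf : Continuous f) (d : ℤ) (e : ℝ)
    (hhom : ∀ (c : ℂ) (z : E n), ‖c‖ = 1 → f (c • z) = c ^ d * f z)
    (heq : ∀ (t : ℝ) (z : E n), f (rot b (t • w) z) = Complex.exp ((e * t : ℝ) * Complex.I) * f z)
    (hnz : ∀ z : E n, ‖z‖ = 1 → pt z ∈ L → f z ≠ 0) : e = d * μ := by
  have hNon : Nonempty (LChart L) := by
    obtain ⟨P0, hP0⟩ := hne
    exact ⟨(exists_lchart hL hP0).choose⟩
  choose! C hC using fun (P : Op n) (hP : P ∈ L) => exists_lchart hL hP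
  have hnear : ∀ P ∈ L, ∀ᶠ Q in 𝓝[L] P, Q ∈ L ∩ (C P).U := by
    intro P hP
    exact Filter.inter_mem self_mem_nhdsWithin
      (mem_nhdsWithin_of_mem_nhds ((C P).openU.mem_nhds (hC P hP)))
  have hmain : e - d * μ = 0 := by
    refine core L hc hne h1 (fun t P => act b (t • w) P) (fun t P hP => hs t P hP) ?_ ?_ ?_
      (fun P Q => f ((C P).Z Q)) (e - d * μ) ?_ ?_ ?_
    · intro P _
      simp only [zero_smul]
      exact act_zero b P
    · intro s t P _
      simp only [add_smul]
      exact act_add b (s • w) (t • w) P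
    · intro P _
      have h2 : Continuous (fun t : ℝ => ((t, P) : ℝ × Op n)) := Continuous.prodMk_left P
      have h3 := (continuous_act b w).comp h2
      have h4 : Continuous fun t : ℝ => act b (t • w) P := h3
      exact h4
    · intro P hP
      filter_upwards [hnear P hP] with Q hQ
      obtain ⟨hn, hp⟩ := (C P).Z_props hQ
      refine ⟨hnz _ hn (by rw [hp]; exact hQ.1), ?_⟩
      exact (hf.continuousAt.comp ((C P).continuousAt_Z hQ)).continuousWithinAt
    · intro P hP
      filter_upwards [hnear P hP] with Q hQ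
      obtain ⟨κ, hκ, hS⟩ := comp_Z (C P) (C Q) hQ ⟨hQ.1, hC Q hQ.1⟩
      have hκ0 : κ ≠ 0 := by
        intro h0
        rw [h0, norm_zero] at hκ
        exact zero_ne_one hκ
      refine ⟨κ ^ d, zpow_ne_zero d hκ0, ?_⟩
      filter_upwards [hS] with S hS
      refine ⟨1, one_pos, ?_⟩
      rw [hS, hhom κ _ hκ]
      push_cast
      ring
    · intro P hP
      obtain ⟨ε, hε, hfl⟩ := flow_lift b (C P) hs hμ ⟨hP, hC P hP⟩
      have hfl := hfl.self_of_nhdsWithin hP
      have hev : ∀ᶠ t : ℝ in 𝓝 (0 : ℝ), |t| < ε := by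
        have := Metric.ball_mem_nhds (0 : ℝ) hε
        filter_upwards [this] with t ht
        rwa [Metric.mem_ball, Real.dist_eq, sub_zero] at ht
      filter_upwards [hev] with t ht
      obtain ⟨_, hZ⟩ := hfl t ht
      refine ⟨1, one_pos, ?_⟩
      rw [hZ, hhom _ _ ?_, heq t]
      · rw [← Complex.exp_int_mul, ← mul_assoc, ← Complex.exp_add]
        push_cast
        rw [one_mul]
        congr 2
        ring
      · have : (-((μ * t : ℝ) : ℂ) * Complex.I) = ((-(μ * t) : ℝ) : ℂ) * Complex.I := by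
          push_cast
          ring
        rw [this]
        exact Complex.norm_exp_ofReal_mul_I _
  linarith

end Pool.Agent.H66.SyL
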