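import Pool.Agent.H66.SyL.Phase
import Pool.Agent.H66.SyL.DetPhase
import Pool.Agent.H66.SyL.Fix

/-! The spectrum of a symmetry. -/

set_option autoImplicit false

open scoped ContDiff Topology

namespace Pool.Agent.H66.SyL

variable {n : ℕ} {L : Set (Op n)} (b : OrthonormalBasis (Fin (n + 1)) ℂ (E n))

private theorem exists_mu (hL : IsLagrangian L) (hc : IsCompact L) (hconn : IsConnected L)
    (h1 : H1Zero L) {w : Fin (n + 1) → ℝ} (hs : Sym b L w) :
    ∀ P ∈ L, mom b w P = mean w := by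
  obtain ⟨Q, hQ⟩ := hconn.nonempty
  have hμ : ∀ P ∈ L, mom b w P = mom b w Q := fun P hP =>
    mom_const b hL hconn.isPreconnected hs hP hQ
  have h := mom_eq_mean b hL hc ⟨Q, hQ⟩ h1 hs hμ
  intro P hP
  rw [hμ P hP, h]

/-- The moment map identity: (Hz, z) = tr H / (n + 1) on L (mom_const, mom_eq_mean, mom_pt). -/
theorem mom_mean (hL : IsLagrangian L) (hc : IsCompact L) (hconn : IsConnected L) (h1 : H1Zero L)
    {w : Fin (n + 1) → ℝ} (hs : Sym b L w) {z : E n} (hz : ‖z‖ = 1) (hzL : pt z ∈ L) :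
    ∑ k, w k * ‖inner ℂ (b k) z‖ ^ 2 = mean w := by
  rw [← mom_pt]
  exact exists_mu b hL hc hconn h1 hs _ hzL

/-- A semi-invariant function of weight e different from d * mean vanishes somewhere on L. -/
theorem semi_zero (hL : IsLagrangian L) (hc : IsCompact L) (hconn : IsConnected L) (h1 : H1Zero L)
    {w : Fin (n + 1) → ℝ} (hs : Sym b L w) (f : E n → ℂ) (hf : Continuous f) (d : ℤ) (e : ℝ)
    (hhom : ∀ (c : ℂ) (z : E n), ‖c‖ = 1 → f (c • z) = c ^ d * f z)
    (heq : ∀ (t : ℝ) (z : E n), f (rot b (t • w) z) = Complex.exp ((e * t : ℝ) * Complex.I) * f z)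
    (hne : e ≠ d * mean w) : ∃ z : E n, ‖z‖ = 1 ∧ pt z ∈ L ∧ f z = 0 := by
  by_contra hcon
  push Not at hcon
  exact hne (phase b hL hc hconn.nonempty h1 hs (exists_mu b hL hc hconn h1 hs) f hf d e hhom heq
    hcon)

private theorem ext_coord {u v : E n} (h : ∀ k, inner ℂ (b k) u = inner ℂ (b k) v) : u = v := by
  rw [← b.sum_repr u, ← b.sum_repr v]
  refine Finset.sum_congr rfl fun k _ => ?_
  rw [b.repr_apply_apply, b.repr_apply_apply, h k]

private theorem sum_norm_sq {z : E n} (hz : ‖z‖ = 1) : ∑ k, ‖inner ℂ (b k) z‖ ^ 2 = 1 := by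
  rw [b.sum_sq_norm_inner_right, hz, one_pow]

/-- pt z fixed by all act (t w) iff (w k - mu) (b k, z) = 0 for all k, mu = (Hz, z). -/
theorem fixed_iff {w : Fin (n + 1) → ℝ} {z : E n} (hz : ‖z‖ = 1) :
    (∀ t : ℝ, act b (t • w) (pt z) = pt z) ↔
      ∀ k, (w k - ∑ j, w j * ‖inner ℂ (b j) z‖ ^ 2) * ‖inner ℂ (b k) z‖ = 0 := by
  set μ : ℝ := ∑ j, w j * ‖inner ℂ (b j) z‖ ^ 2 with hμ
  constructor
  · intro h k
    have h1 := hasDerivAt_act b w (pt z) 0
    have h2 : (fun t : ℝ => act b (t • w) (pt z)) = fun _ => pt z := funext h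
    rw [h2, h 0] at h1
    have h3 := h1.unique (hasDerivAt_const (0 : ℝ) (pt z))
    have h4 : Complex.I • (ham b w (pt z z) - pt z (ham b w z)) = 0 := by
      have h5 := congrArg (fun A : Op n => A z) h3
      simpa only [ContinuousLinearMap.smul_apply, ContinuousLinearMap.sub_apply,
        ContinuousLinearMap.comp_apply, ContinuousLinearMap.zero_apply] using h5
    have h5 : ham b w (pt z z) - pt z (ham b w z) = 0 := by
      rcases smul_eq_zero.1 h4 with h6 | h6
      · exact absurd h6 Complex.I_ne_zero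
      · exact h6
    rw [pt_self hz, pt_apply, inner_ham_self, ← hμ] at h5
    have h6 : ham b w z = ((μ : ℝ) : ℂ) • z := sub_eq_zero.1 h5
    have h7 : (((w k : ℝ) : ℂ) - ((μ : ℝ) : ℂ)) * inner ℂ (b k) z = 0 := by
      have h8 := coord_ham b w z k
      rw [h6, inner_smul_right] at h8
      rw [sub_mul, ← h8, sub_self]
    rcases mul_eq_zero.1 h7 with h8 | h8
    · have h9 : w k - μ = 0 := by exact_mod_cast h8
      rw [h9, zero_mul]
    · rw [h8, norm_zero, mul_zero]
  · intro h t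
    have h1 : rot b (t • w) z = Complex.exp (((t * μ : ℝ) : ℂ) * Complex.I) • z := by
      refine ext_coord b fun k => ?_
      rw [coord_rot, inner_smul_right]
      rcases mul_eq_zero.1 (h k) with h2 | h2
      · have h3 : w k = μ := by linarith
        rw [Pi.smul_apply, smul_eq_mul, h3]
      · rw [norm_eq_zero.1 h2, mul_zero, mul_zero]
    rw [act_pt, h1]
    exact pt_smul (Complex.norm_exp_ofReal_mul_I _)

/-- y_k >= 0, sum y_k = a, sum y_k^3 = a^3 > 0: exactly one y_k is not 0. -/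
theorem cube_sum {ι : Type*} (s : Finset ι) (y : ι → ℝ) (hy : ∀ k ∈ s, 0 ≤ y k) {a : ℝ} (ha : 0 < a)
    (h1 : ∑ k ∈ s, y k = a) (h3 : ∑ k ∈ s, y k ^ 3 = a ^ 3) :
    ∃ j ∈ s, y j = a ∧ ∀ k ∈ s, k ≠ j → y k = 0 := by
  classical
  have hle : ∀ k ∈ s, y k ≤ a := fun k hk => by
    rw [← h1]
    exact Finset.single_le_sum hy hk
  have hsum : ∑ k ∈ s, y k * (a ^ 2 - y k ^ 2) = 0 := by
    have e1 : ∑ k ∈ s, y k * (a ^ 2 - y k ^ 2) = (∑ k ∈ s, y k) * a ^ 2 - ∑ k ∈ s, y k ^ 3 := by
      rw [Finset.sum_mul, ← Finset.sum_sub_distrib]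
      exact Finset.sum_congr rfl fun k _ => by ring
    rw [e1, h1, h3]
    ring
  have hnn : ∀ k ∈ s, 0 ≤ y k * (a ^ 2 - y k ^ 2) := fun k hk => by
    have h0 := hy k hk
    have h4 := hle k hk
    refine mul_nonneg h0 ?_
    nlinarith
  have hz := (Finset.sum_eq_zero_iff_of_nonneg hnn).1 hsum
  have hex : ∃ j ∈ s, y j ≠ 0 := by
    by_contra hcon
    push Not at hcon
    rw [Finset.sum_eq_zero hcon] at h1
    exact ha.ne h1
  obtain ⟨j, hj, hj0⟩ := hex
  have hja : y j = a := by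
    rcases mul_eq_zero.1 (hz j hj) with h5 | h5
    · exact absurd h5 hj0
    · have h6 : 0 ≤ y j := hy j hj
      have h7 : (a - y j) * (a + y j) = 0 := by linarith
      rcases mul_eq_zero.1 h7 with h8 | h8
      · linarith
      · linarith
  refine ⟨j, hj, hja, fun k hk hkj => ?_⟩
  have h8 : ∑ k ∈ s.erase j, y k = 0 := by
    have h9 := Finset.add_sum_erase s y hj
    rw [h1, hja] at h9
    linarith
  exact (Finset.sum_eq_zero_iff_of_nonneg fun k hk => hy k (Finset.mem_of_mem_erase hk)).1 h8 k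
    (Finset.mem_erase.2 ⟨hkj, hk⟩)

private theorem sum_sub_mean (w : Fin (n + 1) → ℝ) : ∑ k, (w k - mean w) = 0 := by
  rw [Finset.sum_sub_distrib, Finset.sum_const, Finset.card_univ, Fintype.card_fin, nsmul_eq_mul,
    mean]
  have h : ((n : ℝ) + 1) ≠ 0 := by positivity
  push_cast
  field_simp
  ring

/-- If exactly one eigenvalue lies above the mean: by semi_zero for f z = (b j, z) there is [z] in L with
(b j, z) = 0, by mom_mean all (w k - mean) (b k, z) = 0, so [z] is a fixed point, fixed_sum and cube_sum. -/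
theorem one_above (hL : IsLagrangian L) (hc : IsCompact L) (hconn : IsConnected L) (h1 : H1Zero L)
    {w : Fin (n + 1) → ℝ} (hs : Sym b L w) {i : Fin (n + 1)} (hi : mean w < w i)
    (hone : ∀ k, k ≠ i → w k ≤ mean w) :
    (∃ j, j ≠ i ∧ mean w - w j = w i - mean w ∧ ∀ k, k ≠ i → k ≠ j → w k = mean w) ∧
      ∃ P ∈ L, ∀ t : ℝ, act b (t • w) P = P := by
  classical
  obtain ⟨z, hz, hzL, hz0⟩ := semi_zero b hL hc hconn h1 hs (fun z => inner ℂ (b i) z)
    (by fun_prop) 1 (w i)
    (fun c z _ => by rw [inner_smul_right, zpow_one])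
    (fun t z => by
      rw [coord_rot, Pi.smul_apply, smul_eq_mul, mul_comm t (w i)])
    (by
      rw [Int.cast_one, one_mul]
      exact hi.ne')
  have hz0' : inner ℂ (b i) z = 0 := hz0
  have hm := mom_mean b hL hc hconn h1 hs hz hzL
  have hn := sum_norm_sq b hz
  have hsum : ∑ k, (mean w - w k) * ‖inner ℂ (b k) z‖ ^ 2 = 0 := by
    have e1 : ∑ k, (mean w - w k) * ‖inner ℂ (b k) z‖ ^ 2 =
        mean w * ∑ k, ‖inner ℂ (b k) z‖ ^ 2 - ∑ k, w k * ‖inner ℂ (b k) z‖ ^ 2 := by
      rw [Finset.mul_sum, ← Finset.sum_sub_distrib]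
      exact Finset.sum_congr rfl fun k _ => by ring
    rw [e1, hn, hm]
    ring
  have hnn : ∀ k ∈ (Finset.univ : Finset (Fin (n + 1))),
      0 ≤ (mean w - w k) * ‖inner ℂ (b k) z‖ ^ 2 := by
    intro k _
    by_cases hk : k = i
    · rw [hk, hz0']
      simp
    · exact mul_nonneg (sub_nonneg.2 (hone k hk)) (by positivity)
  have hall := (Finset.sum_eq_zero_iff_of_nonneg hnn).1 hsum
  have hfix : ∀ t : ℝ, act b (t • w) (pt z) = pt z := by
    rw [fixed_iff b hz]
    intro k
    rw [hm]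
    rcases mul_eq_zero.1 (hall k (Finset.mem_univ k)) with h2 | h2
    · have h3 : w k - mean w = 0 := by linarith
      rw [h3, zero_mul]
    · have h3 : ‖inner ℂ (b k) z‖ = 0 := by
        exact pow_eq_zero_iff (two_ne_zero) |>.1 h2
      rw [h3, mul_zero]
  have hmom : mom b w (pt z) = mean w := by rw [mom_pt, hm]
  obtain ⟨hs1, hs3⟩ := fixed_sum b hL hs hzL hmom hfix
  refine ⟨?_, pt z, hzL, hfix⟩
  have hmem : i ∈ (Finset.univ : Finset (Fin (n + 1))) := Finset.mem_univ i
  obtain ⟨j, hj, hja, hjo⟩ := cube_sum (Finset.univ.erase i) (fun k => mean w - w k)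
    (fun k hk => sub_nonneg.2 (hone k (Finset.ne_of_mem_erase hk))) (a := w i - mean w)
    (by linarith)
    (by
      have h4 := Finset.add_sum_erase Finset.univ (fun k => w k - mean w) hmem
      rw [hs1] at h4
      have h5 : ∑ k ∈ Finset.univ.erase i, (mean w - w k) =
          -∑ k ∈ Finset.univ.erase i, (w k - mean w) := by
        rw [← Finset.sum_neg_distrib]
        exact Finset.sum_congr rfl fun k _ => by ring
      rw [h5]
      linarith)
    (by
      have h4 := Finset.add_sum_erase Finset.univ (fun k => (w k - mean w) ^ 3) hmem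
      rw [hs3] at h4
      have h5 : ∑ k ∈ Finset.univ.erase i, (mean w - w k) ^ 3 =
          -∑ k ∈ Finset.univ.erase i, (w k - mean w) ^ 3 := by
        rw [← Finset.sum_neg_distrib]
        exact Finset.sum_congr rfl fun k _ => by ring
      rw [h5]
      linarith)
  refine ⟨j, Finset.ne_of_mem_erase hj, hja, fun k hki hkj => ?_⟩
  have h6 : mean w - w k = 0 := hjo k (Finset.mem_erase.2 ⟨hki, Finset.mem_univ k⟩) hkj
  linarith

private theorem mean_neg (w : Fin (n + 1) → ℝ) : mean (-w) = -mean w := by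
  simp only [mean, Pi.neg_apply, Finset.sum_neg_distrib]
  ring

private theorem sym_neg {w : Fin (n + 1) → ℝ} (hs : Sym b L w) : Sym b L (-w) := by
  intro t P hP
  have h := hs (-t) P hP
  rwa [show (-t) • w = t • (-w) by rw [neg_smul, smul_neg]] at h

theorem dichotomy (hL : IsLagrangian L) (hc : IsCompact L) (hconn : IsConnected L) (h1 : H1Zero L)
    {w : Fin (n + 1) → ℝ} (hs : Sym b L w) :
    (∀ k, w k = mean w) ∨
    (∃ i j, i ≠ j ∧ mean w < w i ∧ mean w - w j = w i - mean w ∧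
      (∀ k, k ≠ i → k ≠ j → w k = mean w) ∧ ∃ P ∈ L, ∀ t : ℝ, act b (t • w) P = P) ∨
    ((∃ i j, i ≠ j ∧ mean w < w i ∧ mean w < w j) ∧ ∃ i j, i ≠ j ∧ w i < mean w ∧ w j < mean w) := by
  classical
  by_cases hall : ∀ k, w k = mean w
  · exact Or.inl hall
  right
  have hup : ∃ i, mean w < w i := by
    by_contra hcon
    push Not at hcon
    apply hall
    have h2 := (Finset.sum_eq_zero_iff_of_nonneg (s := Finset.univ)
      (f := fun k => mean w - w k) (fun k _ => sub_nonneg.2 (hcon k))).1 (by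
        have h3 := sum_sub_mean w
        have h4 : ∑ k, (mean w - w k) = -∑ k, (w k - mean w) := by
          rw [← Finset.sum_neg_distrib]
          exact Finset.sum_congr rfl fun k _ => by ring
        rw [h4, h3, neg_zero])
    intro k
    have h5 := h2 k (Finset.mem_univ k)
    linarith
  have hdown : ∃ i, w i < mean w := by
    by_contra hcon
    push Not at hcon
    apply hall
    have h2 := (Finset.sum_eq_zero_iff_of_nonneg (s := Finset.univ)
      (f := fun k => w k - mean w) (fun k _ => sub_nonneg.2 (hcon k))).1 (sum_sub_mean w)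
    intro k
    have h5 := h2 k (Finset.mem_univ k)
    linarith
  obtain ⟨i, hi⟩ := hup
  obtain ⟨j, hj⟩ := hdown
  by_cases hA : ∀ k, k ≠ i → w k ≤ mean w
  · left
    obtain ⟨⟨j', hj', e1, e2⟩, P, hP, hfix⟩ := one_above b hL hc hconn h1 hs hi hA
    exact ⟨i, j', hj'.symm, hi, e1, e2, P, hP, hfix⟩
  by_cases hB : ∀ k, k ≠ j → mean w ≤ w k
  · left
    have hj2 : mean (-w) < (-w) j := by
      rw [mean_neg, Pi.neg_apply]
      linarith
    obtain ⟨⟨i', hi', e1, e2⟩, P, hP, hfix⟩ := one_above b hL hc hconn h1 (sym_neg b hs)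
      (w := -w) hj2 (fun k hk => by
        rw [mean_neg, Pi.neg_apply]
        have := hB k hk
        linarith)
    rw [mean_neg, Pi.neg_apply, Pi.neg_apply] at e1
    refine ⟨i', j, hi', ?_, ?_, ?_, P, hP, ?_⟩
    · linarith
    · linarith
    · intro k hk1 hk2
      have h6 := e2 k hk2 hk1
      rw [mean_neg, Pi.neg_apply] at h6
      linarith
    · intro t
      have h7 := hfix (-t)
      rwa [show (-t) • (-w) = t • w by rw [neg_smul, smul_neg, neg_neg]] at h7
  right
  push Not at hA hB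
  obtain ⟨k, hk, hk2⟩ := hA
  obtain ⟨l, hl, hl2⟩ := hB
  exact ⟨⟨i, k, hk.symm, hi, hk2⟩, j, l, hl.symm, hj, hl2⟩

end Pool.Agent.H66.SyL
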