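import Pool.Agent.H66.SyL.Main

/-! The statements of the structure theorem, as definitions. -/

set_option autoImplicit false

namespace Pool.Agent.H66.SyL

/-- The moment map of the symmetry with eigenvalues w_k equals the mean of the w_k on L:
sum of w_k |z_k|^2 = mean w for [z] in L, |z| = 1. -/
def Centred (b : OrthonormalBasis (Fin (3 + 1)) ℂ (E 3)) (L : Set (Op 3))
    (w : Fin (3 + 1) → ℝ) : Prop :=
  ∀ z : E 3, ‖z‖ = 1 → pt z ∈ L → ∑ k, w k * ‖inner ℂ (b k) z‖ ^ 2 = mean w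

/-- w is of the form m + a (e_i - e_j), i different from j, a > 0, m the mean of the w_k -/
def Simple (w : Fin (3 + 1) → ℝ) : Prop :=
  ∃ i j, i ≠ j ∧ mean w < w i ∧ mean w - w j = w i - mean w ∧
    ∀ k, k ≠ i → k ≠ j → w k = mean w

/-- two of the w_k are larger than their mean and two are smaller -/
def Split (w : Fin (3 + 1) → ℝ) : Prop :=
  (∃ i j, i ≠ j ∧ mean w < w i ∧ mean w < w j) ∧ ∃ i j, i ≠ j ∧ w i < mean w ∧ w j < mean w

/-- the three types of symmetries: scalar; m + a (e_i - e_j), with a fixed point on L; two eigenvalues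
above and two below the mean, without fixed points on L. -/
def Typed (b : OrthonormalBasis (Fin (3 + 1)) ℂ (E 3)) (L : Set (Op 3))
    (w : Fin (3 + 1) → ℝ) : Prop :=
  (∀ k, w k = mean w) ∨ (Simple w ∧ ∃ P ∈ L, ∀ t : ℝ, act b (t • w) P = P) ∨
    (Split w ∧ ∀ P ∈ L, ∃ t : ℝ, act b (t • w) P ≠ P)

/-- for a pairing {i, j}, {k, l} of the four indices the symmetries are the w with
w_i + w_j = w_k + w_l, and |z_i| = |z_j|, |z_k| = |z_l| on L. -/
def Paired (b : OrthonormalBasis (Fin (3 + 1)) ℂ (E 3)) (L : Set (Op 3)) : Prop :=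
  ∃ i j k l : Fin (3 + 1), [i, j, k, l].Nodup ∧
    (∀ w : Fin (3 + 1) → ℝ, Sym b L w ↔ w i + w j = w k + w l) ∧
    ∀ z : E 3, ‖z‖ = 1 → pt z ∈ L →
      ‖inner ℂ (b i) z‖ = ‖inner ℂ (b j) z‖ ∧ ‖inner ℂ (b k) z‖ = ‖inner ℂ (b l) z‖

theorem types (L : Set (Op 3)) (hL : IsLagrangian L) (hc : IsCompact L) (hconn : IsConnected L)
    (h1 : H1Zero L) (b : OrthonormalBasis (Fin (3 + 1)) ℂ (E 3)) :
    (∀ w, Sym b L w → Centred b L w ∧ Typed b L w) ∧
    ((∃ w0, ∀ w, Sym b L w → ∃ s t : ℝ, w = s • (fun _ => (1 : ℝ)) + t • w0) ∨ Paired b L) := by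
  obtain ⟨h2, h3⟩ := main L hL hc hconn h1 b
  refine ⟨fun w hw => ?_, h3⟩
  obtain ⟨h4, _, h5⟩ := h2 w hw
  refine ⟨h4, ?_⟩
  rcases h5 with h | ⟨i, j, h6, h7, h8, h9, h10⟩ | ⟨h6, h7, h8⟩
  · exact Or.inl h
  · exact Or.inr (Or.inl ⟨⟨i, j, h6, h7, h8, h9⟩, h10⟩)
  · exact Or.inr (Or.inr ⟨⟨h6, h7⟩, h8⟩)

end Pool.Agent.H66.SyL
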